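import Pool.Agent.W683.RC.Bas
import Pool.Agent.W661.RC.Stm3

/-!
# Hyperlinear models: definitions (helper418)

Matrices `Mt d`, the squared Hilbert-Schmidt norm `hs`, the trace `tr`, projections `IsPr`, the order
`Le` and the energy `en` are those of `Pool.Agent.W661.RC.Defs`; basic lemmas are in
`Pool.Agent.W683.RC.Bas`.
-/

set_option autoImplicit false

namespace Helper418HL

open Matrix Filter Topology Pool.Agent.W661.RC Pool.Agent.W683.RC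
open scoped ComplexOrder

/-- asymptotically multiplicative unitary matrices along the ultrafilter `𝒰` -/
structure Mdl (G : Type) [Group G] (𝒰 : Ultrafilter ℕ) where
  d : ℕ → ℕ
  pos : ∀ n, 0 < d n
  U : G → ∀ n, Mt (d n)
  un : ∀ g n, (U g n)ᴴ * U g n = 1
  mul : ∀ g h, Tendsto (fun n => hs (U (g * h) n - U g n * U h n) / d n) 𝒰 (𝓝 0)

variable {G : Type} [Group G] {𝒰 : Ultrafilter ℕ}

/-- the energy of a matrix for finitely many group elements -/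
noncomputable def Mdl.e (M : Mdl G 𝒰) {k : ℕ} (γ : Fin k → G) (n : ℕ) (x : Mt (M.d n)) : ℝ :=
  en (fun s => M.U (γ s) n) x

/-- `A n` is asymptotically the commutant of the `U (γ s)` in the unit ball -/
structure Ctl (M : Mdl G 𝒰) {k : ℕ} (γ : Fin k → G) (A : ∀ n, StarSubalgebra ℂ (Mt (M.d n)))
    (K0 : ℝ) (ε : ℕ → ℝ) : Prop where
  K0pos : 0 ≤ K0
  lim : Tendsto ε 𝒰 (𝓝 0)
  com : ∀ᶠ n in (𝒰 : Filter ℕ), ∀ a ∈ A n, Le (aᴴ * a) 1 → M.e γ n a ≤ ε n * M.d n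
  near : ∀ᶠ n in (𝒰 : Filter ℕ), ∀ x : Mt (M.d n), Le (xᴴ * x) 1 →
    ∃ a ∈ A n, Le (aᴴ * a) 1 ∧ hs (x - a) ≤ K0 * M.e γ n x + ε n * M.d n

/-- the model is ergodic: matrices which nearly commute with the `U (γ s)` are nearly scalar -/
structure Erg (M : Mdl G 𝒰) {k : ℕ} (γ : Fin k → G) (K0 : ℝ) (ε : ℕ → ℝ) : Prop where
  K0pos : 0 ≤ K0
  lim : Tendsto ε 𝒰 (𝓝 0)
  near : ∀ᶠ n in (𝒰 : Filter ℕ), ∀ x : Mt (M.d n), Le (xᴴ * x) 1 →
    ∃ z : ℂ, hs (x - z • 1) ≤ K0 * M.e γ n x + ε n * M.d n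

/-- An orthonormal basis of the *-subalgebra `A` (for the Hilbert-Schmidt inner product), the square
root `r` of the inverse of its local index `∑ b b*`, and the comparison of the values of a
quadratic form on the unitaries of `A` with its average. -/
structure Idx {d : ℕ} (A : StarSubalgebra ℂ (Mt d)) where
  N : ℕ
  b : Fin N → Mt d
  mem : ∀ i, b i ∈ A
  orth : ∀ i j, trace ((b i)ᴴ * b j) = if i = j then 1 else 0
  span : ∀ x ∈ A, x = ∑ i, trace ((b i)ᴴ * x) • b i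
  w : Mt d
  w_eq : w = ∑ i, b i * (b i)ᴴ
  w_eq' : w = ∑ i, (b i)ᴴ * b i
  w_psd : w.PosSemidef
  w_mem : w ∈ A
  w_com : ∀ x ∈ A, x * w = w * x
  r : Mt d
  r_psd : r.PosSemidef
  r_mem : r ∈ A
  r_com : ∀ x ∈ A, x * r = r * x
  rrw : r * r * w = 1
  avg_lo : ∀ (L : ℕ) (y : Fin L → Mt d), ∃ u ∈ A, uᴴ * u = 1 ∧
    ∑ l, ‖trace (uᴴ * y l)‖ ^ 2 ≤ ∑ l, ∑ i, ‖trace ((b i * r)ᴴ * y l)‖ ^ 2
  avg_hi : ∀ (L : ℕ) (y : Fin L → Mt d), ∃ u ∈ A, uᴴ * u = 1 ∧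
    ∑ l, ∑ i, ‖trace ((b i * r)ᴴ * y l)‖ ^ 2 ≤ ∑ l, ‖trace (uᴴ * y l)‖ ^ 2

/-- the orthogonal projection onto `A` -/
noncomputable def Idx.E {d : ℕ} {A : StarSubalgebra ℂ (Mt d)} (I : Idx A) (x : Mt d) : Mt d :=
  ∑ i, trace ((I.b i)ᴴ * x) • I.b i

end Helper418HL
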