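import Pool.Agent.Helper418_HL.Defs

set_option autoImplicit false

namespace Helper418HL

open Matrix Filter Topology Pool.Agent.W661.RC Pool.Agent.W683.RC
open scoped ComplexOrder

namespace HB

lemma mkU_eq_iff {𝒰 : Ultrafilter ℕ} {d : ℕ → ℕ} (x y : BSeq d) : mkU 𝒰 d x = mkU 𝒰 d y ↔
    Tendsto (fun n => hs ((x : ∀ n, Mt (d n)) n - (y : ∀ n, Mt (d n)) n) / d n) 𝒰 (𝓝 0) := by
  have h1 : mkU 𝒰 d x = mkU 𝒰 d y ↔ (NullI 𝒰 d).ringCon x y := RingCon.eq _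
  rw [h1, TwoSidedIdeal.rel_iff]
  exact TwoSidedIdeal.mem_mk' _ _ _ _ _ _ _

/-- the homomorphism to the ultraproduct -/
noncomputable def hom {G : Type} [Group G] {𝒰 : Ultrafilter ℕ} (M : Mdl G 𝒰) :
    G →* MU 𝒰 M.d where
  toFun g := mkU 𝒰 M.d (unB (fun n => ⟨M.U g n, by
    rw [Matrix.mem_unitaryGroup_iff']; exact M.un g n⟩))
  map_one' := by
    set u : BSeq M.d := unB (fun n => ⟨M.U 1 n, by
      rw [Matrix.mem_unitaryGroup_iff']; exact M.un 1 n⟩) with hu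
    have h1 : mkU 𝒰 M.d u = mkU 𝒰 M.d u * mkU 𝒰 M.d u := by
      rw [← map_mul, mkU_eq_iff]
      have := M.mul 1 1
      rw [mul_one] at this
      exact this
    have h2 : mkU 𝒰 M.d (starB u) * mkU 𝒰 M.d u = 1 := by
      rw [← map_mul, ← map_one (mkU 𝒰 M.d)]
      congr 1
      apply Subtype.ext
      funext n
      exact M.un 1 n
    calc mkU 𝒰 M.d u = (mkU 𝒰 M.d (starB u) * mkU 𝒰 M.d u) * mkU 𝒰 M.d u := by
          rw [h2, one_mul]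
      _ = mkU 𝒰 M.d (starB u) * (mkU 𝒰 M.d u * mkU 𝒰 M.d u) := by rw [mul_assoc]
      _ = mkU 𝒰 M.d (starB u) * mkU 𝒰 M.d u := by rw [← h1]
      _ = 1 := h2
  map_mul' g h := by
    rw [← map_mul, mkU_eq_iff]
    exact M.mul g h

section alg

variable {d : ℕ} (O : Out d)

lemma e_pr : IsPr (O.Θ * O.Θᴴ) := by
  refine ⟨by rw [Matrix.conjTranspose_mul, Matrix.conjTranspose_conjTranspose], ?_⟩
  calc O.Θ * O.Θᴴ * (O.Θ * O.Θᴴ) = O.Θ * (O.Θᴴ * O.Θ) * O.Θᴴ := by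
        simp only [Matrix.mul_assoc]
    _ = _ := by rw [O.iso, Matrix.mul_one]

lemma mul_e {a : Mt d} (ha : a ∈ O.alg) : a * (O.Θ * O.Θᴴ) = a := by
  obtain ⟨X, _, rfl⟩ := ha
  calc O.Θ * X * O.Θᴴ * (O.Θ * O.Θᴴ) = O.Θ * X * (O.Θᴴ * O.Θ) * O.Θᴴ := by
        simp only [Matrix.mul_assoc]
    _ = _ := by rw [O.iso, Matrix.mul_one]

lemma e_mul {a : Mt d} (ha : a ∈ O.alg) : (O.Θ * O.Θᴴ) * a = a := by
  obtain ⟨X, _, rfl⟩ := ha
  calc O.Θ * O.Θᴴ * (O.Θ * X * O.Θᴴ) = O.Θ * (O.Θᴴ * O.Θ) * X * O.Θᴴ := by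
        simp only [Matrix.mul_assoc]
    _ = _ := by rw [O.iso, Matrix.mul_one]

lemma e_mem : (O.Θ * O.Θᴴ) ∈ O.alg := by
  refine ⟨1, ⟨1, ?_, ?_⟩, by rw [Matrix.mul_one]⟩
  · intro i j hij
    exact Matrix.one_apply_ne (fun h => hij (by rw [h]))
  · rintro ⟨i, x⟩ ⟨j, y⟩
    by_cases hij : i = j
    · subst hij
      by_cases hxy : x = y
      · subst hxy
        simp
      · have h1 : (x : ℕ) ≠ (y : ℕ) := fun h => hxy (Fin.ext h)
        rw [if_neg h1, Matrix.one_apply_ne]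
        intro h
        exact hxy (by simpa using h)
    · have h1 : ((⟨i, x⟩ : Jx O.c O.l)) ≠ ⟨j, y⟩ := by
        intro h
        exact hij (congrArg Sigma.fst h)
      rw [Matrix.one_apply_ne h1]
      simp [Matrix.one_apply_ne hij]

lemma a_compl {a : Mt d} (ha : a ∈ O.alg) : a * (1 - O.Θ * O.Θᴴ) = 0 := by
  rw [Matrix.mul_sub, Matrix.mul_one, mul_e O ha, sub_self]

lemma compl_a {a : Mt d} (ha : a ∈ O.alg) : (1 - O.Θ * O.Θᴴ) * a = 0 := by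
  rw [Matrix.sub_mul, Matrix.one_mul, e_mul O ha, sub_self]

/-- the unital algebra -/
noncomputable def ualg (A : NonUnitalStarSubalgebra ℂ (Mt d)) (hA : (A : Set (Mt d)) = O.alg) :
    StarSubalgebra ℂ (Mt d) where
  carrier := {x | ∃ a ∈ O.alg, ∃ z : ℂ, x = a + z • (1 - O.Θ * O.Θᴴ)}
  mul_mem' := by
    rintro x y ⟨a, ha, z, rfl⟩ ⟨b, hb, w, rfl⟩
    refine ⟨a * b, ?_, z * w, ?_⟩
    · rw [← hA] at ha hb ⊢
      exact A.mul_mem ha hb
    · have h1 := a_compl O ha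
      have h2 := compl_a O hb
      have h3 := (pr_compl (e_pr O)).2
      rw [add_mul, mul_add, mul_add, Matrix.mul_smul, h1, smul_zero, add_zero, Matrix.smul_mul,
        h2, smul_zero, zero_add, Matrix.smul_mul, Matrix.mul_smul, h3, smul_smul]
  add_mem' := by
    rintro x y ⟨a, ha, z, rfl⟩ ⟨b, hb, w, rfl⟩
    refine ⟨a + b, ?_, z + w, ?_⟩
    · rw [← hA] at ha hb ⊢
      exact A.add_mem ha hb
    · rw [add_smul]
      abel
  algebraMap_mem' := by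
    intro r
    refine ⟨r • (O.Θ * O.Θᴴ), ?_, r, ?_⟩
    · have h := e_mem O
      rw [← hA] at h ⊢
      exact A.smul_mem' r h
    · rw [← smul_add, Algebra.algebraMap_eq_smul_one]
      congr 1
      abel
  star_mem' := by
    rintro x ⟨a, ha, z, rfl⟩
    refine ⟨star a, ?_, star z, ?_⟩
    · rw [← hA] at ha ⊢
      exact star_mem (S := NonUnitalStarSubalgebra ℂ (Mt d)) (s := A) ha
    · rw [star_add, star_smul]
      congr 2
      exact (pr_compl (e_pr O)).1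

lemma mem_ualg {A : NonUnitalStarSubalgebra ℂ (Mt d)} {hA : (A : Set (Mt d)) = O.alg} {x : Mt d} :
    x ∈ ualg O A hA ↔ ∃ a ∈ O.alg, ∃ z : ℂ, x = a + z • (1 - O.Θ * O.Θᴴ) := Iff.rfl

lemma tr_compl : tr (1 - O.Θ * O.Θᴴ) = (d : ℝ) - Fintype.card (Jx O.c O.l) := by
  rw [tr_sub, tr_one, tr_mul_comm, O.iso]
  simp [tr]

lemma en_ualg {k : ℕ} (u : Fin k → Mt d) (hu : ∀ s, (u s)ᴴ * u s = 1) (ε : ℝ)
    (h1 : ∀ a ∈ O.alg, Le (aᴴ * a) 1 → en u a ≤ ε * d)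
    (h2 : (d : ℝ) - Fintype.card (Jx O.c O.l) ≤ ε * d)
    {A : NonUnitalStarSubalgebra ℂ (Mt d)} {hA : (A : Set (Mt d)) = O.alg} {x : Mt d}
    (hx : x ∈ ualg O A hA) (hx1 : Le (xᴴ * x) 1) : en u x ≤ (2 + 8 * k) * |ε| * d := by
  obtain ⟨a, ha, z, hxa⟩ := hx
  have hd : (0:ℝ) ≤ d := Nat.cast_nonneg _
  have e1 : x * (O.Θ * O.Θᴴ) = a := by
    rw [hxa, add_mul, mul_e O ha, Matrix.smul_mul, Matrix.sub_mul, Matrix.one_mul, (e_pr O).2,
      sub_self, smul_zero, add_zero]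
  have e2 : x * (1 - O.Θ * O.Θᴴ) = z • (1 - O.Θ * O.Θᴴ) := by
    rw [hxa, add_mul, a_compl O ha, zero_add, Matrix.smul_mul, (pr_compl (e_pr O)).2]
  have ha1 : Le (aᴴ * a) 1 := by
    have h3 := Le_conj hx1 (O.Θ * O.Θᴴ)
    have h4 : (O.Θ * O.Θᴴ)ᴴ * (xᴴ * x) * (O.Θ * O.Θᴴ) = aᴴ * a := by
      rw [← e1, Matrix.conjTranspose_mul x]
      simp only [Matrix.mul_assoc]
    rw [h4, Matrix.mul_one] at h3
    exact Le_trans h3 (pr_sq_le_one (e_pr O))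
  have h3 : hs (z • (1 - O.Θ * O.Θᴴ)) ≤ |ε| * d := by
    rw [← e2]
    refine (hs_mul_le hx1 _).trans ?_
    rw [← pr_tr_eq_hs (pr_compl (e_pr O)), tr_compl]
    exact h2.trans (mul_le_mul_of_nonneg_right (le_abs_self _) hd)
  have h4 := en_le u hu (z • (1 - O.Θ * O.Θᴴ))
  have h5 := en_add_le u a (z • (1 - O.Θ * O.Θᴴ))
  rw [← hxa] at h5
  have h6 := (h1 a ha ha1).trans (mul_le_mul_of_nonneg_right (le_abs_self _) hd)
  have h7 : 4 * (k:ℝ) * hs (z • (1 - O.Θ * O.Θᴴ)) ≤ 4 * k * (|ε| * d) :=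
    mul_le_mul_of_nonneg_left h3 (by positivity)
  nlinarith

end alg

end HB

/-- TARGET -/
theorem ctl_exists (hM : MidP) (hA : AlgP) {G : Type} [Group G] {𝒰 : Ultrafilter ℕ}
    (hU : (𝒰 : Filter ℕ) ≤ cofinite) (hT : HasT G) (M : Mdl G 𝒰) {k : ℕ} (γ : Fin k → G)
    (hgen : Subgroup.closure (Set.range γ) = ⊤) :
    ∃ (A : ∀ n, StarSubalgebra ℂ (Mt (M.d n))) (K0 : ℝ) (ε : ℕ → ℝ), Ctl M γ A K0 ε := by
  have hsurj : Function.Surjective (FreeGroup.lift γ) := by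
    rw [← MonoidHom.range_eq_top, FreeGroup.range_lift_eq_closure, hgen]
  obtain ⟨K0, ε, O, b, hK0, hε, hev⟩ := hM G k (FreeGroup.lift γ) 𝒰 M.d (HB.hom M)
    (fun s n => ⟨M.U (γ s) n, by rw [Matrix.mem_unitaryGroup_iff']; exact M.un _ n⟩) hT hsurj hU
    M.pos (fun s => by rw [FreeGroup.lift_apply_of]; rfl)
  choose A0 hA0 using fun n => hA (M.d n) (O n)
  refine ⟨fun n => HB.ualg (O n) (A0 n) (hA0 n), K0, fun n => (2 + 8 * k) * |ε n|, hK0.le, ?_,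
    ?_, ?_⟩
  · have h1 : Tendsto (fun n => |ε n|) 𝒰 (𝓝 0) := by
      simpa using hε.abs
    simpa using h1.const_mul (2 + 8 * (k:ℝ))
  · filter_upwards [hev] with n hn
    obtain ⟨p1, p2, p3, p4, p5⟩ := hn
    intro a ha ha1
    exact HB.en_ualg (O n) _ (fun s => M.un (γ s) n) (ε n) p3 p5 ha ha1
  · filter_upwards [hev] with n hn
    obtain ⟨p1, p2, p3, p4, p5⟩ := hn
    intro x hx
    obtain ⟨a, ha, ha1, hxa⟩ := p4 x hx
    refine ⟨a, ⟨a, ha, 0, by rw [zero_smul, add_zero]⟩, ha1, hxa.trans ?_⟩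
    have hd : (0:ℝ) ≤ M.d n := Nat.cast_nonneg _
    have h1 : ε n ≤ (2 + 8 * (k:ℝ)) * |ε n| := by
      have h2 := le_abs_self (ε n)
      have h3 := abs_nonneg (ε n)
      have h4 : (0:ℝ) ≤ k := Nat.cast_nonneg _
      nlinarith [mul_nonneg h4 h3]
    have h2 := mul_le_mul_of_nonneg_right h1 hd
    have h3 : en (fun s => M.U (γ s) n) x = M.e γ n x := rfl
    show _ ≤ K0 * M.e γ n x + _
    rw [← h3]
    linarith

end Helper418HL
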