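import Pool.Agent.Helper418_HL.Defs

set_option autoImplicit false

namespace Helper418HL

open Matrix Filter Topology Pool.Agent.W661.RC Pool.Agent.W683.RC
open scoped ComplexOrder


namespace HC1

variable {d : ℕ}

theorem aeval_mem (A : StarSubalgebra ℂ (Mt d)) {h : Mt d} (hA : h ∈ A) (q : Polynomial ℝ) :
    Polynomial.aeval h q ∈ A := by
  rw [Polynomial.aeval_eq_sum_range]
  refine sum_mem fun i _ => ?_
  have : (q.coeff i) • h ^ i = ((q.coeff i : ℝ) : ℂ) • h ^ i := by
    ext a b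
    simp
  rw [this]
  exact A.toSubalgebra.smul_mem (pow_mem hA i) _

/-- a spectral projection of a hermitian element of a corner -/
theorem exists_proj (A : StarSubalgebra ℂ (Mt d)) {e h : Mt d} (hA : h ∈ A) (he : IsPr e)
    (hh : hᴴ = h) (hhe : h * e = h) (hne : ∀ z : ℂ, h ≠ z • e) :
    ∃ p ∈ A, IsPr p ∧ p ≠ 0 ∧ p ≠ e ∧ e * p = p := by
  have hsa : IsSelfAdjoint h := hh
  have hfin : (spectrum ℝ h).Finite := Matrix.finite_real_spectrum
  -- a nonzero eigenvalue
  have hmu : ∃ μ ∈ spectrum ℝ h, μ ≠ 0 := by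
    by_contra hcon
    push Not at hcon
    apply hne 0
    rw [zero_smul]
    have h1 : cfc (id : ℝ → ℝ) h = h := cfc_id ℝ h
    have h2 : cfc (id : ℝ → ℝ) h = cfc (fun _ => (0 : ℝ)) h :=
      cfc_congr fun x hx => hcon x hx
    have h3 : cfc (fun _ : ℝ => (0 : ℝ)) h = 0 := by
      rw [cfc_const_zero]
    rw [← h1, h2, h3]
  obtain ⟨μ, hμ, hμ0⟩ := hmu
  -- the polynomial
  obtain ⟨q, hq1, hq0⟩ : ∃ q : Polynomial ℝ, q.eval μ = 1 ∧ ∀ x ∈ spectrum ℝ h, x ≠ μ →
      q.eval x = 0 := by
    classical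
    refine ⟨Lagrange.basis hfin.toFinset id μ, ?_, ?_⟩
    · have := Lagrange.eval_basis_self (s := hfin.toFinset) (v := (id : ℝ → ℝ)) (i := μ)
        (Function.injective_id.injOn) (by simpa using hμ)
      simpa using this
    · intro x hx hxμ
      have := Lagrange.eval_basis_of_ne (s := hfin.toFinset) (v := (id : ℝ → ℝ)) (i := μ) (j := x)
        (Ne.symm hxμ) (by simpa using hx)
      simpa using this
  set p : Mt d := Polynomial.aeval h q with hp
  have hpc : p = cfc q.eval h := (cfc_polynomial q h hsa).symm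
  have hcont : ∀ f : ℝ → ℝ, ContinuousOn f (spectrum ℝ h) := fun f => hfin.continuousOn f
  have hpp : p * p = p := by
    rw [hpc, ← cfc_mul _ _ h (hcont _) (hcont _)]
    apply cfc_congr
    intro x hx
    by_cases hxμ : x = μ
    · subst hxμ
      simp [hq1]
    · simp [hq0 x hx hxμ]
  have hps : pᴴ = p := by
    have : IsSelfAdjoint (cfc q.eval h) := cfc_predicate _ _
    rw [hpc]
    exact this
  have hhp : h * p = (μ : ℂ) • p := by
    have h1 : cfc (id : ℝ → ℝ) h = h := cfc_id ℝ h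
    have h2 : h * p = cfc (fun x => μ * q.eval x) h := by
      calc h * p = cfc (id : ℝ → ℝ) h * cfc q.eval h := by rw [h1, hpc]
        _ = cfc (fun x => id x * q.eval x) h := (cfc_mul _ _ h (hcont _) (hcont _)).symm
        _ = _ := by
          apply cfc_congr
          intro x hx
          by_cases hxμ : x = μ
          · subst hxμ
            simp
          · simp [hq0 x hx hxμ]
    rw [h2, cfc_const_mul _ _ h (hcont _), ← hpc]
    ext a b
    simp
  have hp0 : p ≠ 0 := by
    intro h0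
    have h1 := cfc_map_spectrum q.eval h hsa (hcont _)
    rw [← hpc, h0] at h1
    have h2 : (1 : ℝ) ∈ spectrum ℝ (0 : Mt d) := by
      rw [h1]
      exact ⟨μ, hμ, hq1⟩
    rw [spectrum.mem_iff] at h2
    apply h2
    simp
  have heh : e * h = h := by
    have := congrArg Matrix.conjTranspose hhe
    rwa [Matrix.conjTranspose_mul, he.1, hh] at this
  have hμc : (μ : ℂ) ≠ 0 := by exact_mod_cast hμ0
  have hep : e * p = p := by
    have h1 : (μ : ℂ) • (e * p) = (μ : ℂ) • p := by
      rw [← Matrix.mul_smul, ← hhp, ← Matrix.mul_assoc, heh]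
    exact smul_right_injective _ hμc h1
  refine ⟨p, aeval_mem A hA q, ⟨hps, hpp⟩, hp0, ?_, hep⟩
  intro hpe
  apply hne μ
  rw [← hpe, ← hhp, hpe, hhe]

theorem exists_split (A : StarSubalgebra ℂ (Mt d)) {e : Mt d} (heA : e ∈ A) (he : IsPr e)
    {x : Mt d} (hx : x ∈ A) (hne : ∀ z : ℂ, e * x * e ≠ z • e) :
    ∃ p ∈ A, IsPr p ∧ p ≠ 0 ∧ p ≠ e ∧ e * p = p := by
  set y : Mt d := e * x * e with hy
  have hyA : y ∈ A := mul_mem (mul_mem heA hx) heA
  have hye : y * e = y := by rw [hy, Matrix.mul_assoc, he.2]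
  have hey : e * y = y := by rw [hy, ← Matrix.mul_assoc, ← Matrix.mul_assoc, he.2]
  have hysA : yᴴ ∈ A := star_mem hyA
  have hyse : yᴴ * e = yᴴ := by
    have := congrArg Matrix.conjTranspose hey
    rwa [Matrix.conjTranspose_mul, he.1] at this
  by_cases h1 : ∀ z : ℂ, y + yᴴ ≠ z • e
  · apply exists_proj A (h := y + yᴴ) (add_mem hyA hysA) he _ _ h1
    · rw [Matrix.conjTranspose_add, Matrix.conjTranspose_conjTranspose, add_comm]
    · rw [Matrix.add_mul, hye, hyse]
  · push Not at h1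
    obtain ⟨z1, hz1⟩ := h1
    have hI : (Complex.I • (y - yᴴ)) ∈ A := A.toSubalgebra.smul_mem (sub_mem hyA hysA) _
    apply exists_proj A (h := Complex.I • (y - yᴴ)) hI he _ _ _
    · rw [Matrix.conjTranspose_smul, Matrix.conjTranspose_sub, Matrix.conjTranspose_conjTranspose]
      rw [Complex.star_def, Complex.conj_I, ← neg_sub y yᴴ, smul_neg, neg_smul, neg_neg]
    · rw [Matrix.smul_mul, Matrix.sub_mul, hye, hyse]
    · intro z hz
      apply hne ((z1 - Complex.I * z) / 2)
      have h2 : y - yᴴ = (-Complex.I * z) • e := by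
        have : (-Complex.I) • (Complex.I • (y - yᴴ)) = (-Complex.I) • (z • e) := by rw [hz]
        rw [smul_smul, smul_smul] at this
        simpa using this
      have h3 : (2 : ℂ) • y = (z1 - Complex.I * z) • e := by
        calc (2 : ℂ) • y = (y + yᴴ) + (y - yᴴ) := by rw [two_smul]; abel
          _ = z1 • e + (-Complex.I * z) • e := by rw [hz1, h2]
          _ = _ := by rw [← add_smul]; congr 1; ring
      have h4 : (2 : ℂ) • y = (2 : ℂ) • (((z1 - Complex.I * z) / 2) • e) := by
        rw [h3, smul_smul]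
        congr 1
        ring
      exact smul_right_injective _ two_ne_zero h4

theorem main_ind (A : StarSubalgebra ℂ (Mt d)) : ∀ (r : ℕ) (e : Mt d), e ∈ A → IsPr e →
    e.rank ≤ r → ∃ S : Finset (Mt d),
      (∀ c ∈ S, c ∈ A ∧ IsPr c ∧ c ≠ 0 ∧ ∀ x ∈ A, ∃ z : ℂ, c * x * c = z • c) ∧
      (∀ c ∈ S, ∀ c' ∈ S, c ≠ c' → c * c' = 0) ∧ ∑ c ∈ S, c = e := by
  classical
  intro r
  induction r with
  | zero =>
    intro e heA he hr
    have h0 : e = 0 := by
      rw [pr_eq_zero_iff he, pr_tr_rank he]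
      exact_mod_cast Nat.le_zero.1 hr
    exact ⟨∅, by simp, by simp, by simp [h0]⟩
  | succ r ih =>
    intro e heA he hr
    by_cases h0 : e = 0
    · exact ⟨∅, by simp, by simp, by simp [h0]⟩
    by_cases hmin : ∀ x ∈ A, ∃ z : ℂ, e * x * e = z • e
    · exact ⟨{e}, by simpa using ⟨heA, he, h0, hmin⟩, by simp, by simp⟩
    push Not at hmin
    obtain ⟨x, hx, hne⟩ := hmin
    obtain ⟨p, hpA, hp, hp0, hpe, hep⟩ := exists_split A heA he hx hne
    have hsub : IsPr (e - p) := pr_sub hp he hep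
    have hsub0 : e - p ≠ 0 := fun h => hpe (sub_eq_zero.1 h).symm
    have hpos : ∀ c : Mt d, IsPr c → c ≠ 0 → 0 < c.rank := by
      intro c hc hc0
      rw [Nat.pos_iff_ne_zero]
      intro h
      apply hc0
      rw [pr_eq_zero_iff hc, pr_tr_rank hc, h]
      simp
    have hrk : p.rank + (e - p).rank = e.rank := by
      have h1 := pr_tr_rank hp
      have h2 := pr_tr_rank hsub
      have h3 := pr_tr_rank he
      rw [tr_sub] at h2
      have : ((p.rank + (e - p).rank : ℕ) : ℝ) = e.rank := by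
        push_cast
        linarith
      exact_mod_cast this
    have hr1 := hpos p hp hp0
    have hr2 := hpos (e - p) hsub hsub0
    obtain ⟨S, hS1, hS2, hS3⟩ := ih p hpA hp (by omega)
    obtain ⟨T, hT1, hT2, hT3⟩ := ih (e - p) (sub_mem heA hpA) hsub (by omega)
    have hpe' : p * (e - p) = 0 := by
      have hpe2 : p * e = p := pr_mul_symm hp he hep
      rw [Matrix.mul_sub, hpe2, hp.2, sub_self]
    have abs1 : ∀ (U : Finset (Mt d)) (f : Mt d), (∀ c ∈ U, IsPr c) →
        (∀ c ∈ U, ∀ c' ∈ U, c ≠ c' → c * c' = 0) → ∑ c ∈ U, c = f →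
        ∀ c ∈ U, c * f = c ∧ f * c = c := by
      intro U f h1 h2 h3 c hc
      rw [← h3]
      constructor
      · rw [Finset.mul_sum, Finset.sum_eq_single c]
        · exact (h1 c hc).2
        · intro b hb hbc
          exact h2 c hc b hb (Ne.symm hbc)
        · intro h
          exact absurd hc h
      · rw [Finset.sum_mul, Finset.sum_eq_single c]
        · exact (h1 c hc).2
        · intro b hb hbc
          exact h2 b hb c hc hbc
        · intro h
          exact absurd hc h
    have aS := abs1 S p (fun c hc => (hS1 c hc).2.1) hS2 hS3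
    have aT := abs1 T (e - p) (fun c hc => (hT1 c hc).2.1) hT2 hT3
    have hST : ∀ c ∈ S, ∀ c' ∈ T, c * c' = 0 := by
      intro c hc c' hc'
      rw [← (aS c hc).1, ← (aT c' hc').2, Matrix.mul_assoc, ← Matrix.mul_assoc p, hpe',
        Matrix.zero_mul, Matrix.mul_zero]
    have hTS : ∀ c ∈ T, ∀ c' ∈ S, c * c' = 0 := by
      intro c hc c' hc'
      exact pr_mul_zero_symm (hS1 c' hc').2.1 (hT1 c hc).2.1 (hST c' hc' c hc)
    have hdisj : Disjoint S T := by
      rw [Finset.disjoint_left]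
      intro c hc hc'
      have h1 := hST c hc c hc'
      rw [(hS1 c hc).2.1.2] at h1
      exact (hS1 c hc).2.2.1 h1
    refine ⟨S ∪ T, ?_, ?_, ?_⟩
    · intro c hc
      rcases Finset.mem_union.1 hc with h | h
      · exact hS1 c h
      · exact hT1 c h
    · intro c hc c' hc' hcc
      rcases Finset.mem_union.1 hc with h | h <;> rcases Finset.mem_union.1 hc' with h' | h'
      · exact hS2 c h c' h' hcc
      · exact hST c h c' h'
      · exact hTS c h c' h'
      · exact hT2 c h c' h' hcc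
    · rw [Finset.sum_union hdisj, hS3, hT3]
      abel

end HC1

/-- TARGET -/
theorem min_proj {d : ℕ} (A : StarSubalgebra ℂ (Mt d)) :
    ∃ (N : ℕ) (c : Fin N → Mt d), (∀ j, c j ∈ A) ∧ (∀ j, IsPr (c j)) ∧ (∀ j, c j ≠ 0) ∧
      (∀ i j, i ≠ j → c i * c j = 0) ∧ ∑ j, c j = 1 ∧
      ∀ x ∈ A, ∀ j, ∃ z : ℂ, c j * x * c j = z • c j := by
  obtain ⟨S, h1, h2, h3⟩ := HC1.main_ind A _ 1 (one_mem A) pr_one le_rfl
  refine ⟨S.card, fun j => (S.equivFin.symm j : Mt d), ?_, ?_, ?_, ?_, ?_, ?_⟩
  · exact fun j => (h1 _ (S.equivFin.symm j).2).1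
  · exact fun j => (h1 _ (S.equivFin.symm j).2).2.1
  · exact fun j => (h1 _ (S.equivFin.symm j).2).2.2.1
  · intro i j hij
    refine h2 _ (S.equivFin.symm i).2 _ (S.equivFin.symm j).2 ?_
    intro h
    exact hij (S.equivFin.symm.injective (Subtype.ext h))
  · rw [← h3, ← Finset.sum_coe_sort S]
    exact Equiv.sum_comp S.equivFin.symm (fun c : S => (c : Mt d))
  · exact fun x hx j => (h1 _ (S.equivFin.symm j).2).2.2.2 x hx

end Helper418HL
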