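import Pool.Agent.Helper418_HL.Defs

set_option autoImplicit false

namespace Helper418HL

open Matrix Filter Topology Pool.Agent.W661.RC Pool.Agent.W683.RC
open scoped ComplexOrder

namespace HC2

theorem hs_par {d : ℕ} (x y : Mt d) : hs (x + y) + hs (x - y) = 2 * hs x + 2 * hs y := by
  unfold hs
  rw [← Finset.sum_add_distrib, Finset.mul_sum, Finset.mul_sum, ← Finset.sum_add_distrib]
  refine Finset.sum_congr rfl fun i _ => ?_
  rw [← Finset.sum_add_distrib, Finset.mul_sum, Finset.mul_sum, ← Finset.sum_add_distrib]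
  refine Finset.sum_congr rfl fun j _ => ?_
  rw [Matrix.add_apply, Matrix.sub_apply]
  have := parallelogram_law_with_norm ℝ (x i j) (y i j)
  linarith [this]

theorem en_par {d k : ℕ} (u : Fin k → Mt d) (x y : Mt d) :
    en u (x + y) + en u (x - y) = 2 * en u x + 2 * en u y := by
  unfold en
  rw [← Finset.sum_add_distrib, Finset.mul_sum, Finset.mul_sum, ← Finset.sum_add_distrib]
  refine Finset.sum_congr rfl fun s _ => ?_
  rw [← hs_par]
  congr 2
  · rw [mul_add, add_mul]; abel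
  · rw [mul_sub, sub_mul]; abel

theorem exists_sign {d k : ℕ} (u : Fin k → Mt d) : ∀ (N : ℕ) (x : Mt d) (c : Fin N → Mt d),
    ∃ σ : Fin N → ℂ, (∀ j, σ j = 1 ∨ σ j = -1) ∧
      en u x + ∑ j, en u (c j) ≤ en u (x + ∑ j, σ j • c j) := by
  intro N
  induction N with
  | zero => intro x c; exact ⟨fun _ => 1, fun _ => Or.inl rfl, by simp⟩
  | succ N ih =>
    intro x c
    have hp := en_par u x (c 0)
    have hex : ∃ τ : ℂ, (τ = 1 ∨ τ = -1) ∧ en u x + en u (c 0) ≤ en u (x + τ • c 0) := by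
      by_cases h : en u x + en u (c 0) ≤ en u (x + c 0)
      · exact ⟨1, Or.inl rfl, by rwa [one_smul]⟩
      · refine ⟨-1, Or.inr rfl, ?_⟩
        rw [neg_smul, one_smul, ← sub_eq_add_neg]
        push Not at h
        linarith
    obtain ⟨τ, hτ, h1⟩ := hex
    obtain ⟨σ, hσ, h2⟩ := ih (x + τ • c 0) (fun j => c j.succ)
    refine ⟨Fin.cons τ σ, ?_, ?_⟩
    · intro j
      refine Fin.cases ?_ (fun i => ?_) j
      · simpa using hτ
      · simpa using hσ i
    · rw [Fin.sum_univ_succ, Fin.sum_univ_succ]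
      simp only [Fin.cons_zero, Fin.cons_succ]
      rw [← add_assoc, ← add_assoc]
      exact (add_le_add_left h1 _).trans h2

end HC2

/-- TARGET -/
theorem en_sum_le {d k N : ℕ} (u : Fin k → Mt d) (c : Fin N → Mt d) (E : ℝ)
    (h : ∀ σ : Fin N → ℂ, (∀ j, σ j = 1 ∨ σ j = -1) → en u (∑ j, σ j • c j) ≤ E) :
    ∑ j, en u (c j) ≤ E := by
  obtain ⟨σ, hσ, h1⟩ := HC2.exists_sign u N 0 c
  have h2 : en u 0 = 0 := by
    unfold en hs
    simp
  rw [h2, zero_add, zero_add] at h1
  exact h1.trans (h σ hσ)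

end Helper418HL
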