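import Pool.Agent.Helper418_HL.HC3
import Pool.Agent.Helper418_HL.Defs

set_option autoImplicit false

namespace Helper418HL

open Matrix Filter Topology Pool.Agent.W661.RC Pool.Agent.W683.RC
open scoped ComplexOrder

/-! GIVEN (proved elsewhere) -/
end Helper418HL

namespace Helper418HL.HC4

open Matrix Filter Topology Pool.Agent.W661.RC Pool.Agent.W683.RC
open scoped ComplexOrder

/-- orthogonal decomposition of the Hilbert-Schmidt norm -/
lemma hs_rows {d N : ℕ} (c : Fin N → Mt d) (hc : ∀ j, IsPr (c j)) (hc1 : ∑ j, c j = 1)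
    (y : Mt d) : hs y = ∑ j, hs (c j * y) := by
  have h1 : ∀ j, hs (c j * y) = tr (yᴴ * (c j * y)) := by
    intro j
    rw [hs_eq_tr, Matrix.conjTranspose_mul, (hc j).1, Matrix.mul_assoc, ← Matrix.mul_assoc (c j),
      (hc j).2]
  rw [Finset.sum_congr rfl fun j _ => h1 j, ← tr_sum, ← Finset.mul_sum, ← Finset.sum_mul, hc1,
    Matrix.one_mul, hs_eq_tr]

/-- pinching -/
lemma pinch {d N : ℕ} (c : Fin N → Mt d) (hc : ∀ j, IsPr (c j)) (hc1 : ∑ j, c j = 1)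
    (y : Mt d) : ∑ j, hs (c j * y * c j) ≤ hs y := by
  rw [hs_rows c hc hc1 y]
  exact Finset.sum_le_sum fun j _ => hs_mul_le_right (pr_sq_le_one (hc j)) _

lemma cross {d N : ℕ} (c : Fin N → Mt d) (hc : ∀ j, IsPr (c j))
    (hcc : ∀ i j, i ≠ j → c i * c j = 0) (x : Fin N → Mt d) (hx : ∀ j, c j * x j * c j = x j)
    {i j : Fin N} (hij : i ≠ j) : (x i)ᴴ * x j = 0 := by
  rw [← hx i, ← hx j, Matrix.conjTranspose_mul, Matrix.conjTranspose_mul, (hc i).1]
  have : c i * ((x i)ᴴ * c i) * (c j * x j * c j) = c i * (x i)ᴴ * (c i * c j) * x j * c j := by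
    noncomm_ring
  rw [this, hcc i j hij]
  simp

lemma contr_sum {d N : ℕ} (c : Fin N → Mt d) (hc : ∀ j, IsPr (c j))
    (hcc : ∀ i j, i ≠ j → c i * c j = 0) (hc1 : ∑ j, c j = 1)
    (x : Fin N → Mt d) (hx : ∀ j, c j * x j * c j = x j)
    (hx1 : ∀ j, Le ((x j)ᴴ * x j) 1) : Le ((∑ j, x j)ᴴ * ∑ j, x j) 1 := by
  have h1 : (∑ j, x j)ᴴ * ∑ j, x j = ∑ j, (x j)ᴴ * x j := by
    rw [Matrix.conjTranspose_sum, Finset.sum_mul]
    refine Finset.sum_congr rfl fun i _ => ?_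
    rw [Finset.mul_sum]
    refine Finset.sum_eq_single i ?_ ?_
    · intro j _ hji
      exact cross c hc hcc x hx (Ne.symm hji)
    · intro h
      exact absurd (Finset.mem_univ i) h
  rw [h1, ← hc1]
  refine Le_sum _ _ _ fun j _ => ?_
  have h2 := Le_conj (hx1 j) (c j)
  have h3 : (c j)ᴴ * ((x j)ᴴ * x j) * c j = (x j)ᴴ * x j := by
    have e1 : x j * c j = x j := by
      conv_lhs => rw [← hx j]
      rw [Matrix.mul_assoc, (hc j).2, hx j]
    have e2 : (c j)ᴴ * (x j)ᴴ = (x j)ᴴ := by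
      rw [← Matrix.conjTranspose_mul, e1]
    rw [Matrix.mul_assoc, Matrix.mul_assoc, e1, ← Matrix.mul_assoc, e2]
  have h4 : (c j)ᴴ * 1 * c j = c j := by
    rw [Matrix.mul_one, (hc j).1, (hc j).2]
  rwa [h3, h4] at h2

lemma corner_sum {d N : ℕ} (c : Fin N → Mt d)
    (hcc : ∀ i j, i ≠ j → c i * c j = 0)
    (x : Fin N → Mt d) (hx : ∀ j, c j * x j * c j = x j) (j : Fin N) :
    c j * (∑ i, x i) * c j = x j := by
  rw [Finset.mul_sum, Finset.sum_mul]
  rw [Finset.sum_eq_single j]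
  · exact hx j
  · intro i _ hij
    rw [← hx i]
    have : c j * (c i * x i * c i) * c j = (c j * c i) * x i * (c i * c j) := by noncomm_ring
    rw [this, hcc j i (Ne.symm hij)]
    simp
  · intro h
    exact absurd (Finset.mem_univ j) h

end Helper418HL.HC4

namespace Helper418HL

open Matrix Filter Topology Pool.Agent.W661.RC Pool.Agent.W683.RC
open scoped ComplexOrder

/-- TARGET -/
theorem typical_erg {d k N : ℕ} (u : Fin k → Mt d) (hu : ∀ s, (u s)ᴴ * u s = 1)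
    (A : StarSubalgebra ℂ (Mt d)) (K0 ε E : ℝ) (hK0 : 0 ≤ K0)
    (hnear : ∀ x : Mt d, Le (xᴴ * x) 1 → ∃ a ∈ A, hs (x - a) ≤ K0 * en u x + ε * d)
    (c : Fin N → Mt d) (hc : ∀ j, IsPr (c j)) (hcc : ∀ i j, i ≠ j → c i * c j = 0)
    (hc1 : ∑ j, c j = 1) (hmin : ∀ x ∈ A, ∀ j, ∃ z : ℂ, c j * x * c j = z • c j)
    (hE : ∑ j, en u (c j) ≤ E) (τ : ℝ) (hτ : 0 < τ) (Bad : Finset (Fin N))
    (hBad : ∀ j ∈ Bad, ∃ x : Mt d, c j * x * c j = x ∧ Le (xᴴ * x) 1 ∧
      ∀ z : ℂ, K0 * ∑ s, hs (c j * u s * x - x * u s * c j) + τ * tr (c j) ≤ hs (x - z • c j)) :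
    τ * ∑ j ∈ Bad, tr (c j) ≤ 4 * K0 * E + ε * d := by
  classical
  choose! x0 hx0 using hBad
  obtain ⟨x, hxdef⟩ : ∃ x : Fin N → Mt d, x = fun j => if j ∈ Bad then x0 j else 0 := ⟨_, rfl⟩
  have hxB : ∀ j ∈ Bad, x j = x0 j := by
    intro j hj
    rw [hxdef]
    simp [hj]
  have hxN : ∀ j, j ∉ Bad → x j = 0 := by
    intro j hj
    rw [hxdef]
    simp [hj]
  have hx : ∀ j, c j * x j * c j = x j := by
    intro j
    by_cases hj : j ∈ Bad
    · rw [hxB j hj]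
      exact (hx0 j hj).1
    · rw [hxN j hj]
      simp
  have hx1 : ∀ j, Le ((x j)ᴴ * x j) 1 := by
    intro j
    by_cases hj : j ∈ Bad
    · rw [hxB j hj]
      exact (hx0 j hj).2.1
    · rw [hxN j hj, Matrix.mul_zero]
      exact Le_zero.2 Matrix.PosSemidef.one
  have hcorner := corner_ineq u hu c hc hcc hc1 x hx hx1
  obtain ⟨a, haA, ha⟩ := hnear (∑ j, x j) (HC4.contr_sum c hc hcc hc1 x hx hx1)
  have hpin := HC4.pinch c hc hc1 (∑ j, x j - a)
  have hsub : ∑ j ∈ Bad, hs (c j * (∑ j, x j - a) * c j) ≤ ∑ j, hs (c j * (∑ j, x j - a) * c j) :=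
    Finset.sum_le_sum_of_subset_of_nonneg (Finset.subset_univ _) fun j _ _ => hs_nonneg _
  have hlow : ∑ j ∈ Bad, (K0 * ∑ s, hs (c j * u s * x j - x j * u s * c j) + τ * tr (c j)) ≤
      ∑ j ∈ Bad, hs (c j * (∑ j, x j - a) * c j) := by
    refine Finset.sum_le_sum fun j hj => ?_
    obtain ⟨z, hz⟩ := hmin a haA j
    have h1 := (hx0 j hj).2.2 z
    rw [← hxB j hj] at h1
    rw [Matrix.mul_sub, Matrix.sub_mul, HC4.corner_sum c hcc x hx j, hz]
    exact h1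
  have hsame : ∑ j, ∑ s, hs (c j * u s * x j - x j * u s * c j) =
      ∑ j ∈ Bad, ∑ s, hs (c j * u s * x j - x j * u s * c j) := by
    symm
    refine Finset.sum_subset (Finset.subset_univ _) fun j _ hj => ?_
    rw [hxN j hj]
    simp [hs_zero]
  rw [hsame] at hcorner
  rw [Finset.sum_add_distrib, ← Finset.mul_sum, ← Finset.mul_sum] at hlow
  have h5 : K0 * en u (∑ j, x j) ≤
      K0 * (∑ j ∈ Bad, ∑ s, hs (c j * u s * x j - x j * u s * c j) + 4 * ∑ j, en u (c j)) :=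
    mul_le_mul_of_nonneg_left hcorner hK0
  have h6 : K0 * ∑ j, en u (c j) ≤ K0 * E := mul_le_mul_of_nonneg_left hE hK0
  nlinarith

end Helper418HL
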