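import Pool.Agent.Helper418_HL.Defs

set_option autoImplicit false

namespace Helper418HL

open Matrix Filter Topology Pool.Agent.W661.RC Pool.Agent.W683.RC
open scoped ComplexOrder

namespace HC5

/-- the selection predicate -/
def Q (N : ℕ → ℕ) (w : ∀ n, Fin (N n) → ℝ) (F : ℕ → ∀ n, Fin (N n) → ℝ)
    (H : ∀ n, Fin (N n) → ℝ) (c : ℝ) (n m : ℕ) (j : Fin (N n)) : Prop :=
  c / 2 * w n j ≤ H n j ∧ ∀ m' ≤ m, F m' n j ≤ 1 / ((m : ℝ) + 1) * w n j

lemma exists_Q {𝒰 : Ultrafilter ℕ} (d : ℕ → ℝ)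
    (hd : ∀ n, 0 < d n) (N : ℕ → ℕ) (w : ∀ n, Fin (N n) → ℝ) (hw : ∀ n j, 0 < w n j)
    (hsum : ∀ n, ∑ j, w n j = d n) (F : ℕ → ∀ n, Fin (N n) → ℝ) (hF : ∀ m n j, 0 ≤ F m n j)
    (hlim : ∀ m, Tendsto (fun n => (∑ j, F m n j) / d n) 𝒰 (𝓝 0))
    (H : ∀ n, Fin (N n) → ℝ) (hH : ∀ n j, H n j ≤ 4 * w n j) (c : ℝ) (hc : 0 < c)
    (hHc : ∀ᶠ n in (𝒰 : Filter ℕ), c * d n ≤ ∑ j, H n j) (m : ℕ) :
    ∀ᶠ n in (𝒰 : Filter ℕ), ∃ j, Q N w F H c n m j := by
  set ε : ℝ := c / (16 * ((m : ℝ) + 1) ^ 2) with hε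
  have hm : (0 : ℝ) < (m : ℝ) + 1 := by positivity
  have hεpos : 0 < ε := by positivity
  have hall : ∀ᶠ n in (𝒰 : Filter ℕ), ∀ m' ∈ Finset.range (m + 1),
      (∑ j, F m' n j) / d n < ε := by
    rw [Filter.eventually_all_finset]
    intro m' _
    exact (hlim m').eventually (gt_mem_nhds hεpos)
  filter_upwards [hall, hHc] with n h1 h2
  by_contra hno
  push Not at hno
  have hj : ∀ j, H n j ≤ c / 2 * w n j + 4 * ((m : ℝ) + 1) *
      ∑ m' ∈ Finset.range (m + 1), F m' n j := by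
    intro j
    have hS : 0 ≤ ∑ m' ∈ Finset.range (m + 1), F m' n j :=
      Finset.sum_nonneg fun m' _ => hF m' n j
    have hwj := hw n j
    by_cases hcase : c / 2 * w n j ≤ H n j
    · have h3 := hno j
      unfold Q at h3
      push Not at h3
      obtain ⟨m', hm', h4⟩ := h3 hcase
      have h5 : F m' n j ≤ ∑ m' ∈ Finset.range (m + 1), F m' n j :=
        Finset.single_le_sum (f := fun m' => F m' n j) (fun i _ => hF i n j)
          (Finset.mem_range.2 (Nat.lt_succ_of_le hm'))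
      have h6 : w n j ≤ ((m : ℝ) + 1) * F m' n j := by
        have h7 := mul_lt_mul_of_pos_left h4 hm
        have h8 : ((m : ℝ) + 1) * (1 / ((m : ℝ) + 1) * w n j) = w n j := by
          field_simp
        linarith
      have h9 : ((m : ℝ) + 1) * F m' n j ≤
          ((m : ℝ) + 1) * ∑ m' ∈ Finset.range (m + 1), F m' n j :=
        mul_le_mul_of_nonneg_left h5 hm.le
      have h10 := hH n j
      have h11 : 0 ≤ c / 2 * w n j := by positivity
      linarith
    · push Not at hcase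
      have h11 : 0 ≤ 4 * ((m : ℝ) + 1) * ∑ m' ∈ Finset.range (m + 1), F m' n j := by positivity
      linarith
  have hsumH : ∑ j, H n j ≤ c / 2 * d n + 4 * ((m : ℝ) + 1) *
      ∑ m' ∈ Finset.range (m + 1), ∑ j, F m' n j := by
    calc ∑ j, H n j ≤ ∑ j, (c / 2 * w n j + 4 * ((m : ℝ) + 1) *
          ∑ m' ∈ Finset.range (m + 1), F m' n j) := Finset.sum_le_sum fun j _ => hj j
      _ = c / 2 * d n + 4 * ((m : ℝ) + 1) *
          ∑ m' ∈ Finset.range (m + 1), ∑ j, F m' n j := by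
        rw [Finset.sum_add_distrib, ← Finset.mul_sum, ← Finset.mul_sum, hsum, Finset.sum_comm]
  have hdn := hd n
  have hF2 : ∑ m' ∈ Finset.range (m + 1), ∑ j, F m' n j ≤ ((m : ℝ) + 1) * (ε * d n) := by
    calc ∑ m' ∈ Finset.range (m + 1), ∑ j, F m' n j
        ≤ ∑ m' ∈ Finset.range (m + 1), ε * d n := by
          refine Finset.sum_le_sum fun m' hm' => ?_
          have := h1 m' hm'
          rw [div_lt_iff₀ hdn] at this
          exact this.le
      _ = ((m : ℝ) + 1) * (ε * d n) := by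
          rw [Finset.sum_const, Finset.card_range, nsmul_eq_mul]
          push_cast
          ring
  have hε2 : 4 * ((m : ℝ) + 1) * (((m : ℝ) + 1) * (ε * d n)) = c / 4 * d n := by
    rw [hε]
    field_simp
    ring
  have h12 : 4 * ((m : ℝ) + 1) * ∑ m' ∈ Finset.range (m + 1), ∑ j, F m' n j ≤ c / 4 * d n := by
    rw [← hε2]
    exact mul_le_mul_of_nonneg_left hF2 (by positivity)
  have h13 : 0 < c * d n := by positivity
  nlinarith

end HC5

/-- TARGET -/
theorem selection {𝒰 : Ultrafilter ℕ} (hU : (𝒰 : Filter ℕ) ≤ cofinite) (d : ℕ → ℝ)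
    (hd : ∀ n, 0 < d n) (N : ℕ → ℕ) (w : ∀ n, Fin (N n) → ℝ) (hw : ∀ n j, 0 < w n j)
    (hsum : ∀ n, ∑ j, w n j = d n) (F : ℕ → ∀ n, Fin (N n) → ℝ) (hF : ∀ m n j, 0 ≤ F m n j)
    (hlim : ∀ m, Tendsto (fun n => (∑ j, F m n j) / d n) 𝒰 (𝓝 0))
    (H : ∀ n, Fin (N n) → ℝ) (hH : ∀ n j, H n j ≤ 4 * w n j) (c : ℝ) (hc : 0 < c)
    (hHc : ∀ᶠ n in (𝒰 : Filter ℕ), c * d n ≤ ∑ j, H n j) :
    ∃ j : ∀ n, Fin (N n), (∀ m, Tendsto (fun n => F m n (j n) / w n (j n)) 𝒰 (𝓝 0)) ∧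
      ∀ᶠ n in (𝒰 : Filter ℕ), c / 2 * w n (j n) ≤ H n (j n) := by
  classical
  have hQ := HC5.exists_Q d hd N w hw hsum F hF hlim H hH c hc hHc
  have hne : ∀ n, ∃ j : Fin (N n), True := by
    intro n
    by_contra hno
    push Not at hno
    have : ∑ j, w n j = 0 := Finset.sum_eq_zero fun j _ => (hno j).elim
    rw [hsum] at this
    exact (hd n).ne' this
  set M : ℕ → ℕ := fun n => Nat.findGreatest (fun m => ∃ j, HC5.Q N w F H c n m j) n with hM
  let j : ∀ n, Fin (N n) := fun n =>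
    if h : ∃ j, HC5.Q N w F H c n (M n) j then h.choose else (hne n).choose
  have hmain : ∀ m, ∀ᶠ n in (𝒰 : Filter ℕ), m ≤ M n ∧ HC5.Q N w F H c n (M n) (j n) := by
    intro m
    have h1 : ∀ᶠ n in (𝒰 : Filter ℕ), m ≤ n := by
      have h2 : ∀ᶠ n in (cofinite : Filter ℕ), m ≤ n := by
        rw [Nat.cofinite_eq_atTop]
        exact eventually_ge_atTop m
      exact hU h2
    filter_upwards [h1, hQ m] with n h1 h2
    have h3 : m ≤ M n := Nat.le_findGreatest h1 h2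
    have h4 : ∃ j, HC5.Q N w F H c n (M n) j := Nat.findGreatest_spec (P := fun m => ∃ j, HC5.Q N w F H c n m j) h1 h2
    refine ⟨h3, ?_⟩
    have h5 : j n = h4.choose := dif_pos h4
    rw [h5]
    exact h4.choose_spec
  refine ⟨j, ?_, ?_⟩
  · intro m'
    rw [Metric.tendsto_nhds]
    intro ε hε
    obtain ⟨k, hk⟩ := exists_nat_one_div_lt hε
    filter_upwards [hmain (max m' k)] with n hn
    obtain ⟨h1, h2, h3⟩ := hn
    have hwj := hw n (j n)
    have h4 := h3 m' (le_trans (le_max_left _ _) h1)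
    have h5 : F m' n (j n) / w n (j n) ≤ 1 / ((M n : ℝ) + 1) := by
      rw [div_le_iff₀ hwj]; exact h4
    have h6 : 1 / ((M n : ℝ) + 1) ≤ 1 / ((k : ℝ) + 1) := by
      apply one_div_le_one_div_of_le (by positivity)
      have : (k : ℝ) ≤ M n := by exact_mod_cast le_trans (le_max_right _ _) h1
      linarith
    have h7 : 0 ≤ F m' n (j n) / w n (j n) := div_nonneg (hF _ _ _) hwj.le
    rw [Real.dist_eq, sub_zero, abs_of_nonneg h7]
    linarith
  · filter_upwards [hmain 0] with n hn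
    exact hn.2.1

end Helper418HL

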