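import Pool.Agent.Helper418_HL.Defs

set_option autoImplicit false

namespace Helper418HL

open Matrix Filter Topology Pool.Agent.W661.RC Pool.Agent.W683.RC
open scoped ComplexOrder

namespace HC6

lemma exists_diag {d : ℕ} (c : Mt d) (hc : IsPr c) :
    ∃ (U : Mt d) (D : Fin d → ℂ), Uᴴ * U = 1 ∧ U * Uᴴ = 1 ∧ c = U * diagonal D * Uᴴ := by
  classical
  have hh : c.IsHermitian := hc.1
  have h1 : ((hh.eigenvectorUnitary : Mt d))ᴴ * (hh.eigenvectorUnitary : Mt d) = 1 :=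
    Unitary.coe_star_mul_self _
  refine ⟨hh.eigenvectorUnitary, fun i => ((hh.eigenvalues i : ℝ) : ℂ), h1, unit_symm h1, ?_⟩
  have h := hh.spectral_theorem
  rw [Unitary.conjStarAlgAut_apply] at h
  exact h

lemma exists_iso {d : ℕ} (c : Mt d) (hc : IsPr c) :
    ∃ (N : ℕ) (Θ : Matrix (Fin d) (Fin N) ℂ), Θᴴ * Θ = 1 ∧ Θ * Θᴴ = c := by
  classical
  obtain ⟨U, D, h1, h2, hcD⟩ := exists_diag c hc
  have hdiag : diagonal D = Uᴴ * c * U := by
    have e : Uᴴ * (U * diagonal D * Uᴴ) * U = (Uᴴ * U) * diagonal D * (Uᴴ * U) := by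
      simp only [Matrix.mul_assoc]
    rw [hcD, e, h1, Matrix.one_mul, Matrix.mul_one]
  have hDD : diagonal D * diagonal D = diagonal D := by
    have e : Uᴴ * c * U * (Uᴴ * c * U) = Uᴴ * (c * (U * Uᴴ) * c) * U := by
      simp only [Matrix.mul_assoc]
    rw [hdiag, e, h2, Matrix.mul_one, hc.2]
  have hD : ∀ i, D i = 0 ∨ D i = 1 := by
    intro i
    have := congrFun (congrFun hDD i) i
    rw [Matrix.diagonal_mul_diagonal, Matrix.diagonal_apply_eq, Matrix.diagonal_apply_eq] at this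
    have h3 : D i * (D i - 1) = 0 := by linear_combination this
    rcases mul_eq_zero.1 h3 with h | h
    · exact Or.inl h
    · exact Or.inr (sub_eq_zero.1 h)
  let e : Fin (Fintype.card {i : Fin d // D i = 1}) ≃ {i : Fin d // D i = 1} :=
    (Fintype.equivFin _).symm
  refine ⟨Fintype.card {i : Fin d // D i = 1}, U.submatrix id (fun j => (e j : Fin d)), ?_, ?_⟩
  · ext i j
    have h := congrFun (congrFun h1 (e i)) (e j)
    rw [Matrix.mul_apply] at h ⊢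
    simp only [Matrix.conjTranspose_apply, Matrix.submatrix_apply, id] at h ⊢
    rw [h, Matrix.one_apply, Matrix.one_apply]
    by_cases hij : i = j
    · rw [if_pos hij, if_pos (by rw [hij])]
    · rw [if_neg hij, if_neg (fun h' => hij (e.injective (Subtype.ext h')))]
  · ext i k
    rw [hcD, Matrix.mul_apply, Matrix.mul_apply]
    simp only [Matrix.conjTranspose_apply, Matrix.submatrix_apply, id, Matrix.mul_diagonal]
    rw [Equiv.sum_comp e (fun s : {i : Fin d // D i = 1} => U i s * star (U k s))]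
    have h5 : ∀ l : Fin d, U i l * D l * star (U k l) =
        if D l = 1 then U i l * star (U k l) else 0 := by
      intro l
      rcases hD l with h | h
      · rw [h]; simp
      · rw [h]; simp
    rw [Finset.sum_congr rfl fun l _ => h5 l, ← Finset.sum_filter]
    exact (Finset.sum_subtype (Finset.univ.filter fun l => D l = 1) (by simp)
      (fun l => U i l * star (U k l))).symm

end HC6

theorem corner_iso {d : ℕ} (c : Mt d) (hc : IsPr c) (hne : c ≠ 0) :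
    ∃ (N : ℕ) (Θ : Matrix (Fin d) (Fin N) ℂ), 0 < N ∧ (N : ℝ) = tr c ∧ Θᴴ * Θ = 1 ∧
      Θ * Θᴴ = c := by
  obtain ⟨N, Θ, h1, h2⟩ := HC6.exists_iso c hc
  have h3 : (N : ℝ) = tr c := by
    rw [← h2, tr_mul_comm, h1, tr_one]
  refine ⟨N, Θ, ?_, h3, h1, h2⟩
  have h4 : 0 < tr c := by
    rw [pr_tr_eq_hs hc]
    exact hs_pos hne
  rw [← h3] at h4
  exact_mod_cast h4

theorem corner_un (hUni : UniP) {d N : ℕ} (c : Mt d) (hc : IsPr c) (Θ : Matrix (Fin d) (Fin N) ℂ)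
    (h1 : Θᴴ * Θ = 1) (h2 : Θ * Θᴴ = c) (u : Mt d) (hu : uᴴ * u = 1) :
    ∃ u' : Mt N, u'ᴴ * u' = 1 ∧ hs (Θᴴ * u * Θ - u') ≤ hs (u * c - c * u) := by
  obtain ⟨v, hv⟩ := hUni N (Θᴴ * u * Θ)
  refine ⟨(v : Mt N), ?_, hv.trans ?_⟩
  · have h := v.2
    rw [Matrix.mem_unitaryGroup_iff'] at h
    exact h
  -- `yᴴ y - 1 = - Tᴴ T`
  have hcΘ : c * Θ = Θ := by rw [← h2, Matrix.mul_assoc, h1, Matrix.mul_one]
  set T : Matrix (Fin d) (Fin N) ℂ := (1 - c) * u * Θ with hT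
  have e1 : (Θᴴ * u * Θ)ᴴ * (Θᴴ * u * Θ) - 1 = -(Tᴴ * T) := by
    have ea : (Θᴴ * u * Θ)ᴴ * (Θᴴ * u * Θ) = Θᴴ * uᴴ * c * u * Θ := by
      rw [Matrix.conjTranspose_mul, Matrix.conjTranspose_mul, Matrix.conjTranspose_conjTranspose,
        ← h2]
      simp only [Matrix.mul_assoc]
    have eb : Tᴴ * T = Θᴴ * uᴴ * (1 - c) * u * Θ := by
      rw [hT, Matrix.conjTranspose_mul, Matrix.conjTranspose_mul, (pr_compl hc).1]
      have : Θᴴ * (uᴴ * (1 - c)) * ((1 - c) * u * Θ) = Θᴴ * uᴴ * ((1 - c) * (1 - c)) * u * Θ := by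
        simp only [Matrix.mul_assoc]
      rw [this, (pr_compl hc).2]
    have ec : Θᴴ * uᴴ * (1 - c) * u * Θ = Θᴴ * (uᴴ * u) * Θ - Θᴴ * uᴴ * c * u * Θ := by
      rw [Matrix.mul_sub, Matrix.sub_mul, Matrix.sub_mul, Matrix.mul_one]
      simp only [Matrix.mul_assoc]
    rw [ea, eb, ec, hu, Matrix.mul_one, h1]
    abel
  rw [e1, hs_neg]
  -- `T` is a contraction
  have hTle : Le (Tᴴ * T) 1 := by
    have h3 : (1 : Mt N) - Tᴴ * T = (Θᴴ * u * Θ)ᴴ * (Θᴴ * u * Θ) := by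
      rw [eq_comm, ← sub_eq_zero]
      have : (Θᴴ * u * Θ)ᴴ * (Θᴴ * u * Θ) - (1 - Tᴴ * T) =
          ((Θᴴ * u * Θ)ᴴ * (Θᴴ * u * Θ) - 1) + Tᴴ * T := by abel
      rw [this, e1]
      abel
    unfold Le
    rw [h3]
    exact Matrix.posSemidef_conjTranspose_mul_self _
  have hTTle : Le ((Tᴴ)ᴴ * Tᴴ) 1 := by
    rw [Matrix.conjTranspose_conjTranspose]
    exact contr_conj hTle
  refine (hs_mul_le hTTle T).trans ?_
  -- `hs T = hs ((1-c) u c)`
  have e4 : T * Θᴴ = (1 - c) * (u * c - c * u) := by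
    rw [hT, Matrix.mul_assoc, h2, Matrix.mul_sub, ← Matrix.mul_assoc (1 - c) c u,
      Matrix.sub_mul 1 c c, Matrix.one_mul, hc.2, sub_self, Matrix.zero_mul, sub_zero,
      Matrix.mul_assoc]
  have e5 : hs (T * Θᴴ) = hs T :=
    hs_mul_coisom (by rw [Matrix.conjTranspose_conjTranspose]; exact h1) T
  rw [← e5, e4]
  exact hs_pr_mul_le_self (pr_compl hc) _

end Helper418HL
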