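import Pool.Agent.Helper418_HL.HG
import Pool.Agent.Helper418_HL.HC1
import Pool.Agent.Helper418_HL.HC2
import Pool.Agent.Helper418_HL.HC4
import Pool.Agent.Helper418_HL.HC5
import Pool.Agent.Helper418_HL.HC6
import Pool.Agent.Helper418_HL.Defs

set_option autoImplicit false

namespace Helper418HL

open Matrix Filter Topology Pool.Agent.W661.RC Pool.Agent.W683.RC
open scoped ComplexOrder

/-! GIVEN (proved elsewhere) -/
namespace HC7

section corner

variable {d N l : ℕ} {c : Mt d} {Θ : Matrix (Fin d) (Fin N) ℂ}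

lemma hs_mul_theta (hc : IsPr c) (h2 : Θ * Θᴴ = c) (x : Matrix (Fin l) (Fin d) ℂ) :
    hs (x * Θ) = hs (x * c) := by
  rw [hs_eq_tr', hs_eq_tr', Matrix.conjTranspose_mul, Matrix.conjTranspose_mul, hc.1]
  have e1 : x * Θ * (Θᴴ * xᴴ) = x * (Θ * Θᴴ) * xᴴ := by simp only [Matrix.mul_assoc]
  have e2 : x * c * (c * xᴴ) = x * (c * c) * xᴴ := by simp only [Matrix.mul_assoc]
  rw [e1, e2, h2, hc.2]

lemma hs_thetaH_mul (hc : IsPr c) (h2 : Θ * Θᴴ = c) (x : Matrix (Fin d) (Fin l) ℂ) :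
    hs (Θᴴ * x) ≤ hs x := by
  refine hs_mul_le ?_ x
  rw [Matrix.conjTranspose_conjTranspose, h2]
  exact pr_le_one hc

/-- conjugation by the isometry -/
lemma hs_conj_theta (h1 : Θᴴ * Θ = 1) (x : Mt N) : hs (Θ * x * Θᴴ) = hs x := by
  rw [hs_mul_coisom (u := Θᴴ) (by rw [Matrix.conjTranspose_conjTranspose, h1]), hs_isom_mul h1]

lemma y_contr (hc : IsPr c) (h1 : Θᴴ * Θ = 1) (h2 : Θ * Θᴴ = c) {u : Mt d} (hu : uᴴ * u = 1) :
    Le ((Θᴴ * u * Θ)ᴴ * (Θᴴ * u * Θ)) 1 := by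
  have h3 := Le_conj (pr_le_one hc) (u * Θ)
  have e1 : (u * Θ)ᴴ * c * (u * Θ) = (Θᴴ * u * Θ)ᴴ * (Θᴴ * u * Θ) := by
    rw [Matrix.conjTranspose_mul, Matrix.conjTranspose_mul, Matrix.conjTranspose_mul,
      Matrix.conjTranspose_conjTranspose, ← h2]
    simp only [Matrix.mul_assoc]
  have e2 : (u * Θ)ᴴ * (1 : Mt d) * (u * Θ) = 1 := by
    rw [Matrix.conjTranspose_mul, Matrix.mul_one]
    calc Θᴴ * uᴴ * (u * Θ) = Θᴴ * (uᴴ * u) * Θ := by simp only [Matrix.mul_assoc]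
      _ = 1 := by rw [hu, Matrix.mul_one, h1]
  rw [e1, e2] at h3
  exact h3

lemma five (a b e f g : Mt N) : hs (a + b + (e + f) + g) ≤
    8 * (hs a + hs b + hs e + hs f + hs g) := by
  have h1 := hs_add_le (a + b + (e + f)) g
  have h2 := hs_add_le (a + b) (e + f)
  have h3 := hs_add_le a b
  have h4 := hs_add_le e f
  have h5 := hs_nonneg g
  linarith

lemma mul_bd (hc : IsPr c) (h1 : Θᴴ * Θ = 1) (h2 : Θ * Θᴴ = c) {u v p : Mt d}
    (hu : uᴴ * u = 1) (hv : vᴴ * v = 1) {u' v' p' : Mt N}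
    (hu' : u'ᴴ * u' = 1) (bu : hs (Θᴴ * u * Θ - u') ≤ hs (u * c - c * u))
    (bv : hs (Θᴴ * v * Θ - v') ≤ hs (v * c - c * v))
    (bp : hs (Θᴴ * p * Θ - p') ≤ hs (p * c - c * p)) :
    hs (p' - u' * v') ≤ 8 * (hs (p * c - c * p) + hs ((p - u * v) * c) + hs (v * c - c * v) +
      hs (u * c - c * u) + hs (v * c - c * v)) := by
  have e : p' - u' * v' = (p' - Θᴴ * p * Θ) + (Θᴴ * ((p - u * v) * Θ)) +
      ((Θᴴ * (u * ((1 - c) * v * Θ))) + (Θᴴ * u * Θ - u') * (Θᴴ * v * Θ)) +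
      u' * (Θᴴ * v * Θ - v') := by
    have e1 : Θᴴ * (u * ((1 - c) * v * Θ)) =
        Θᴴ * u * v * Θ - (Θᴴ * u * Θ) * (Θᴴ * v * Θ) := by
      rw [← h2]
      simp only [Matrix.sub_mul, Matrix.mul_sub, Matrix.one_mul, Matrix.mul_assoc]
    have e2 : Θᴴ * ((p - u * v) * Θ) = Θᴴ * p * Θ - Θᴴ * u * v * Θ := by
      simp only [Matrix.sub_mul, Matrix.mul_sub, Matrix.mul_assoc]
    rw [e1, e2, Matrix.sub_mul, Matrix.mul_sub]
    abel
  rw [e]
  refine (five _ _ _ _ _).trans ?_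
  have b1 : hs (p' - Θᴴ * p * Θ) ≤ hs (p * c - c * p) := by
    rw [hs_sub_comm]
    exact bp
  have b2 : hs (Θᴴ * ((p - u * v) * Θ)) ≤ hs ((p - u * v) * c) := by
    refine (hs_thetaH_mul hc h2 _).trans (le_of_eq ?_)
    exact hs_mul_theta hc h2 _
  have b3 : hs (Θᴴ * (u * ((1 - c) * v * Θ))) ≤ hs (v * c - c * v) := by
    refine (hs_thetaH_mul hc h2 _).trans ?_
    rw [hs_unit_mul hu, hs_mul_theta hc h2, hs_comm_pr' hv hc]
    linarith [hs_nonneg ((1 - c) * v * c)]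
  have b4 : hs ((Θᴴ * u * Θ - u') * (Θᴴ * v * Θ)) ≤ hs (u * c - c * u) :=
    (hs_mul_le_right (y_contr hc h1 h2 hv) _).trans bu
  have b5 : hs (u' * (Θᴴ * v * Θ - v')) ≤ hs (v * c - c * v) := by
    rw [hs_unit_mul hu']
    exact bv
  linarith

lemma erg_bd (hc : IsPr c) (h1 : Θᴴ * Θ = 1) (h2 : Θ * Θᴴ = c) {k : ℕ} (u : Fin k → Mt d)
    (u' : Fin k → Mt N) (bu : ∀ s, hs (Θᴴ * u s * Θ - u' s) ≤ hs (u s * c - c * u s))
    (K0 τ : ℝ) (hK0 : 0 ≤ K0)
    (hgood : ¬ ∃ x : Mt d, c * x * c = x ∧ Le (xᴴ * x) 1 ∧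
      ∀ z : ℂ, K0 * ∑ s, hs (c * u s * x - x * u s * c) + τ * tr c ≤ hs (x - z • c))
    (x : Mt N) (hx : Le (xᴴ * x) 1) :
    ∃ z : ℂ, hs (x - z • 1) ≤ 2 * K0 * en u' x +
      (8 * K0 * ∑ s, hs (u s * c - c * u s) + τ * tr c) := by
  have hcT : c * Θ = Θ := by rw [← h2, Matrix.mul_assoc, h1, Matrix.mul_one]
  have hTc : Θᴴ * c = Θᴴ := by rw [← h2, ← Matrix.mul_assoc, h1, Matrix.one_mul]
  have hx1 : c * (Θ * x * Θᴴ) * c = Θ * x * Θᴴ := by
    calc c * (Θ * x * Θᴴ) * c = (c * Θ) * x * (Θᴴ * c) := by simp only [Matrix.mul_assoc]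
      _ = Θ * x * Θᴴ := by rw [hcT, hTc]
  have hx2 : Le ((Θ * x * Θᴴ)ᴴ * (Θ * x * Θᴴ)) 1 := by
    have e1 : (Θ * x * Θᴴ)ᴴ * (Θ * x * Θᴴ) = Θ * (xᴴ * x) * Θᴴ := by
      rw [Matrix.conjTranspose_mul, Matrix.conjTranspose_mul, Matrix.conjTranspose_conjTranspose]
      calc Θ * (xᴴ * Θᴴ) * (Θ * x * Θᴴ) = Θ * xᴴ * (Θᴴ * Θ) * x * Θᴴ := by
            simp only [Matrix.mul_assoc]
        _ = Θ * (xᴴ * x) * Θᴴ := by
            rw [h1, Matrix.mul_one]
            simp only [Matrix.mul_assoc]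
    rw [e1]
    refine Le_trans (Le_conj' hx Θ) ?_
    rw [Matrix.mul_one, h2]
    exact pr_le_one hc
  push Not at hgood
  obtain ⟨z, hz⟩ := hgood _ hx1 hx2
  refine ⟨z, ?_⟩
  have e2 : Θ * x * Θᴴ - z • c = Θ * (x - z • 1) * Θᴴ := by
    rw [Matrix.mul_sub, Matrix.sub_mul, Matrix.mul_smul, Matrix.mul_one, Matrix.smul_mul, h2]
  rw [e2, hs_conj_theta h1] at hz
  have e3 : ∀ s, hs (c * u s * (Θ * x * Θᴴ) - (Θ * x * Θᴴ) * u s * c) ≤
      2 * hs (u' s * x - x * u' s) + 8 * hs (u s * c - c * u s) := by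
    intro s
    have e4 : c * u s * (Θ * x * Θᴴ) - (Θ * x * Θᴴ) * u s * c =
        Θ * ((Θᴴ * u s * Θ) * x - x * (Θᴴ * u s * Θ)) * Θᴴ := by
      rw [Matrix.mul_sub, Matrix.sub_mul, ← h2]
      simp only [Matrix.mul_assoc]
    rw [e4, hs_conj_theta h1]
    have e5 : (Θᴴ * u s * Θ) * x - x * (Θᴴ * u s * Θ) = (u' s * x - x * u' s) +
        ((Θᴴ * u s * Θ - u' s) * x - x * (Θᴴ * u s * Θ - u' s)) := by
      rw [Matrix.mul_sub, Matrix.sub_mul]
      abel
    rw [e5]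
    have b1 := hs_add_le (u' s * x - x * u' s)
      ((Θᴴ * u s * Θ - u' s) * x - x * (Θᴴ * u s * Θ - u' s))
    have b2 := hs_sub_le ((Θᴴ * u s * Θ - u' s) * x) (x * (Θᴴ * u s * Θ - u' s))
    have b3 := hs_mul_le_right hx (Θᴴ * u s * Θ - u' s)
    have b4 := hs_mul_le hx (Θᴴ * u s * Θ - u' s)
    have b5 := bu s
    linarith
  have e6 : ∑ s, hs (c * u s * (Θ * x * Θᴴ) - (Θ * x * Θᴴ) * u s * c) ≤
      2 * en u' x + 8 * ∑ s, hs (u s * c - c * u s) := by
    unfold en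
    rw [Finset.mul_sum, Finset.mul_sum, ← Finset.sum_add_distrib]
    exact Finset.sum_le_sum fun s _ => e3 s
  have e7 := mul_le_mul_of_nonneg_left e6 hK0
  linarith

lemma x0_bd (hc : IsPr c) (h1 : Θᴴ * Θ = 1) (h2 : Θ * Θᴴ = c) {u : Mt d} (hu : uᴴ * u = 1)
    {u' : Mt N} (bu : hs (Θᴴ * u * Θ - u') ≤ hs (u * c - c * u)) :
    1 / 2 * hs ((u - 1) * c) - 2 * hs (u * c - c * u) ≤ hs (u' - 1) := by
  have b1 := hs_pyth_left hc ((u - 1) * c)
  have e1 : (1 - c) * ((u - 1) * c) = (1 - c) * u * c := by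
    have : (1 - c) * c = 0 := by rw [Matrix.sub_mul, Matrix.one_mul, hc.2, sub_self]
    rw [Matrix.sub_mul u, Matrix.one_mul, Matrix.mul_sub, this, sub_zero, Matrix.mul_assoc]
  have e2 : c * ((u - 1) * c) = Θ * (Θᴴ * u * Θ - 1) * Θᴴ := by
    have e3 : c * ((u - 1) * c) = c * u * c - c * c := by
      rw [Matrix.sub_mul, Matrix.one_mul, Matrix.mul_sub, Matrix.mul_assoc]
    rw [e3, hc.2, Matrix.mul_sub, Matrix.sub_mul, Matrix.mul_one, h2]
    congr 1
    rw [← h2]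
    simp only [Matrix.mul_assoc]
  rw [e1, e2, hs_conj_theta h1] at b1
  have b2 := hs_comm_pr' hu hc
  have b3 : hs (Θᴴ * u * Θ - 1) ≤ 2 * hs (u' - 1) + 2 * hs (Θᴴ * u * Θ - u') := by
    have e4 : Θᴴ * u * Θ - 1 = (u' - 1) + (Θᴴ * u * Θ - u') := by abel
    rw [e4]
    exact hs_add_le _ _
  have b4 := hs_nonneg (u * c - c * u)
  have b5 := hs_nonneg ((1 - c) * u * c)
  linarith

end corner

section sums

variable {d N : ℕ} {c : Fin N → Mt d}

lemma sum_hs_mul (hc : ∀ j, IsPr (c j)) (hc1 : ∑ j, c j = 1) (x : Mt d) :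
    ∑ j, hs (x * c j) = hs x := by
  have h : ∀ j, hs (x * c j) = tr (x * c j * xᴴ) := by
    intro j
    rw [hs_eq_tr', Matrix.conjTranspose_mul, (hc j).1]
    have e : x * c j * (c j * xᴴ) = x * (c j * c j) * xᴴ := by simp only [Matrix.mul_assoc]
    rw [e, (hc j).2]
  simp only [h]
  rw [← tr_sum, ← Matrix.sum_mul, ← Matrix.mul_sum, hc1, Matrix.mul_one, ← hs_eq_tr']

lemma sign_un (hc : ∀ j, IsPr (c j)) (hcc : ∀ i j, i ≠ j → c i * c j = 0)
    (hc1 : ∑ j, c j = 1) (σ : Fin N → ℂ) (hσ : ∀ j, σ j = 1 ∨ σ j = -1) :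
    (∑ j, σ j • c j)ᴴ * (∑ j, σ j • c j) = 1 := by
  have h1 : (∑ j, σ j • c j)ᴴ = ∑ j, σ j • c j := by
    rw [Matrix.conjTranspose_sum]
    refine Finset.sum_congr rfl fun j _ => ?_
    rw [Matrix.conjTranspose_smul, (hc j).1]
    rcases hσ j with h | h
    · rw [h, star_one]
    · rw [h, star_neg, star_one]
  rw [h1, Matrix.sum_mul]
  have h2 : ∀ i, σ i • c i * ∑ j, σ j • c j = c i := by
    intro i
    rw [Matrix.mul_sum, Finset.sum_eq_single i]
    · rw [Matrix.smul_mul, Matrix.mul_smul, (hc i).2, smul_smul]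
      rcases hσ i with h | h
      · rw [h, one_mul, one_smul]
      · rw [h, neg_one_mul, neg_neg, one_smul]
    · intro j _ hj
      rw [Matrix.smul_mul, Matrix.mul_smul, hcc i j hj.symm, smul_zero, smul_zero]
    · intro h
      exact absurd (Finset.mem_univ i) h
  simp only [h2]
  exact hc1

end sums

/-- tendsto to zero from upper bounds -/
lemma tendsto_zero_of_bd {𝒰 : Ultrafilter ℕ} {f : ℕ → ℝ} (h0 : ∀ n, 0 ≤ f n) {C : ℝ} (hC : 0 ≤ C)
    (h : ∀ t : ℝ, 0 < t → ∀ᶠ n in (𝒰 : Filter ℕ), f n ≤ C * t) : Tendsto f 𝒰 (𝓝 0) := by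
  rw [tendsto_order]
  constructor
  · intro a ha
    exact Filter.Eventually.of_forall fun n => ha.trans_le (h0 n)
  · intro a ha
    have hp : 0 < a / (C + 1) := by positivity
    filter_upwards [h _ hp] with n hn
    refine hn.trans_lt ?_
    rw [mul_div_assoc', div_lt_iff₀ (by linarith)]
    nlinarith

end HC7

/-- TARGET -/
theorem corner_thm (hUni : UniP) {G : Type} [Group G] [Countable G] {𝒰 : Ultrafilter ℕ}
    (hU : (𝒰 : Filter ℕ) ≤ cofinite) (M : Mdl G 𝒰) {k : ℕ} (γ : Fin k → G)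
    (hgen : Subgroup.closure (Set.range γ) = ⊤) {A : ∀ n, StarSubalgebra ℂ (Mt (M.d n))} {K0 : ℝ}
    {ε : ℕ → ℝ} (hC : Ctl M γ A K0 ε) (x0 : G) (c0 : ℝ) (hc0 : 0 < c0)
    (hx0 : ∀ᶠ n in (𝒰 : Filter ℕ), c0 * M.d n ≤ hs (M.U x0 n - 1)) :
    ∃ (M' : Mdl G 𝒰) (K0' : ℝ) (ε' : ℕ → ℝ), Erg M' γ K0' ε' ∧
      ∀ᶠ n in (𝒰 : Filter ℕ), c0 / 8 * M'.d n ≤ hs (M'.U x0 n - 1) := by
  classical
  have hdpos : ∀ n, (0 : ℝ) < M.d n := fun n => by exact_mod_cast M.pos n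
  choose N c hcA hcp hcne hcc hc1 hcmin using fun n => min_proj (A n)
  have hw : ∀ n j, 0 < tr (c n j) := fun n j =>
    lt_of_le_of_ne (pr_tr_nonneg (hcp n j)) fun h => hcne n j ((pr_eq_zero_iff (hcp n j)).2 h.symm)
  have hsum : ∀ n, ∑ j, tr (c n j) = M.d n := by
    intro n
    rw [← tr_sum, hc1 n, tr_one]
  -- commutators with the minimal projections
  have hcom : ∀ g : G, Tendsto (fun n => (∑ j, hs (M.U g n * c n j - c n j * M.U g n)) / M.d n) 𝒰
      (𝓝 0) := by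
    intro g
    obtain ⟨C, hC0, hgl⟩ := gen_lin M (Set.range γ) g (hgen ▸ Subgroup.mem_top g)
    refine HC7.tendsto_zero_of_bd (fun n => div_nonneg
      (Finset.sum_nonneg fun _ _ => hs_nonneg _) (hdpos n).le) hC0 fun t ht => ?_
    have h1 := hgl (fun n => {x | x ∈ A n ∧ Le (xᴴ * x) 1}) (fun n x hx => hx.2) t ht ?_
    · filter_upwards [h1] with n hn
      rw [div_le_iff₀ (hdpos n)]
      have h2 := en_sum_le (fun _ : Fin 1 => M.U g n) (c n) (C * t * M.d n) ?_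
      · simpa [en] using h2
      · intro σ hσ
        have h3 := hn (∑ j, σ j • c n j)
          ⟨sum_mem fun j _ => SMulMemClass.smul_mem _ (hcA n j), by
            rw [HC7.sign_un (hcp n) (hcc n) (hc1 n) σ hσ]
            exact Le_refl _⟩
        simpa [en] using h3
    · rintro _ ⟨s, rfl⟩
      have hε : ∀ᶠ n in (𝒰 : Filter ℕ), ε n < t := hC.lim.eventually (gt_mem_nhds ht)
      filter_upwards [hC.com, hε] with n h2 h3 x hx
      have h4 := h2 x hx.1 hx.2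
      have h5 : hs (M.U (γ s) n * x - x * M.U (γ s) n) ≤ M.e γ n x :=
        Finset.single_le_sum (f := fun s => hs (M.U (γ s) n * x - x * M.U (γ s) n))
          (fun _ _ => hs_nonneg _) (Finset.mem_univ s)
      have h6 : ε n * M.d n ≤ t * M.d n := mul_le_mul_of_nonneg_right h3.le (hdpos n).le
      linarith
  -- the energies
  have hEn : ∀ᶠ n in (𝒰 : Filter ℕ), ∑ j, en (fun s => M.U (γ s) n) (c n j) ≤ ε n * M.d n := by
    filter_upwards [hC.com] with n hn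
    refine en_sum_le _ (c n) _ fun σ hσ => hn _ (sum_mem fun j _ =>
      SMulMemClass.smul_mem _ (hcA n j)) ?_
    rw [HC7.sign_un (hcp n) (hcc n) (hc1 n) σ hσ]
    exact Le_refl _
  -- the bad indices
  let bad : ℕ → ∀ n, Fin (N n) → Prop := fun m n j => ∃ x : Mt (M.d n), c n j * x * c n j = x ∧
    Le (xᴴ * x) 1 ∧ ∀ z : ℂ, K0 * ∑ s, hs (c n j * M.U (γ s) n * x - x * M.U (γ s) n * c n j) +
      (1 / ((m : ℝ) + 1)) * tr (c n j) ≤ hs (x - z • c n j)
  have hbad : ∀ m, Tendsto (fun n => (∑ j, if bad m n j then tr (c n j) else 0) / M.d n) 𝒰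
      (𝓝 0) := by
    intro m
    have hm : (0 : ℝ) < m + 1 := by positivity
    have hK : 0 ≤ (m + 1 : ℝ) * (4 * K0 + 1) :=
      mul_nonneg hm.le (by linarith [hC.K0pos])
    refine HC7.tendsto_zero_of_bd (fun n => div_nonneg
      (Finset.sum_nonneg fun j _ => ?_) (hdpos n).le) hK fun t ht => ?_
    · split_ifs
      · exact (hw n j).le
      · exact le_rfl
    · have hε : ∀ᶠ n in (𝒰 : Filter ℕ), ε n < t := hC.lim.eventually (gt_mem_nhds ht)
      filter_upwards [hEn, hC.near, hε] with n h1 h2 h3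
      have h4 := typical_erg (fun s => M.U (γ s) n) (fun s => M.un (γ s) n) (A n) K0 (ε n)
        (ε n * M.d n) hC.K0pos (fun x hx => by
          obtain ⟨a, ha, _, hxa⟩ := h2 x hx
          exact ⟨a, ha, hxa⟩) (c n) (hcp n) (hcc n) (hc1 n) (hcmin n) h1 (1 / ((m : ℝ) + 1))
        (by positivity) (Finset.univ.filter fun j => bad m n j)
        (fun j hj => (Finset.mem_filter.1 hj).2)
      rw [Finset.sum_filter] at h4
      rw [div_le_iff₀ (hdpos n)]
      have h5 : ε n * M.d n ≤ t * M.d n := mul_le_mul_of_nonneg_right h3.le (hdpos n).le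
      have h6 : (∑ j, if bad m n j then tr (c n j) else 0) =
          (m + 1) * (1 / ((m : ℝ) + 1) * ∑ j, if bad m n j then tr (c n j) else 0) := by
        field_simp
      rw [h6]
      have h7 : (4 * K0 + 1) * (ε n * M.d n) ≤ (4 * K0 + 1) * (t * M.d n) :=
        mul_le_mul_of_nonneg_left h5 (by linarith [hC.K0pos])
      calc (m + 1) * (1 / ((m : ℝ) + 1) * ∑ j, if bad m n j then tr (c n j) else 0)
          ≤ (m + 1) * (4 * K0 * (ε n * M.d n) + ε n * M.d n) :=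
            mul_le_mul_of_nonneg_left h4 hm.le
        _ ≤ (m + 1) * ((4 * K0 + 1) * (t * M.d n)) :=
            mul_le_mul_of_nonneg_left (by linarith) hm.le
        _ = (m + 1) * (4 * K0 + 1) * t * M.d n := by ring
  -- the selection
  obtain ⟨f, hf⟩ := exists_surjective_nat ((G × G) ⊕ (G ⊕ ℕ))
  let Fι : ((G × G) ⊕ (G ⊕ ℕ)) → ∀ n, Fin (N n) → ℝ := fun i n j =>
    Sum.elim (fun p : G × G => hs ((M.U (p.1 * p.2) n - M.U p.1 n * M.U p.2 n) * c n j))
      (Sum.elim (fun g : G => hs (M.U g n * c n j - c n j * M.U g n))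
        (fun m : ℕ => if bad m n j then tr (c n j) else 0)) i
  have hFι0 : ∀ i n j, 0 ≤ Fι i n j := by
    rintro (p | g | m) n j
    · exact hs_nonneg ((M.U (p.1 * p.2) n - M.U p.1 n * M.U p.2 n) * c n j)
    · exact hs_nonneg (M.U g n * c n j - c n j * M.U g n)
    · change 0 ≤ if bad m n j then tr (c n j) else 0
      split_ifs
      · exact (hw n j).le
      · exact le_rfl
  have hFιlim : ∀ i, Tendsto (fun n => (∑ j, Fι i n j) / M.d n) 𝒰 (𝓝 0) := by
    rintro (p | g | m)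
    · have h1 := M.mul p.1 p.2
      refine h1.congr fun n => ?_
      rw [← HC7.sum_hs_mul (hcp n) (hc1 n) (M.U (p.1 * p.2) n - M.U p.1 n * M.U p.2 n)]
      rfl
    · exact hcom g
    · exact hbad m
  obtain ⟨j, hj, hjH⟩ := selection hU (fun n => M.d n) hdpos N (fun n j => tr (c n j)) hw hsum
    (fun m => Fι (f m)) (fun m => hFι0 (f m)) (fun m => hFιlim (f m))
    (fun n j => hs ((M.U x0 n - 1) * c n j)) (fun n j => by
      rw [Matrix.sub_mul, Matrix.one_mul]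
      have h1 := hs_sub_le (M.U x0 n * c n j) (c n j)
      rw [hs_unit_mul (M.un x0 n), ← pr_tr_eq_hs (hcp n j)] at h1
      linarith) c0 hc0 (by
      filter_upwards [hx0] with n hn
      rw [HC7.sum_hs_mul (hcp n) (hc1 n)]
      exact hn)
  have hjι : ∀ i, Tendsto (fun n => Fι i n (j n) / tr (c n (j n))) 𝒰 (𝓝 0) := by
    intro i
    obtain ⟨m, rfl⟩ := hf i
    exact hj m
  -- the corner
  choose D Θ hD hDtr hT1 hT2 using fun n => corner_iso (c n (j n)) (hcp n (j n)) (hcne n (j n))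
  choose V hVu hVb using fun (g : G) n => corner_un hUni (c n (j n)) (hcp n (j n)) (Θ n) (hT1 n)
    (hT2 n) (M.U g n) (M.un g n)
  have hDpos : ∀ n, (0 : ℝ) < D n := fun n => by exact_mod_cast hD n
  have hα : ∀ g : G, Tendsto (fun n => hs (M.U g n * c n (j n) - c n (j n) * M.U g n) / D n) 𝒰
      (𝓝 0) := by
    intro g
    refine (hjι (Sum.inr (Sum.inl g))).congr fun n => ?_
    rw [hDtr n]
    rfl
  have hβ : ∀ g h : G, Tendsto (fun n => hs ((M.U (g * h) n - M.U g n * M.U h n) * c n (j n)) /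
      D n) 𝒰 (𝓝 0) := by
    intro g h
    refine (hjι (Sum.inl (g, h))).congr fun n => ?_
    rw [hDtr n]
    rfl
  let M' : Mdl G 𝒰 :=
    { d := D
      pos := hD
      U := V
      un := hVu
      mul := by
        intro g h
        refine squeeze_zero (fun n => div_nonneg (hs_nonneg _) (hDpos n).le) (fun n => ?_)
          (g := fun n => 8 * (hs (M.U (g * h) n * c n (j n) - c n (j n) * M.U (g * h) n) / D n +
            hs ((M.U (g * h) n - M.U g n * M.U h n) * c n (j n)) / D n +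
            hs (M.U h n * c n (j n) - c n (j n) * M.U h n) / D n +
            hs (M.U g n * c n (j n) - c n (j n) * M.U g n) / D n +
            hs (M.U h n * c n (j n) - c n (j n) * M.U h n) / D n)) ?_
        · have h1 := HC7.mul_bd (hcp n (j n)) (hT1 n) (hT2 n) (M.un g n) (M.un h n) (hVu g n)
            (hVb g n) (hVb h n) (hVb (g * h) n)
          have h2 := div_le_div_of_nonneg_right h1 (hDpos n).le
          refine h2.trans (le_of_eq ?_)
          ring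
        · have h3 := (((((hα (g * h)).add (hβ g h)).add (hα h)).add (hα g)).add (hα h)).const_mul
            (8 : ℝ)
          simpa using h3 }
  -- ergodicity
  let T : ℕ → Set ℝ := fun n => {τ | 0 ≤ τ ∧ ∀ x : Mt (D n), Le (xᴴ * x) 1 →
    ∃ z : ℂ, hs (x - z • 1) ≤ 2 * K0 * M'.e γ n x + τ * D n}
  have hT0 : ∀ n, (1 : ℝ) ∈ T n := by
    intro n
    refine ⟨zero_le_one, fun x hx => ⟨0, ?_⟩⟩
    rw [zero_smul, sub_zero, one_mul]
    have h1 : hs x ≤ D n := by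
      rw [hs_eq_tr, ← tr_one (D n)]
      exact Le_tr hx
    have h2 : 0 ≤ 2 * K0 * M'.e γ n x :=
      mul_nonneg (by linarith [hC.K0pos]) (en_nonneg _ _)
    linarith
  have hTinf : Tendsto (fun n => sInf (T n)) 𝒰 (𝓝 0) := by
    have hδ : Tendsto (fun n => ∑ s, hs (M.U (γ s) n * c n (j n) - c n (j n) * M.U (γ s) n) / D n)
        𝒰 (𝓝 0) := by
      have h1 := tendsto_finsetSum (Finset.univ : Finset (Fin k)) fun s _ => hα (γ s)
      simpa using h1
    refine HC7.tendsto_zero_of_bd (C := 8 * K0 + 1)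
      (fun n => Real.sInf_nonneg fun x hx => hx.1) (by linarith [hC.K0pos]) fun t ht => ?_
    obtain ⟨m, hm⟩ := exists_nat_one_div_lt ht
    have h2 : ∀ᶠ n in (𝒰 : Filter ℕ), ¬ bad m n (j n) := by
      have h3 := (hjι (Sum.inr (Sum.inr m))).eventually (gt_mem_nhds (zero_lt_one' ℝ))
      filter_upwards [h3] with n hn hb
      have h4 : Fι (Sum.inr (Sum.inr m)) n (j n) = tr (c n (j n)) := by
        change (if bad m n (j n) then tr (c n (j n)) else 0) = _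
        rw [if_pos hb]
      rw [h4, div_self (hw n (j n)).ne'] at hn
      exact lt_irrefl _ hn
    have h3 := hδ.eventually (gt_mem_nhds ht)
    filter_upwards [h2, h3] with n hn1 hn2
    refine (csInf_le ⟨0, fun x hx => hx.1⟩ (?_ : 8 * K0 * t + t ∈ T n)).trans (by linarith)
    refine ⟨by nlinarith [hC.K0pos], fun x hx => ?_⟩
    obtain ⟨z, hz⟩ := HC7.erg_bd (hcp n (j n)) (hT1 n) (hT2 n) (fun s => M.U (γ s) n)
      (fun s => V (γ s) n) (fun s => hVb (γ s) n) K0 (1 / ((m : ℝ) + 1)) hC.K0pos hn1 x hx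
    refine ⟨z, hz.trans ?_⟩
    have h4 : ∑ s, hs (M.U (γ s) n * c n (j n) - c n (j n) * M.U (γ s) n) ≤ t * D n := by
      rw [← Finset.sum_div, div_lt_iff₀ (hDpos n)] at hn2
      exact hn2.le
    have h5 : 1 / ((m : ℝ) + 1) * tr (c n (j n)) ≤ t * D n := by
      rw [← hDtr n]
      exact mul_le_mul_of_nonneg_right hm.le (hDpos n).le
    have h6 := mul_le_mul_of_nonneg_left h4 (show 0 ≤ 8 * K0 by linarith [hC.K0pos])
    have h7 : M'.e γ n x = en (fun s => V (γ s) n) x := rfl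
    rw [h7]
    linarith
  refine ⟨M', 2 * K0, fun n => sInf (T n) + 1 / ((n : ℝ) + 1), ⟨by linarith [hC.K0pos], ?_, ?_⟩, ?_⟩
  · have h1 : Tendsto (fun n : ℕ => 1 / ((n : ℝ) + 1)) 𝒰 (𝓝 0) := by
      refine tendsto_one_div_add_atTop_nhds_zero_nat.mono_left ?_
      rw [← Nat.cofinite_eq_atTop]
      exact hU
    simpa using hTinf.add h1
  · refine Filter.Eventually.of_forall fun n x hx => ?_
    have hpos : (0 : ℝ) < 1 / ((n : ℝ) + 1) := by positivity
    obtain ⟨τ, ⟨hτ0, hτ1⟩, hτ⟩ := exists_lt_of_csInf_lt ⟨1, hT0 n⟩ (lt_add_of_pos_right _ hpos)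
    obtain ⟨z, hz⟩ := hτ1 x hx
    refine ⟨z, hz.trans ?_⟩
    have h1 : τ * D n ≤ (sInf (T n) + 1 / ((n : ℝ) + 1)) * D n :=
      mul_le_mul_of_nonneg_right hτ.le (hDpos n).le
    change _ ≤ 2 * K0 * M'.e γ n x + (sInf (T n) + 1 / ((n : ℝ) + 1)) * D n
    linarith
  · have h1 := (hα x0).eventually (gt_mem_nhds (show (0 : ℝ) < c0 / 16 by positivity))
    filter_upwards [hjH, h1] with n hn1 hn2
    have h2 := HC7.x0_bd (hcp n (j n)) (hT1 n) (hT2 n) (M.un x0 n) (hVb x0 n)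
    rw [div_lt_iff₀ (hDpos n)] at hn2
    rw [← hDtr n] at hn1
    change c0 / 8 * (D n : ℝ) ≤ hs (V x0 n - 1)
    linarith

end Helper418HL
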