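import Pool.Agent.Helper418_HL.Defs

set_option autoImplicit false

namespace Helper418HL

open Matrix Filter Topology Pool.Agent.W661.RC Pool.Agent.W683.RC
open scoped ComplexOrder

/-- normalised Hilbert-Schmidt norm -/
noncomputable def nrm2 {n : ℕ} (X : Matrix (Fin n) (Fin n) ℂ) : ℝ :=
  Real.sqrt ((1 / (n : ℝ)) * (Matrix.trace (Xᴴ * X)).re)

/-- hyperlinear groups, as in MP_c8f1ce_al -/
def IsHyperlinear (G : Type*) [Group G] : Prop :=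
  ∀ A : Finset G, (1 : G) ∈ A → ∀ ε : ℝ, 0 < ε →
    ∃ n : ℕ, 1 ≤ n ∧ ∃ φ : {a : G // a ∈ A} → Matrix.unitaryGroup (Fin n) ℂ,
      (∀ h : (1 : G) ∈ A, φ ⟨1, h⟩ = 1) ∧
      (∀ (a b : {a : G // a ∈ A}) (hab : (a : G) * b ∈ A),
        nrm2 ((φ ⟨a * b, hab⟩ : Matrix (Fin n) (Fin n) ℂ) -
          (φ a : Matrix (Fin n) (Fin n) ℂ) * (φ b : Matrix (Fin n) (Fin n) ℂ)) < ε) ∧
      ∀ a : {a : G // a ∈ A}, (a : G) ≠ 1 → 1 ≤ nrm2 ((φ a : Matrix (Fin n) (Fin n) ℂ) - 1)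

namespace HL1

lemma nrm2_eq {n : ℕ} (X : Matrix (Fin n) (Fin n) ℂ) : nrm2 X = Real.sqrt (hs X / n) := by
  unfold nrm2
  rw [← hs_eq]
  congr 1
  ring

lemma hs_div_nonneg {n : ℕ} (X : Matrix (Fin n) (Fin n) ℂ) : 0 ≤ hs X / n :=
  div_nonneg (hs_nonneg X) (Nat.cast_nonneg n)

lemma le_of_one_le {n : ℕ} (hn : 1 ≤ n) {X : Matrix (Fin n) (Fin n) ℂ} (h : 1 ≤ nrm2 X) :
    (n : ℝ) ≤ hs X := by
  rw [nrm2_eq] at h
  have hn' : (0 : ℝ) < n := by exact_mod_cast hn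
  have h1 : (1 : ℝ) ≤ hs X / n := by
    have := Real.one_le_sqrt.1 h
    exact this
  rwa [le_div_iff₀ hn', one_mul] at h1

lemma div_lt_of_lt {n : ℕ} {X : Matrix (Fin n) (Fin n) ℂ} {ε : ℝ} (hε : 0 < ε)
    (h : nrm2 X < ε) : hs X / n < ε ^ 2 := by
  rw [nrm2_eq] at h
  exact (Real.sqrt_lt' hε).1 h

lemma unit_cond {n : ℕ} (u : Matrix.unitaryGroup (Fin n) ℂ) :
    ((u : Matrix (Fin n) (Fin n) ℂ))ᴴ * (u : Matrix (Fin n) (Fin n) ℂ) = 1 := by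
  have h := Matrix.mem_unitaryGroup_iff'.1 u.2
  simpa [Matrix.star_eq_conjTranspose] using h

end HL1

/-- TARGET -/
theorem mdl_of_hyperlinear {G : Type} [Group G] [Countable G] (h : IsHyperlinear G)
    {𝒰 : Ultrafilter ℕ} (hU : (𝒰 : Filter ℕ) ≤ cofinite) :
    ∃ M : Mdl G 𝒰, ∀ g : G, g ≠ 1 → ∀ᶠ n in (𝒰 : Filter ℕ), (M.d n : ℝ) ≤ hs (M.U g n - 1) := by
  classical
  obtain ⟨f, hf⟩ := exists_surjective_nat G
  let A : ℕ → Finset G := fun n => insert 1 ((Finset.range n).image f)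
  have hA1 : ∀ n, (1 : G) ∈ A n := fun n => Finset.mem_insert_self _ _
  have hAg : ∀ g : G, ∀ᶠ n in (𝒰 : Filter ℕ), g ∈ A n := by
    intro g
    obtain ⟨k, rfl⟩ := hf g
    have h1 : ∀ᶠ n in (cofinite : Filter ℕ), k < n := by
      rw [Nat.cofinite_eq_atTop]
      exact eventually_gt_atTop k
    filter_upwards [hU h1] with n hn
    exact Finset.mem_insert_of_mem (Finset.mem_image_of_mem f (Finset.mem_range.2 hn))
  have hε : ∀ n : ℕ, (0 : ℝ) < 1 / ((n : ℝ) + 1) := fun n => by positivity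
  choose m hm φ h1 h2 h3 using fun n => h (A n) (hA1 n) (1 / ((n : ℝ) + 1)) (hε n)
  let U : G → ∀ n, Mt (m n) := fun g n =>
    if hg : g ∈ A n then (φ n ⟨g, hg⟩ : Matrix (Fin (m n)) (Fin (m n)) ℂ) else 1
  have hUg : ∀ g n (hg : g ∈ A n), U g n = (φ n ⟨g, hg⟩ : Matrix (Fin (m n)) (Fin (m n)) ℂ) := by
    intro g n hg
    exact dif_pos hg
  have hun : ∀ g n, (U g n)ᴴ * U g n = 1 := by
    intro g n
    by_cases hg : g ∈ A n
    · rw [hUg g n hg]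
      exact HL1.unit_cond _
    · have : U g n = 1 := dif_neg hg
      rw [this]
      simp
  have hmul : ∀ g k, Tendsto (fun n => hs (U (g * k) n - U g n * U k n) / m n) 𝒰 (𝓝 0) := by
    intro g k
    have hlim : Tendsto (fun n : ℕ => (1 / ((n : ℝ) + 1)) ^ 2) 𝒰 (𝓝 0) := by
      have h0 : Tendsto (fun n : ℕ => 1 / ((n : ℝ) + 1)) atTop (𝓝 0) :=
        tendsto_one_div_add_atTop_nhds_zero_nat
      have h00 := (h0.pow 2).mono_left (by rw [← Nat.cofinite_eq_atTop]; exact hU :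
        (𝒰 : Filter ℕ) ≤ atTop)
      simpa using h00
    refine tendsto_of_tendsto_of_tendsto_of_le_of_le' tendsto_const_nhds hlim
      (Eventually.of_forall fun n => HL1.hs_div_nonneg _) ?_
    filter_upwards [hAg g, hAg k, hAg (g * k)] with n hg hk hgk
    have h4 := h2 n ⟨g, hg⟩ ⟨k, hk⟩ hgk
    rw [hUg g n hg, hUg k n hk, hUg (g * k) n hgk]
    exact (HL1.div_lt_of_lt (hε n) h4).le
  refine ⟨⟨m, fun n => hm n, U, hun, hmul⟩, ?_⟩
  intro g hg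
  filter_upwards [hAg g] with n hn
  show (m n : ℝ) ≤ hs (U g n - 1)
  rw [hUg g n hn]
  exact HL1.le_of_one_le (hm n) (h3 n ⟨g, hn⟩ hg)

end Helper418HL
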