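import Pool.Agent.Helper418_HL.Defs

set_option autoImplicit false

namespace Helper418HL

open Matrix Filter Topology Pool.Agent.W661.RC Pool.Agent.W683.RC
open scoped ComplexOrder

namespace HS3

variable {d : ℕ} {A : StarSubalgebra ℂ (Mt d)}

/-- a diagonalisable Hermitian element of `A` which is nonnegative on the elements of `A` has
nonnegative eigenvalues -/
lemma eig_nonneg {c : Mt d} (hc : c ∈ A) (φ : Mt d ≃⋆ₐ[ℂ] Mt d)
    (htr : ∀ x, trace (φ x) = trace x) (lam : Fin d → ℝ)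
    (hcφ : c = φ (diagonal (fun i => (lam i : ℂ))))
    (h : ∀ b ∈ A, 0 ≤ tr (bᴴ * c * b)) (j : Fin d) : 0 ≤ lam j := by
  by_contra hj
  have hj' : lam j < 0 := not_le.1 hj
  set S : Finset ℝ := (Finset.univ.image lam).erase (lam j) with hS
  set q : Polynomial ℂ := ∏ μ ∈ S, (Polynomial.X - Polynomial.C (μ : ℂ)) with hq
  set D : Mt d := diagonal (fun i => (lam i : ℂ)) with hD
  have hev : ∀ r : Polynomial ℂ, Polynomial.aeval D r =
      diagonal (fun i => r.eval (lam i : ℂ)) := by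
    intro r
    have h1 := Polynomial.aeval_algHom_apply (diagonalAlgHom ℂ (n := Fin d) (α := ℂ))
      (fun i => (lam i : ℂ)) r
    have h2 : (diagonalAlgHom ℂ (n := Fin d) (α := ℂ)) (fun i => (lam i : ℂ)) = D := rfl
    rw [h2] at h1
    rw [h1]
    have h3 : Polynomial.aeval (fun i => (lam i : ℂ)) r =
        fun i => r.eval (lam i : ℂ) := by
      ext i
      have := Polynomial.aeval_algHom_apply (Pi.evalAlgHom ℂ (fun _ : Fin d => ℂ) i)
        (fun i => (lam i : ℂ)) r
      simp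
    rw [h3]
    rfl
  set b : Mt d := Polynomial.aeval c q with hb
  have hbA : b ∈ A := by
    have h1 := Polynomial.aeval_algHom_apply A.subtype.toAlgHom (⟨c, hc⟩ : A) q
    have h2 : b = A.subtype.toAlgHom (Polynomial.aeval (⟨c, hc⟩ : A) q) := h1
    rw [h2]
    exact (Polynomial.aeval (⟨c, hc⟩ : A) q).2
  have hbφ : b = φ (diagonal (fun i => q.eval (lam i : ℂ))) := by
    rw [← hev, hb, hcφ]
    exact Polynomial.aeval_algHom_apply (φ : Mt d →ₐ[ℂ] Mt d) D q
  have h1 := h b hbA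
  have h2 : bᴴ * c * b = φ (diagonal (fun i => star (q.eval (lam i : ℂ)) *
      (lam i : ℂ) * q.eval (lam i : ℂ))) := by
    have h3 : bᴴ = φ (diagonal (fun i => star (q.eval (lam i : ℂ)))) := by
      rw [hbφ, ← star_eq_conjTranspose, ← map_star, star_eq_conjTranspose,
        diagonal_conjTranspose]
      rfl
    rw [h3, hcφ, hbφ, ← map_mul, ← map_mul, diagonal_mul_diagonal, diagonal_mul_diagonal]
  have h4 : tr (bᴴ * c * b) = ∑ i, lam i * Complex.normSq (q.eval (lam i : ℂ)) := by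
    unfold tr
    rw [h2, htr, trace_diagonal, Complex.re_sum]
    refine Finset.sum_congr rfl fun i _ => ?_
    have h5 : star (q.eval (lam i : ℂ)) * (lam i : ℂ) * q.eval (lam i : ℂ) =
        ((lam i * Complex.normSq (q.eval (lam i : ℂ)) : ℝ) : ℂ) := by
      rw [Complex.ofReal_mul, Complex.normSq_eq_conj_mul_self]
      simp only [RCLike.star_def]
      ring
    rw [h5, Complex.ofReal_re]
  have h5 : ∀ i, lam i * Complex.normSq (q.eval (lam i : ℂ)) ≤ 0 := by
    intro i
    by_cases hi : lam i = lam j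
    · rw [hi]
      exact mul_nonpos_of_nonpos_of_nonneg hj'.le (Complex.normSq_nonneg _)
    · have h6 : q.eval (lam i : ℂ) = 0 := by
        rw [hq, Polynomial.eval_prod]
        refine Finset.prod_eq_zero (i := lam i) ?_ (by simp)
        exact Finset.mem_erase.2 ⟨hi, Finset.mem_image_of_mem _ (Finset.mem_univ _)⟩
      rw [h6]
      simp
  have h6 : q.eval (lam j : ℂ) ≠ 0 := by
    rw [hq, Polynomial.eval_prod, Finset.prod_ne_zero_iff]
    intro μ hμ
    have h7 : μ ≠ lam j := (Finset.mem_erase.1 hμ).1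
    simp only [Polynomial.eval_sub, Polynomial.eval_X, Polynomial.eval_C, ne_eq, sub_eq_zero]
    exact fun h8 => h7 (Complex.ofReal_injective h8).symm
  have h7 : ∑ i, lam i * Complex.normSq (q.eval (lam i : ℂ)) < 0 := by
    refine Finset.sum_neg' (fun i _ => h5 i) ⟨j, Finset.mem_univ _, ?_⟩
    exact mul_neg_of_neg_of_pos hj' (Complex.normSq_pos.2 h6)
  rw [h4] at h1
  linarith

/-- a Hermitian element of `A` which is nonnegative on the elements of `A` is nonnegative -/
lemma psd_of_tests {c : Mt d} (hc : c ∈ A) (hH : c.IsHermitian)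
    (h : ∀ b ∈ A, 0 ≤ tr (bᴴ * c * b)) : c.PosSemidef := by
  rw [hH.posSemidef_iff_eigenvalues_nonneg]
  intro j
  refine eig_nonneg hc (Unitary.conjStarAlgAut ℂ (Mt d) hH.eigenvectorUnitary) ?_
    hH.eigenvalues hH.spectral_theorem h j
  intro x
  rw [Unitary.conjStarAlgAut_apply, Matrix.trace_mul_comm, ← Matrix.mul_assoc,
    Unitary.coe_star_mul_self, Matrix.one_mul]

end HS3

/-! TARGETS -/
variable {d : ℕ} {A : StarSubalgebra ℂ (Mt d)}

theorem E_mem (I : Idx A) (x : Mt d) : I.E x ∈ A :=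
  sum_mem fun i _ => A.smul_mem (I.mem i) _

theorem E_id (I : Idx A) {x : Mt d} (hx : x ∈ A) : I.E x = x := (I.span x hx).symm

theorem E_add (I : Idx A) (x y : Mt d) : I.E (x + y) = I.E x + I.E y := by
  unfold Idx.E
  rw [← Finset.sum_add_distrib]
  refine Finset.sum_congr rfl fun i _ => ?_
  rw [Matrix.mul_add, Matrix.trace_add, add_smul]

theorem E_sub (I : Idx A) (x y : Mt d) : I.E (x - y) = I.E x - I.E y := by
  unfold Idx.E
  rw [← Finset.sum_sub_distrib]
  refine Finset.sum_congr rfl fun i _ => ?_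
  rw [Matrix.mul_sub, Matrix.trace_sub, sub_smul]

lemma HS3.trace_b (I : Idx A) (x : Mt d) (i : Fin I.N) :
    trace ((I.b i)ᴴ * I.E x) = trace ((I.b i)ᴴ * x) := by
  unfold Idx.E
  rw [Matrix.mul_sum, Matrix.trace_sum, Finset.sum_eq_single i]
  · rw [Matrix.mul_smul, Matrix.trace_smul, I.orth, if_pos rfl, smul_eq_mul, mul_one]
  · intro j _ hj
    rw [Matrix.mul_smul, Matrix.trace_smul, I.orth, if_neg (Ne.symm hj), smul_zero]
  · intro h
    exact absurd (Finset.mem_univ i) h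

lemma HS3.trace_E (I : Idx A) {a : Mt d} (ha : a ∈ A) (x : Mt d) :
    trace (aᴴ * I.E x) = trace (aᴴ * x) := by
  rw [I.span a ha, conjTranspose_sum, Finset.sum_mul, Finset.sum_mul, Matrix.trace_sum,
    Matrix.trace_sum]
  refine Finset.sum_congr rfl fun i _ => ?_
  rw [conjTranspose_smul, Matrix.smul_mul, Matrix.smul_mul, Matrix.trace_smul, Matrix.trace_smul,
    HS3.trace_b]

lemma HS3.star_mem' {a : Mt d} (ha : a ∈ A) : aᴴ ∈ A := by
  rw [← star_eq_conjTranspose]
  exact star_mem ha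

theorem E_mul (I : Idx A) {a : Mt d} (ha : a ∈ A) (x : Mt d) : I.E (x * a) = I.E x * a := by
  rw [← E_id I (mul_mem (E_mem I x) ha)]
  unfold Idx.E
  refine Finset.sum_congr rfl fun i _ => ?_
  congr 1
  have h1 : ∀ z : Mt d, trace ((I.b i)ᴴ * (z * a)) = trace ((I.b i * aᴴ)ᴴ * z) := by
    intro z
    rw [conjTranspose_mul, conjTranspose_conjTranspose, ← Matrix.mul_assoc, Matrix.trace_mul_comm,
      Matrix.mul_assoc]
  rw [h1]
  have h2 := HS3.trace_E I (mul_mem (I.mem i) (HS3.star_mem' ha)) x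
  rw [← h2, ← h1]
  rfl

theorem mul_E (I : Idx A) {a : Mt d} (ha : a ∈ A) (x : Mt d) : I.E (a * x) = a * I.E x := by
  rw [← E_id I (mul_mem ha (E_mem I x))]
  unfold Idx.E
  refine Finset.sum_congr rfl fun i _ => ?_
  congr 1
  have h1 : ∀ z : Mt d, trace ((I.b i)ᴴ * (a * z)) = trace ((aᴴ * I.b i)ᴴ * z) := by
    intro z
    rw [conjTranspose_mul, conjTranspose_conjTranspose, ← Matrix.mul_assoc]
  rw [h1]
  have h2 := HS3.trace_E I (mul_mem (HS3.star_mem' ha) (I.mem i)) x
  rw [← h2, ← h1]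
  rfl

theorem hs_E (I : Idx A) (x : Mt d) : hs (I.E x) = ∑ i, ‖trace ((I.b i)ᴴ * x)‖ ^ 2 := by
  rw [hs_eq, HS3.trace_E I (E_mem I x)]
  have h : (I.E x)ᴴ = ∑ i, star (trace ((I.b i)ᴴ * x)) • (I.b i)ᴴ := by
    unfold Idx.E
    rw [conjTranspose_sum]
    refine Finset.sum_congr rfl fun i _ => ?_
    rw [conjTranspose_smul]
  rw [h, Finset.sum_mul, Matrix.trace_sum, Complex.re_sum]
  refine Finset.sum_congr rfl fun i _ => ?_
  rw [Matrix.smul_mul, Matrix.trace_smul, smul_eq_mul, ← Complex.normSq_eq_norm_sq]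
  have h1 : star (trace ((I.b i)ᴴ * x)) * trace ((I.b i)ᴴ * x) =
      ((Complex.normSq (trace ((I.b i)ᴴ * x)) : ℝ) : ℂ) := Complex.normSq_eq_conj_mul_self.symm
  rw [h1, Complex.ofReal_re]

theorem pyth (I : Idx A) (x : Mt d) {a : Mt d} (ha : a ∈ A) :
    hs (x - a) = hs (x - I.E x) + hs (I.E x - a) := by
  have h1 : trace ((I.E x - a)ᴴ * (x - I.E x)) = 0 := by
    rw [Matrix.mul_sub, Matrix.trace_sub, HS3.trace_E I (sub_mem (E_mem I x) ha), sub_self]
  have h2 : trace ((x - I.E x)ᴴ * (I.E x - a)) = 0 := by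
    have h3 := congrArg star h1
    rw [← Matrix.trace_conjTranspose, conjTranspose_mul, conjTranspose_conjTranspose,
      star_zero] at h3
    exact h3
  have h3 : x - a = (x - I.E x) + (I.E x - a) := by abel
  rw [h3, hs_eq, conjTranspose_add, Matrix.add_mul, Matrix.mul_add, Matrix.mul_add,
    Matrix.trace_add, Matrix.trace_add, Matrix.trace_add, h1, h2, hs_eq, hs_eq]
  simp

theorem E_contr (I : Idx A) {x : Mt d} (hx : Le (xᴴ * x) 1) : Le ((I.E x)ᴴ * I.E x) 1 := by
  have hy := E_mem I x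
  have key : ∀ b ∈ A, hs (I.E x * b) ≤ hs b := by
    intro b hb
    have h1 : hs (I.E x * b) ≤ hs (x * b) := by
      have h2 := pyth I (x * b) A.zero_mem
      rw [sub_zero, sub_zero, E_mul I hb] at h2
      linarith [hs_nonneg (x * b - I.E x * b)]
    exact h1.trans (hs_mul_le hx b)
  refine HS3.psd_of_tests (A := A) (sub_mem (one_mem A) (mul_mem (HS3.star_mem' hy) hy)) ?_ ?_
  · exact isHermitian_one.sub (isHermitian_conjTranspose_mul_self _)
  · intro b hb
    have h1 := key b hb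
    rw [hs_eq_tr, hs_eq_tr, conjTranspose_mul] at h1
    have h2 : bᴴ * (1 - (I.E x)ᴴ * I.E x) * b = bᴴ * b - bᴴ * (I.E x)ᴴ * (I.E x * b) := by
      noncomm_ring
    rw [h2, tr_sub]
    linarith

end Helper418HL
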