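import Pool.Agent.Helper418_HL.HS3
import Pool.Agent.Helper418_HL.Defs

set_option autoImplicit false

namespace Helper418HL

open Matrix Filter Topology Pool.Agent.W661.RC Pool.Agent.W683.RC
open scoped ComplexOrder

/-! GIVEN (proved elsewhere) -/
variable {d : ℕ} {A : StarSubalgebra ℂ (Mt d)}

namespace HS5

/-- the absolute value of the inner product is symmetric -/
theorem nt (x y : Mt d) : ‖trace (xᴴ * y)‖ = ‖trace (yᴴ * x)‖ := by
  have h : yᴴ * x = (xᴴ * y)ᴴ := by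
    rw [Matrix.conjTranspose_mul, Matrix.conjTranspose_conjTranspose]
  rw [h, Matrix.trace_conjTranspose, norm_star]

theorem tr_r {r : Mt d} (hr : rᴴ = r) (a y : Mt d) :
    trace ((a * r)ᴴ * y) = trace (aᴴ * (y * r)) := by
  rw [Matrix.conjTranspose_mul, hr, Matrix.mul_assoc, Matrix.trace_mul_comm, Matrix.mul_assoc]

theorem tr_V (V u c : Mt d) : trace (uᴴ * (Vᴴ * c * V)) = trace ((V * u * Vᴴ)ᴴ * c) := by
  rw [Matrix.conjTranspose_mul, Matrix.conjTranspose_mul, Matrix.conjTranspose_conjTranspose,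
    ← Matrix.mul_assoc, Matrix.trace_mul_comm]
  simp only [Matrix.mul_assoc]

theorem E_adj (I : Idx A) (a y : Mt d) : trace ((I.E a)ᴴ * y) = trace (aᴴ * I.E y) := by
  unfold Idx.E
  rw [Matrix.conjTranspose_sum, Finset.sum_mul, Matrix.trace_sum, Finset.mul_sum,
    Matrix.trace_sum]
  refine Finset.sum_congr rfl fun i _ => ?_
  rw [Matrix.conjTranspose_smul, Matrix.smul_mul, Matrix.mul_smul, Matrix.trace_smul,
    Matrix.trace_smul, ← Matrix.trace_conjTranspose, Matrix.conjTranspose_mul,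
    Matrix.conjTranspose_conjTranspose, smul_eq_mul, smul_eq_mul, mul_comm]

/-- a tight frame of the complement of `A` -/
noncomputable def cm (I : Idx A) (p : Fin d × Fin d) : Mt d :=
  Matrix.single p.1 p.2 1 - I.E (Matrix.single p.1 p.2 1)

theorem trace_single (i j : Fin d) (z : Mt d) :
    trace ((Matrix.single i j (1 : ℂ))ᴴ * z) = z i j := by
  rw [Matrix.conjTranspose_single, star_one, Matrix.trace_single_mul]
  simp

theorem sum_cm (I : Idx A) (y : Mt d) : ∑ p, ‖trace ((cm I p)ᴴ * y)‖ ^ 2 = hs (y - I.E y) := by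
  unfold hs
  rw [Fintype.sum_prod_type]
  refine Finset.sum_congr rfl fun i _ => Finset.sum_congr rfl fun j _ => ?_
  congr 2
  unfold cm
  rw [Matrix.conjTranspose_sub, Matrix.sub_mul, Matrix.trace_sub, E_adj, ← Matrix.trace_sub,
    ← Matrix.mul_sub, trace_single]

theorem avg_lo' (I : Idx A) {κ : Type} [Fintype κ] (y : κ → Mt d) : ∃ u ∈ A, uᴴ * u = 1 ∧
    ∑ l, ‖trace (uᴴ * y l)‖ ^ 2 ≤ ∑ l, ∑ i, ‖trace ((I.b i * I.r)ᴴ * y l)‖ ^ 2 := by
  obtain ⟨u, hu, hu1, h⟩ := I.avg_lo (Fintype.card κ) (fun l => y ((Fintype.equivFin κ).symm l))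
  refine ⟨u, hu, hu1, ?_⟩
  rw [Equiv.sum_comp (Fintype.equivFin κ).symm (fun l => ‖trace (uᴴ * y l)‖ ^ 2),
    Equiv.sum_comp (Fintype.equivFin κ).symm
      (fun l => ∑ i, ‖trace ((I.b i * I.r)ᴴ * y l)‖ ^ 2)] at h
  exact h

/-- comparison of `hs (Y * a)` through the order -/
theorem hs_le_of (Y a : Mt d) {c : Mt d} (h : Le (a * aᴴ) c) : hs (Y * a) ≤ tr (Y * c * Yᴴ) := by
  rw [hs_eq_tr', Matrix.conjTranspose_mul]
  have e : Y * a * (aᴴ * Yᴴ) = Y * (a * aᴴ) * Yᴴ := by simp only [Matrix.mul_assoc]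
  rw [e]
  exact Le_tr (Le_conj' h Y)

theorem Le_rrq {r q : Mt d} (hr : rᴴ = r) (hq : IsPr q) (hrq : r * q = q * r) :
    Le (r * r * q) (r * r) := by
  unfold Le
  have e : r * r - r * r * q = (r * (1 - q)) * (r * (1 - q))ᴴ := by
    rw [Matrix.conjTranspose_mul, hr, (pr_compl hq).1, Matrix.mul_assoc r (1 - q),
      ← Matrix.mul_assoc (1 - q), (pr_compl hq).2, Matrix.sub_mul, Matrix.one_mul, Matrix.mul_sub,
      ← hrq, Matrix.mul_assoc]
  rw [e]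
  exact Matrix.posSemidef_self_mul_conjTranspose _

theorem hs_qr {r q : Mt d} (hr : rᴴ = r) (hq : IsPr q) (hrq : r * q = q * r) {s : ℝ}
    (h1 : Le (r * r * q) ((s : ℂ) • q)) (hs0 : 0 ≤ s) (Y : Mt d) :
    hs (Y * (q * r)) ≤ s * hs Y := by
  have e : (q * r) * (q * r)ᴴ = r * r * q := by
    rw [Matrix.conjTranspose_mul, hr, hq.1]
    calc q * r * (r * q) = (q * r) * r * q := by simp only [Matrix.mul_assoc]
      _ = (r * q) * r * q := by rw [hrq]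
      _ = r * (q * r) * q := by simp only [Matrix.mul_assoc]
      _ = r * (r * q) * q := by rw [hrq]
      _ = r * r * (q * q) := by simp only [Matrix.mul_assoc]
      _ = r * r * q := by rw [hq.2]
  have h3 := hs_le_of Y (q * r) (c := (s : ℂ) • q) (by rw [e]; exact h1)
  rw [Matrix.mul_smul, Matrix.smul_mul, tr_smul] at h3
  have h4 : tr (Y * q * Yᴴ) = hs (Y * q) := by
    rw [hs_eq_tr', Matrix.conjTranspose_mul, hq.1]
    have : Y * q * (q * Yᴴ) = Y * (q * q) * Yᴴ := by simp only [Matrix.mul_assoc]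
    rw [this, hq.2]
  rw [h4] at h3
  exact h3.trans (mul_le_mul_of_nonneg_left (hs_mul_pr_le_self hq Y) hs0)

theorem hs_q_le {r q : Mt d} (hr : rᴴ = r) (hq : IsPr q) (hrq : r * q = q * r) {t : ℝ}
    (h2 : Le q ((t : ℂ) • (r * r * q))) (ht0 : 0 ≤ t) (Y : Mt d) :
    hs (Y * q) ≤ t * hs (Y * r) := by
  have h3 := hs_le_of Y q (c := (t : ℂ) • (r * r * q)) (by rw [hq.1, hq.2]; exact h2)
  rw [Matrix.mul_smul, Matrix.smul_mul, tr_smul] at h3
  refine h3.trans (mul_le_mul_of_nonneg_left ?_ ht0)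
  have h4 := Le_tr (Le_conj' (Le_rrq hr hq hrq) Y)
  refine h4.trans (le_of_eq ?_)
  rw [hs_eq_tr', Matrix.conjTranspose_mul, hr]
  simp only [Matrix.mul_assoc]

/-- exchanging the two algebras -/
theorem swap (I : Idx A) (V : Mt d) {c : Mt d} (hc : cᴴ = c) (hcA : c ∈ A) :
    ∑ j, hs (I.E (V * (I.b j * c) * Vᴴ)) = ∑ i, hs (I.E (Vᴴ * I.b i * V) * c) := by
  have h1 : ∀ i, hs (I.E (Vᴴ * I.b i * V) * c) =
      ∑ j, ‖trace ((I.b j)ᴴ * (Vᴴ * I.b i * V * c))‖ ^ 2 := by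
    intro i
    rw [← E_mul I hcA, hs_E]
  simp only [h1, hs_E]
  rw [Finset.sum_comm]
  refine Finset.sum_congr rfl fun i _ => Finset.sum_congr rfl fun j _ => ?_
  congr 1
  rw [nt, Matrix.conjTranspose_mul, Matrix.conjTranspose_mul, Matrix.conjTranspose_conjTranspose,
    Matrix.conjTranspose_mul, hc]
  congr 1
  calc trace (V * (c * (I.b j)ᴴ * Vᴴ) * I.b i) =
        trace ((V * c) * ((I.b j)ᴴ * Vᴴ * I.b i)) := by simp only [Matrix.mul_assoc]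
    _ = trace (((I.b j)ᴴ * Vᴴ * I.b i) * (V * c)) := Matrix.trace_mul_comm _ _
    _ = trace ((I.b j)ᴴ * (Vᴴ * I.b i * V * c)) := by simp only [Matrix.mul_assoc]

/-- `J ≤ s t J1`; here is the first factor -/
theorem step_J (I : Idx A) (V : Mt d) {q : Mt d} (hq : IsPr q) (hqA : q ∈ A)
    (hrq : I.r * q = q * I.r) {s : ℝ} (hs0 : 0 ≤ s) (h1 : Le (I.r * I.r * q) ((s : ℂ) • q)) :
    ∑ j, ∑ i, ‖trace ((I.b i * I.r)ᴴ * (V * (I.b j * q) * Vᴴ * q))‖ ^ 2 ≤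
      s * ∑ j, hs (I.E (V * (I.b j * q) * Vᴴ)) := by
  have hr : I.rᴴ = I.r := I.r_psd.1
  rw [Finset.mul_sum]
  refine Finset.sum_le_sum fun j _ => ?_
  have e : ∑ i, ‖trace ((I.b i * I.r)ᴴ * (V * (I.b j * q) * Vᴴ * q))‖ ^ 2 =
      hs (I.E (V * (I.b j * q) * Vᴴ) * (q * I.r)) := by
    rw [← E_mul I (mul_mem hqA I.r_mem), hs_E]
    refine Finset.sum_congr rfl fun i _ => ?_
    rw [tr_r hr, Matrix.mul_assoc (V * (I.b j * q) * Vᴴ)]
  rw [e]
  exact hs_qr hr hq hrq h1 hs0 _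

/-- the second factor -/
theorem step_t (I : Idx A) (V : Mt d) {q : Mt d} (hq : IsPr q) (hqA : q ∈ A)
    (hrq : I.r * q = q * I.r) {t : ℝ} (ht0 : 0 ≤ t) (h2 : Le q ((t : ℂ) • (I.r * I.r * q))) :
    ∑ j, hs (I.E (V * (I.b j * q) * Vᴴ)) ≤ t * ∑ j, hs (I.E (V * (I.b j * I.r) * Vᴴ)) := by
  have hr : I.rᴴ = I.r := I.r_psd.1
  rw [swap I V hq.1 hqA, swap I V hr I.r_mem, Finset.mul_sum]
  exact Finset.sum_le_sum fun i _ => hs_q_le hr hq hrq h2 ht0 _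

/-- lower bound for `J` -/
theorem J_low (I : Idx A) (V : Mt d) (hV : Vᴴ * V = 1) (δ : ℝ)
    (hinc : ∀ b ∈ A, Le (bᴴ * b) 1 → ∃ b' ∈ A, hs (b - V * b' * Vᴴ) ≤ δ * d)
    {q : Mt d} (hq : IsPr q) (hqA : q ∈ A) :
    tr (q * (V * q * Vᴴ)) - δ * d ≤
      ∑ j, ∑ i, ‖trace ((I.b i * I.r)ᴴ * (V * (I.b j * q) * Vᴴ * q))‖ ^ 2 := by
  obtain ⟨u, hu, hu1, hle⟩ := avg_lo' I (fun j => V * (I.b j * q) * Vᴴ * q)
  refine le_trans ?_ hle
  have hVV : V * Vᴴ = 1 := unit_symm hV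
  have e : ∑ j, ‖trace (uᴴ * (V * (I.b j * q) * Vᴴ * q))‖ ^ 2 = hs (I.E (Vᴴ * (u * q) * V * q)) := by
    rw [hs_E]
    refine Finset.sum_congr rfl fun j _ => ?_
    congr 1
    rw [nt, Matrix.conjTranspose_mul, Matrix.conjTranspose_mul, Matrix.conjTranspose_mul,
      Matrix.conjTranspose_conjTranspose, Matrix.conjTranspose_mul, hq.1]
    congr 1
    calc trace (q * (V * (q * (I.b j)ᴴ * Vᴴ)) * u) =
          trace ((q * (V * q)) * ((I.b j)ᴴ * (Vᴴ * u))) := by simp only [Matrix.mul_assoc]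
      _ = trace (((I.b j)ᴴ * (Vᴴ * u)) * (q * (V * q))) := Matrix.trace_mul_comm _ _
      _ = trace ((I.b j)ᴴ * (Vᴴ * (u * q) * V * q)) := by simp only [Matrix.mul_assoc]
  rw [e]
  -- the projection
  have hz : hs (Vᴴ * (u * q) * V * q) = tr (q * (V * q * Vᴴ)) := by
    have e1 : Vᴴ * (u * q) * V * q = Vᴴ * (u * (q * V * q)) := by simp only [Matrix.mul_assoc]
    rw [e1, hs_unit_mul (unit_conj hV), hs_unit_mul hu1, hs_eq_tr', Matrix.conjTranspose_mul,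
      Matrix.conjTranspose_mul, hq.1]
    have e2 : q * V * q * (q * (Vᴴ * q)) = q * (V * (q * q) * Vᴴ) * q := by
      simp only [Matrix.mul_assoc]
    rw [e2, hq.2, tr_mul_comm, ← Matrix.mul_assoc, hq.2]
  obtain ⟨b', hb', hd⟩ := hinc (u * q) (mul_mem hu hqA) (by
    rw [Matrix.conjTranspose_mul]
    have e3 : qᴴ * uᴴ * (u * q) = qᴴ * (uᴴ * u) * q := by simp only [Matrix.mul_assoc]
    rw [e3, hu1, Matrix.mul_one]
    exact pr_sq_le_one hq)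
  have hdist : hs (Vᴴ * (u * q) * V * q - b' * q) ≤ δ * d := by
    have e4 : Vᴴ * (u * q) * V * q - b' * q = (Vᴴ * (u * q - V * b' * Vᴴ) * V) * q := by
      rw [Matrix.mul_sub, Matrix.sub_mul, Matrix.sub_mul]
      congr 1
      have e5 : Vᴴ * (V * b' * Vᴴ) * V = (Vᴴ * V) * b' * (Vᴴ * V) := by
        simp only [Matrix.mul_assoc]
      rw [e5, hV, Matrix.one_mul, Matrix.mul_one]
    rw [e4]
    refine (hs_mul_pr_le_self hq _).trans ?_
    rw [hs_mul_unit hV, hs_unit_mul (unit_conj hV)]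
    exact hd
  have hp1 := pyth I (Vᴴ * (u * q) * V * q) (mul_mem hb' hqA)
  have hp2 := pyth I (Vᴴ * (u * q) * V * q) (zero_mem A)
  rw [sub_zero, sub_zero] at hp2
  have hnn := hs_nonneg (I.E (Vᴴ * (u * q) * V * q) - b' * q)
  rw [← hz]
  linarith

/-- the sum of the `hs (b i * r)` -/
theorem sum_br (I : Idx A) : ∑ i, hs (I.b i * I.r) = d := by
  have hr : I.rᴴ = I.r := I.r_psd.1
  have e : ∀ i, hs (I.b i * I.r) = tr (I.r * ((I.b i)ᴴ * I.b i) * I.r) := by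
    intro i
    rw [hs_eq_tr, Matrix.conjTranspose_mul, hr]
    congr 1
    simp only [Matrix.mul_assoc]
  simp only [e]
  rw [← tr_sum, ← Finset.sum_mul, ← Finset.mul_sum, ← I.w_eq', tr_mul_comm, ← Matrix.mul_assoc,
    I.rrw, tr_one]


end HS5

/-- TARGET -/
theorem equalize (I : Idx A) (V : Mt d) (hV : Vᴴ * V = 1) (δ : ℝ) (hδ : 0 ≤ δ)
    (hinc : ∀ b ∈ A, Le (bᴴ * b) 1 → ∃ b' ∈ A, hs (b - V * b' * Vᴴ) ≤ δ * d)
    (q : Mt d) (hq : IsPr q) (hqA : q ∈ A) (hqc : ∀ x ∈ A, x * q = q * x) (s t : ℝ)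
    (hs0 : 0 < s) (ht0 : 0 < t) (h1 : Le (I.r * I.r * q) ((s : ℂ) • q))
    (h2 : Le q ((t : ℂ) • (I.r * I.r * q))) (x : Mt d) (hx : x ∈ A) (hx1 : Le (xᴴ * x) 1) :
    ∃ u ∈ A, uᴴ * u = 1 ∧
      hs (V * u * Vᴴ - I.E (V * u * Vᴴ)) + hs (V * (x * u) * Vᴴ - I.E (V * (x * u) * Vᴴ))
        ≤ 2 * (d - (tr (q * (V * q * Vᴴ)) - δ * d) / (s * t)) := by
  have hr : I.rᴴ = I.r := I.r_psd.1
  have hrq : I.r * q = q * I.r := hqc I.r I.r_mem
  -- first step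
  set J1 := ∑ j, hs (I.E (V * (I.b j * I.r) * Vᴴ)) with hJ1
  have hstep1 : tr (q * (V * q * Vᴴ)) - δ * d ≤ s * t * J1 := by
    have a1 := HS5.J_low I V hV δ hinc hq hqA
    have a2 := HS5.step_J I V hq hqA hrq hs0.le h1
    have a3 := HS5.step_t I V hq hqA hrq ht0.le h2
    have a4 := mul_le_mul_of_nonneg_left a3 hs0.le
    have a5 : s * (t * ∑ j, hs (I.E (V * (I.b j * I.r) * Vᴴ))) = s * t * J1 := by
      rw [hJ1, mul_assoc]
    linarith
  have hdiv : (tr (q * (V * q * Vᴴ)) - δ * d) / (s * t) ≤ J1 := by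
    rw [div_le_iff₀ (by positivity)]
    linarith
  -- second step
  obtain ⟨u, hu, hu1, hle⟩ := HS5.avg_lo' I
    (fun l : (Fin d × Fin d) ⊕ (Fin d × Fin d) =>
      Sum.elim (fun m => Vᴴ * HS5.cm I m * V) (fun m => xᴴ * (Vᴴ * HS5.cm I m * V)) l)
  refine ⟨u, hu, hu1, ?_⟩
  rw [Fintype.sum_sum_type, Fintype.sum_sum_type] at hle
  simp only [Sum.elim_inl, Sum.elim_inr] at hle
  have e1 : ∑ m, ‖trace (uᴴ * (Vᴴ * HS5.cm I m * V))‖ ^ 2 =
      hs (V * u * Vᴴ - I.E (V * u * Vᴴ)) := by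
    rw [← HS5.sum_cm]
    refine Finset.sum_congr rfl fun m _ => ?_
    rw [HS5.tr_V, HS5.nt]
  have e2 : ∑ m, ‖trace (uᴴ * (xᴴ * (Vᴴ * HS5.cm I m * V)))‖ ^ 2 =
      hs (V * (x * u) * Vᴴ - I.E (V * (x * u) * Vᴴ)) := by
    rw [← HS5.sum_cm]
    refine Finset.sum_congr rfl fun m _ => ?_
    have e3 : uᴴ * (xᴴ * (Vᴴ * HS5.cm I m * V)) = (x * u)ᴴ * (Vᴴ * HS5.cm I m * V) := by
      rw [Matrix.conjTranspose_mul, Matrix.mul_assoc uᴴ xᴴ]
    rw [e3, HS5.tr_V, HS5.nt]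
  rw [e1, e2] at hle
  refine hle.trans ?_
  -- the first sum
  have e4 : ∑ m, ∑ i, ‖trace ((I.b i * I.r)ᴴ * (Vᴴ * HS5.cm I m * V))‖ ^ 2 = d - J1 := by
    rw [Finset.sum_comm]
    have e5 : ∀ i, ∑ m, ‖trace ((I.b i * I.r)ᴴ * (Vᴴ * HS5.cm I m * V))‖ ^ 2 =
        hs (I.b i * I.r) - hs (I.E (V * (I.b i * I.r) * Vᴴ)) := by
      intro i
      have e6 : ∑ m, ‖trace ((I.b i * I.r)ᴴ * (Vᴴ * HS5.cm I m * V))‖ ^ 2 =
          hs (V * (I.b i * I.r) * Vᴴ - I.E (V * (I.b i * I.r) * Vᴴ)) := by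
        rw [← HS5.sum_cm]
        refine Finset.sum_congr rfl fun m _ => ?_
        rw [HS5.tr_V, HS5.nt]
      have e7 := pyth I (V * (I.b i * I.r) * Vᴴ) (zero_mem A)
      rw [sub_zero, sub_zero, hs_mul_unit (unit_conj hV), hs_unit_mul hV] at e7
      rw [e6]
      linarith
    simp only [e5]
    rw [Finset.sum_sub_distrib, HS5.sum_br]
  -- the second sum
  have e8 : ∑ m, ∑ i, ‖trace ((I.b i * I.r)ᴴ * (xᴴ * (Vᴴ * HS5.cm I m * V)))‖ ^ 2 ≤ d - J1 := by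
    rw [← e4]
    refine Finset.sum_le_sum fun m _ => ?_
    have e9 : ∀ z : Mt d, ∑ i, ‖trace ((I.b i * I.r)ᴴ * z)‖ ^ 2 = hs (I.E (z * I.r)) := by
      intro z
      rw [hs_E]
      refine Finset.sum_congr rfl fun i _ => ?_
      rw [HS5.tr_r hr]
    have hxs : xᴴ ∈ A := star_mem hx
    rw [e9, e9, Matrix.mul_assoc xᴴ, mul_E I hxs]
    exact hs_mul_le (by
      rw [Matrix.conjTranspose_conjTranspose]
      exact contr_conj hx1) _
  rw [e4]
  linarith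

end Helper418HL
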