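import Pool.Agent.Helper418_HL.HS3
import Pool.Agent.Helper418_HL.Defs

set_option autoImplicit false

namespace Helper418HL

open Matrix Filter Topology Pool.Agent.W661.RC Pool.Agent.W683.RC
open scoped ComplexOrder

/-! GIVEN (proved elsewhere) -/
variable {d : ℕ} {A : StarSubalgebra ℂ (Mt d)}

namespace HS4

theorem hs_E_le (I : Idx A) (x : Mt d) : hs (I.E x) ≤ hs x := by
  have h := pyth I x (a := 0) (zero_mem A)
  rw [sub_zero, sub_zero] at h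
  linarith [hs_nonneg (x - I.E x)]

theorem hs_sub_E_le (I : Idx A) (x : Mt d) {a : Mt d} (ha : a ∈ A) :
    hs x ≤ hs (x - a) + hs (I.E x) := by
  have h := pyth I x (a := 0) (zero_mem A)
  rw [sub_zero, sub_zero] at h
  have h2 := pyth I x ha
  linarith [hs_nonneg (I.E x - a)]

theorem conj_mul_conj {V : Mt d} (hV : Vᴴ * V = 1) (x y : Mt d) :
    (V * x * Vᴴ) * (V * y * Vᴴ) = V * (x * y) * Vᴴ := by
  calc (V * x * Vᴴ) * (V * y * Vᴴ) = V * x * (Vᴴ * V) * y * Vᴴ := by simp only [Matrix.mul_assoc]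
    _ = V * (x * y) * Vᴴ := by rw [hV, Matrix.mul_one]; simp only [Matrix.mul_assoc]

theorem conj_conj (V x : Mt d) : (V * x * Vᴴ)ᴴ = V * xᴴ * Vᴴ := by
  rw [Matrix.conjTranspose_mul, Matrix.conjTranspose_mul, Matrix.conjTranspose_conjTranspose,
    Matrix.mul_assoc]

/-- the upper bound for the double sum -/
theorem upper (I : Idx A) {V : Mt d} (hV : Vᴴ * V = 1) {e f : Mt d} (he : IsPr e)
    (hec : ∀ x ∈ A, x * e = e * x)
    (hf : IsPr f) (hfc : ∀ x ∈ A, x * f = f * x) {s t : ℝ}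
    (ht0 : 0 ≤ t) (hes : Le (I.r * I.r * e) ((s : ℂ) • e)) (hft : Le (I.w * f) ((t : ℂ) • f)) :
    ∑ l, ∑ i, ‖trace ((I.b i * I.r)ᴴ * ((V * I.b l * Vᴴ) * (V * f * Vᴴ) * e))‖ ^ 2 ≤
      s * t * tr (e * (V * f * Vᴴ)) := by
  have hr : (I.r)ᴴ = I.r := I.r_psd.1
  have hF : IsPr (V * f * Vᴴ) := by
    refine ⟨by rw [conj_conj, hf.1], by rw [conj_mul_conj hV, hf.2]⟩
  set F := V * f * Vᴴ with hFdef
  -- step 1
  have h1 : ∀ l, ∑ i, ‖trace ((I.b i * I.r)ᴴ * ((V * I.b l * Vᴴ) * F * e))‖ ^ 2 ≤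
      hs ((V * I.b l * Vᴴ) * F * e * I.r) := by
    intro l
    have h2 : ∑ i, ‖trace ((I.b i * I.r)ᴴ * ((V * I.b l * Vᴴ) * F * e))‖ ^ 2 =
        hs (I.E ((V * I.b l * Vᴴ) * F * e * I.r)) := by
      rw [hs_E]
      refine Finset.sum_congr rfl fun i _ => ?_
      rw [Matrix.conjTranspose_mul, hr, Matrix.mul_assoc I.r, Matrix.trace_mul_comm I.r,
        Matrix.mul_assoc ((I.b i)ᴴ)]
    rw [h2]
    exact hs_E_le I _
  refine (Finset.sum_le_sum fun l _ => h1 l).trans ?_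
  -- step 2
  have h3 : ∑ l, hs ((V * I.b l * Vᴴ) * F * e * I.r) =
      tr ((e * I.r)ᴴ * (F * (V * I.w * Vᴴ) * F) * (e * I.r)) := by
    have h4 : ∀ l, hs ((V * I.b l * Vᴴ) * F * e * I.r) =
        tr ((e * I.r)ᴴ * (F * (V * ((I.b l)ᴴ * I.b l) * Vᴴ) * F) * (e * I.r)) := by
      intro l
      rw [hs_eq_tr, ← conj_mul_conj hV ((I.b l)ᴴ), ← conj_conj, Matrix.mul_assoc _ e I.r,
        Matrix.conjTranspose_mul _ (e * I.r), Matrix.conjTranspose_mul _ F, hF.1]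
      simp only [Matrix.mul_assoc]
    rw [Finset.sum_congr rfl fun l _ => h4 l, ← tr_sum, I.w_eq']
    congr 1
    simp only [Finset.mul_sum, Finset.sum_mul]
  rw [h3]
  have h5 : Le (F * (V * I.w * Vᴴ) * F) ((t : ℂ) • F) := by
    have h6 : F * (V * I.w * Vᴴ) * F = V * (I.w * f) * Vᴴ := by
      rw [hFdef, conj_mul_conj hV, conj_mul_conj hV, ← hfc I.w I.w_mem, Matrix.mul_assoc I.w,
        hf.2]
    have h7 : (t : ℂ) • F = V * ((t : ℂ) • f) * Vᴴ := by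
      rw [Matrix.mul_smul, Matrix.smul_mul]
    rw [h6, h7]
    exact Le_conj' hft V
  have h8 := Le_tr (Le_conj h5 (e * I.r))
  refine h8.trans ?_
  have h9 : tr ((e * I.r)ᴴ * ((t : ℂ) • F) * (e * I.r)) = t * tr (F * (I.r * I.r * e)) := by
    rw [Matrix.mul_smul, Matrix.smul_mul, tr_smul, tr_mul_comm, ← Matrix.mul_assoc, tr_mul_comm,
      Matrix.conjTranspose_mul, hr, he.1]
    congr 3
    have h10 := hec I.r I.r_mem
    calc e * I.r * (I.r * e) = (e * I.r) * (I.r * e) := rfl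
      _ = (I.r * e) * (e * I.r) := by rw [h10]
      _ = I.r * (e * e) * I.r := by simp only [Matrix.mul_assoc]
      _ = I.r * (e * I.r) := by rw [he.2, Matrix.mul_assoc]
      _ = I.r * I.r * e := by rw [← h10, Matrix.mul_assoc]
  rw [h9]
  have h11 := Le_mul_tr hes (pr_psd hF)
  rw [Matrix.mul_smul, tr_smul, tr_mul_comm F e] at h11
  calc t * tr (F * (I.r * I.r * e)) ≤ t * (s * tr (e * F)) :=
        mul_le_mul_of_nonneg_left h11 ht0
    _ = s * t * tr (e * F) := by ring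

/-- the lower bound -/
theorem lower (I : Idx A) {V : Mt d} (hV : Vᴴ * V = 1) {δ : ℝ}
    (hinc : ∀ b ∈ A, Le (bᴴ * b) 1 → ∃ b' ∈ A, hs (b - V * b' * Vᴴ) ≤ δ * d)
    {e f : Mt d} (he : IsPr e) (heA : e ∈ A) (hf : IsPr f) (hfA : f ∈ A)
    {u : Mt d} (huA : u ∈ A) (hu : uᴴ * u = 1) :
    tr (e * (V * f * Vᴴ)) ≤ δ * d +
      ∑ l, ‖trace (uᴴ * ((V * I.b l * Vᴴ) * (V * f * Vᴴ) * e))‖ ^ 2 := by
  have hV' : V * Vᴴ = 1 := unit_symm hV
  have hF : IsPr (V * f * Vᴴ) := by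
    refine ⟨by rw [conj_conj, hf.1], by rw [conj_mul_conj hV, hf.2]⟩
  set F := V * f * Vᴴ with hFdef
  obtain ⟨b', hb'A, hb'⟩ := hinc (u * e) (A.mul_mem huA heA) (by
    rw [Matrix.conjTranspose_mul, Matrix.mul_assoc, ← Matrix.mul_assoc uᴴ, hu, Matrix.one_mul]
    exact pr_sq_le_one he)
  have h1 : ∑ l, ‖trace (uᴴ * ((V * I.b l * Vᴴ) * F * e))‖ ^ 2 =
      hs (I.E (Vᴴ * (u * e * F) * V)) := by
    rw [hs_E]
    refine Finset.sum_congr rfl fun l _ => ?_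
    have h2 : trace (uᴴ * ((V * I.b l * Vᴴ) * F * e)) =
        star (trace ((I.b l)ᴴ * (Vᴴ * (u * e * F) * V))) := by
      rw [← Matrix.trace_conjTranspose]
      have h3 : ((I.b l)ᴴ * (Vᴴ * (u * e * F) * V))ᴴ = Vᴴ * F * (e * uᴴ * V * I.b l) := by
        simp only [Matrix.conjTranspose_mul, Matrix.conjTranspose_conjTranspose, he.1, hF.1]
        simp only [Matrix.mul_assoc]
      rw [h3, Matrix.trace_mul_comm (Vᴴ * F)]
      have h4 : e * uᴴ * V * I.b l * (Vᴴ * F) = e * (uᴴ * ((V * I.b l * Vᴴ) * F)) := by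
        simp only [Matrix.mul_assoc]
      rw [h4, Matrix.trace_mul_comm e]
      simp only [Matrix.mul_assoc]
    rw [h2, norm_star]
  rw [h1]
  have h5 := hs_sub_E_le I (Vᴴ * (u * e * F) * V) (A.mul_mem hb'A hfA)
  have h6 : hs (Vᴴ * (u * e * F) * V) = tr (e * F) := by
    rw [hs_mul_unit hV, hs_unit_mul (unit_conj hV), Matrix.mul_assoc, hs_unit_mul hu, hs_eq_tr',
      Matrix.conjTranspose_mul, he.1, hF.1, Matrix.mul_assoc, ← Matrix.mul_assoc F F, hF.2,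
      ← Matrix.mul_assoc, tr_mul_comm, ← Matrix.mul_assoc, he.2]
  have h7 : hs (Vᴴ * (u * e * F) * V - b' * f) ≤ δ * d := by
    have h8 : hs (Vᴴ * (u * e * F) * V - b' * f) =
        hs ((u * e - V * b' * Vᴴ) * F) := by
      rw [← hs_unit_mul hV (Vᴴ * (u * e * F) * V - b' * f),
        ← hs_mul_unit (unit_conj hV) (V * (Vᴴ * (u * e * F) * V - b' * f))]
      congr 1
      rw [Matrix.mul_sub, Matrix.sub_mul, Matrix.sub_mul, hFdef, conj_mul_conj hV]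
      congr 1
      calc V * (Vᴴ * (u * e * (V * f * Vᴴ)) * V) * Vᴴ =
            (V * Vᴴ) * (u * e * (V * f * Vᴴ)) * (V * Vᴴ) := by simp only [Matrix.mul_assoc]
        _ = _ := by rw [hV', Matrix.one_mul, Matrix.mul_one]
    rw [h8]
    exact (hs_mul_pr_le_self hF _).trans hb'
  rw [h6] at h5
  linarith

end HS4

/-- TARGET -/
theorem compare (I : Idx A) (V : Mt d) (hV : Vᴴ * V = 1) (δ : ℝ)
    (hinc : ∀ b ∈ A, Le (bᴴ * b) 1 → ∃ b' ∈ A, hs (b - V * b' * Vᴴ) ≤ δ * d)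
    (e f : Mt d) (he : IsPr e) (heA : e ∈ A) (hec : ∀ x ∈ A, x * e = e * x)
    (hf : IsPr f) (hfA : f ∈ A) (hfc : ∀ x ∈ A, x * f = f * x) (s t : ℝ) (hs0 : 0 ≤ s)
    (ht0 : 0 ≤ t) (hes : Le (I.r * I.r * e) ((s : ℂ) • e)) (hft : Le (I.w * f) ((t : ℂ) • f)) :
    (1 - s * t) * tr (e * (V * f * Vᴴ)) ≤ δ * d := by
  have _ := hs0
  obtain ⟨u, huA, hu, h1⟩ := I.avg_lo I.N (fun l => (V * I.b l * Vᴴ) * (V * f * Vᴴ) * e)
  have h2 := HS4.upper I hV he hec hf hfc ht0 hes hft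
  have h3 := HS4.lower I hV hinc he heA hf hfA huA hu
  have h4 := h1.trans h2
  have h5 : (1 - s * t) * tr (e * (V * f * Vᴴ)) =
      tr (e * (V * f * Vᴴ)) - s * t * tr (e * (V * f * Vᴴ)) := by ring
  rw [h5]
  linarith

end Helper418HL
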