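import Pool.Agent.Helper418_HL.HG
import Pool.Agent.Helper418_HL.Defs

set_option autoImplicit false

namespace Helper418HL

open Matrix Filter Topology Pool.Agent.W661.RC Pool.Agent.W683.RC
open scoped ComplexOrder

/-! GIVEN (proved elsewhere) -/
namespace HS7

variable {d : ℕ}

/-- the conjugate of a projection by a unitary is a projection -/
lemma pr_conj {V p : Mt d} (hV : Vᴴ * V = 1) (hp : IsPr p) : IsPr (V * p * Vᴴ) := by
  refine ⟨?_, ?_⟩
  · rw [Matrix.conjTranspose_mul, Matrix.conjTranspose_mul, Matrix.conjTranspose_conjTranspose,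
      hp.1, Matrix.mul_assoc]
  · calc V * p * Vᴴ * (V * p * Vᴴ) = V * p * (Vᴴ * V) * p * Vᴴ := by
          simp only [Matrix.mul_assoc]
      _ = V * (p * p) * Vᴴ := by
          rw [hV, Matrix.mul_one]; simp only [Matrix.mul_assoc]
      _ = V * p * Vᴴ := by rw [hp.2]

lemma tr_conj {V : Mt d} (hV : Vᴴ * V = 1) (p : Mt d) : tr (V * p * Vᴴ) = tr p := by
  rw [tr_mul_comm, ← Matrix.mul_assoc, hV, Matrix.one_mul]

lemma hs_conj {V : Mt d} (hV : Vᴴ * V = 1) (x : Mt d) : hs (V * x * Vᴴ) = hs x := by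
  rw [hs_mul_unit (unit_conj hV), hs_unit_mul hV]

lemma hs_diff {W W' : Mt d} (hW : IsPr W) (hW' : IsPr W') (h : W * W' = W') :
    hs (W - W') = tr W - tr W' := by
  rw [pr_hs_sub hW hW', h]
  ring

/-- the comparison of the two projections, first alternative -/
lemma alt1 {V W W' : Mt d} (hV : Vᴴ * V = 1) (hW : IsPr W) (hW' : IsPr W') (h : W * W' = W') :
    hs (V * W - W * V) ≤ 4 * (tr W - tr W') + 4 * tr (W' * (V * (1 - W) * Vᴴ)) := by
  have hQ := pr_conj hV hW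
  have e1 : V * (1 - W) * Vᴴ = 1 - V * W * Vᴴ := by
    rw [Matrix.mul_sub, Matrix.sub_mul, Matrix.mul_one, unit_symm hV]
  have h1 : hs (V * W * Vᴴ - W') = tr W - tr W' + 2 * tr (W' * (V * (1 - W) * Vᴴ)) := by
    rw [pr_hs_sub hQ hW', tr_conj hV, e1, Matrix.mul_sub, Matrix.mul_one, tr_sub,
      tr_mul_comm W' (V * W * Vᴴ)]
    ring
  have h2 := hs_diff hW hW' h
  have h3 : hs (W - V * W * Vᴴ) ≤ 2 * hs (W - W') + 2 * hs (W' - V * W * Vᴴ) := by
    have := hs_add_le (W - W') (W' - V * W * Vᴴ)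
    rwa [sub_add_sub_cancel] at this
  rw [hs_sub_comm W' (V * W * Vᴴ)] at h3
  rw [hs_comm_eq' hV]
  linarith

/-- the comparison of the two projections, second alternative -/
lemma alt2 {V W W' : Mt d} (hV : Vᴴ * V = 1) (hW : IsPr W) (hW' : IsPr W') (h : W * W' = W') :
    hs (V * W - W * V) ≤ 4 * (tr W - tr W') + 4 * tr ((1 - W) * (V * W' * Vᴴ)) := by
  have hQ := pr_conj hV hW'
  have h1 : hs (W - V * W' * Vᴴ) = tr W - tr W' + 2 * tr ((1 - W) * (V * W' * Vᴴ)) := by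
    rw [pr_hs_sub hW hQ, tr_conj hV, Matrix.sub_mul, Matrix.one_mul, tr_sub, tr_conj hV]
    ring
  have h2 : hs (V * W' * Vᴴ - V * W * Vᴴ) = tr W - tr W' := by
    rw [← Matrix.sub_mul, ← Matrix.mul_sub, hs_conj hV, hs_sub_comm, hs_diff hW hW' h]
  have h3 : hs (W - V * W * Vᴴ) ≤ 2 * hs (W - V * W' * Vᴴ) + 2 * hs (V * W' * Vᴴ - V * W * Vᴴ) := by
    have := hs_add_le (W - V * W' * Vᴴ) (V * W' * Vᴴ - V * W * Vᴴ)
    rwa [sub_add_sub_cancel] at this
  rw [hs_comm_eq' hV]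
  linarith

/-- a projection of trace at most `d / 2` is far from the scalars -/
lemma scal {W : Mt d} (hW : IsPr W) (hd : 0 < d) (hT : tr W ≤ d / 2) (z : ℂ) :
    tr W ≤ 2 * hs (W - z • 1) := by
  have h1 := hs_pyth_right hW (W - z • 1)
  have e1 : (W - z • (1 : Mt d)) * W = (1 - z) • W := by
    rw [Matrix.sub_mul, hW.2, Matrix.smul_mul, Matrix.one_mul, sub_smul, one_smul]
  have e2 : (W - z • (1 : Mt d)) * (1 - W) = (-z) • (1 - W) := by
    rw [Matrix.mul_sub, e1, Matrix.mul_one, sub_smul, one_smul, neg_smul, smul_sub]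
    abel
  rw [e1, e2, hs_smul, hs_smul, ← pr_tr_eq_hs hW, ← pr_tr_eq_hs (pr_compl hW), tr_sub, tr_one,
    norm_neg] at h1
  have h2 : ‖1 - z‖ ^ 2 = 1 - 2 * z.re + ‖z‖ ^ 2 := by
    rw [← Complex.normSq_eq_norm_sq, ← Complex.normSq_eq_norm_sq, Complex.normSq_apply,
      Complex.normSq_apply]
    simp only [Complex.sub_re, Complex.one_re, Complex.sub_im, Complex.one_im]
    ring
  have h3 : z.re ^ 2 ≤ ‖z‖ ^ 2 := by
    rw [← Complex.normSq_eq_norm_sq, Complex.normSq_apply]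
    nlinarith [mul_self_nonneg z.im]
  have h4 := pr_tr_nonneg hW
  have hd' : (0 : ℝ) < d := by exact_mod_cast hd
  rw [h2] at h1
  have h5 : hs (W - z • 1) = tr W - 2 * z.re * tr W + ‖z‖ ^ 2 * d := by
    rw [h1]; ring
  have h6 : tr W - 2 * z.re * tr W + z.re ^ 2 * d ≤ hs (W - z • 1) := by
    rw [h5]
    nlinarith
  have h7 : 0 ≤ tr W / 2 - 2 * z.re * tr W + z.re ^ 2 * d := by
    have h8 : 0 ≤ (tr W / 2 - 2 * z.re * tr W + z.re ^ 2 * d) * d := by
      have : (tr W / 2 - 2 * z.re * tr W + z.re ^ 2 * d) * d =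
        (z.re * d - tr W) ^ 2 + tr W * (d / 2 - tr W) := by ring
      rw [this]
      have := mul_nonneg h4 (sub_nonneg.2 hT)
      positivity
    exact nonneg_of_mul_nonneg_left h8 hd'
  linarith

end HS7

/-- TARGET -/
theorem level_lemma {G : Type} [Group G] {𝒰 : Ultrafilter ℕ} (M : Mdl G 𝒰) {k : ℕ} (γ : Fin k → G)
    {K0 : ℝ} {ε : ℕ → ℝ} (hE : Erg M γ K0 ε) (P : Set G) (hP : Subgroup.closure P = ⊤) :
    ∃ C : ℝ, 0 ≤ C ∧ ∀ J : ℝ, 1 ≤ J → ∀ W W' : ∀ n, Mt (M.d n), (∀ n, IsPr (W n)) →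
      (∀ n, IsPr (W' n)) → (∀ n, W n * W' n = W' n) → (∀ n, tr (W n) ≤ M.d n / 2) →
      (∀ n, tr (W n) - tr (W' n) ≤ M.d n / J) →
      ((∀ v ∈ P, ∀ τ : ℝ, 0 < τ → ∀ᶠ n in (𝒰 : Filter ℕ),
          tr (W' n * (M.U v n * (1 - W n) * (M.U v n)ᴴ)) ≤ τ * M.d n) ∨
        (∀ v ∈ P, ∀ τ : ℝ, 0 < τ → ∀ᶠ n in (𝒰 : Filter ℕ),
          tr ((1 - W n) * (M.U v n * W' n * (M.U v n)ᴴ)) ≤ τ * M.d n)) →
      ∀ᶠ n in (𝒰 : Filter ℕ), tr (W n) ≤ C / J * M.d n := by
  have hgen : ∀ s : Fin k, γ s ∈ Subgroup.closure P := fun s => by rw [hP]; trivial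
  choose Cs hC0 hCs using fun s => gen_lin M P (γ s) (hgen s)
  have hS0 : 0 ≤ ∑ s, Cs s := Finset.sum_nonneg fun s _ => hC0 s
  refine ⟨2 * (5 * K0 * ∑ s, Cs s + 1), by have := mul_nonneg hE.K0pos hS0; nlinarith, ?_⟩
  intro J hJ W W' hW hW' hWW hT hD halt
  have hJ0 : 0 < J := by linarith
  have hcomm : ∀ v ∈ P, ∀ᶠ n in (𝒰 : Filter ℕ), ∀ x ∈ ({W n} : Set (Mt (M.d n))),
      hs (M.U v n * x - x * M.U v n) ≤ 5 / J * M.d n := by
    intro v hv
    have hτ : (0 : ℝ) < 1 / (4 * J) := by positivity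
    rcases halt with h | h
    · filter_upwards [h v hv _ hτ] with n hn x hx
      rw [Set.mem_singleton_iff] at hx
      rw [hx]
      have h1 := HS7.alt1 (M.un v n) (hW n) (hW' n) (hWW n)
      have h2 := hD n
      have e : 5 / J * (M.d n : ℝ) = 4 * (M.d n / J) + 4 * (1 / (4 * J) * M.d n) := by
        field_simp
        ring
      rw [e]
      linarith
    · filter_upwards [h v hv _ hτ] with n hn x hx
      rw [Set.mem_singleton_iff] at hx
      rw [hx]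
      have h1 := HS7.alt2 (M.un v n) (hW n) (hW' n) (hWW n)
      have h2 := hD n
      have e : 5 / J * (M.d n : ℝ) = 4 * (M.d n / J) + 4 * (1 / (4 * J) * M.d n) := by
        field_simp
        ring
      rw [e]
      linarith
  have h5 : (0 : ℝ) < 5 / J := by positivity
  have hall : ∀ᶠ n in (𝒰 : Filter ℕ), ∀ s : Fin k,
      hs (M.U (γ s) n * W n - W n * M.U (γ s) n) ≤ Cs s * (5 / J) * M.d n := by
    rw [Filter.eventually_all]
    intro s
    filter_upwards [hCs s (fun n => {W n}) (fun n x hx => by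
      rw [Set.mem_singleton_iff] at hx
      rw [hx]
      exact pr_sq_le_one (hW n)) _ h5 hcomm] with n hn
    exact hn _ rfl
  have hε : ∀ᶠ n in (𝒰 : Filter ℕ), ε n < 1 / J :=
    hE.lim.eventually_lt_const (by positivity)
  filter_upwards [hall, hE.near, hε] with n h1 h2 h3
  obtain ⟨z, hz⟩ := h2 (W n) (pr_sq_le_one (hW n))
  have h4 : M.e γ n (W n) ≤ (∑ s, Cs s) * (5 / J) * M.d n := by
    unfold Mdl.e en
    rw [Finset.sum_mul, Finset.sum_mul]
    exact Finset.sum_le_sum fun s _ => h1 s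
  have h6 := HS7.scal (hW n) (M.pos n) (hT n) z
  have h7 : K0 * M.e γ n (W n) ≤ K0 * ((∑ s, Cs s) * (5 / J) * M.d n) :=
    mul_le_mul_of_nonneg_left h4 hE.K0pos
  have hd : (0 : ℝ) ≤ M.d n := Nat.cast_nonneg _
  have h8 : ε n * M.d n ≤ 1 / J * M.d n := mul_le_mul_of_nonneg_right h3.le hd
  have e : 2 * (5 * K0 * ∑ s, Cs s + 1) / J * M.d n =
      2 * (K0 * ((∑ s, Cs s) * (5 / J) * M.d n) + 1 / J * M.d n) := by
    field_simp
  rw [e]
  linarith

end Helper418HL
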