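import Pool.Agent.Helper418_HL.HS6
import Pool.Agent.Helper418_HL.HS7
import Pool.Agent.Helper418_HL.HS4
import Pool.Agent.Helper418_HL.Defs

set_option autoImplicit false

namespace Helper418HL

open Matrix Filter Topology Pool.Agent.W661.RC Pool.Agent.W683.RC
open scoped ComplexOrder

/-! GIVEN (proved elsewhere) -/
section
variable {d : ℕ} {A : StarSubalgebra ℂ (Mt d)}

end

namespace HS8

/-- pigeonhole -/
lemma pigeon (T : ℕ → ℝ) (J : ℕ) (hJ : 0 < J) (c : ℝ) (h : T 0 - T J ≤ c) :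
    ∃ j < J, T j - T (j + 1) ≤ c / J := by
  by_contra hne
  push Not at hne
  have hJ' : (0 : ℝ) < J := by exact_mod_cast hJ
  have h1 : ∑ j ∈ Finset.range J, c / J < ∑ j ∈ Finset.range J, (T j - T (j + 1)) :=
    Finset.sum_lt_sum_of_nonempty (Finset.nonempty_range_iff.2 hJ.ne')
      fun j hj => hne j (Finset.mem_range.1 hj)
  rw [Finset.sum_range_sub', Finset.sum_const, Finset.card_range, nsmul_eq_mul,
    mul_div_cancel₀ _ hJ'.ne'] at h1
  linarith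

section
variable {d : ℕ} {A : StarSubalgebra ℂ (Mt d)}

/-- the spectral projections at a geometric sequence of levels -/
structure Lv (I : Idx A) (a : ℝ) where
  m : ℤ → ℝ
  P : ℤ → Mt d
  pos : ∀ i, 0 < m i
  geo : ∀ i, m (i + 1) = a * m i
  pr : ∀ i, IsPr (P i)
  mem : ∀ i, P i ∈ A
  com : ∀ i, ∀ x ∈ A, x * P i = P i * x
  mono : ∀ i j, i ≤ j → P i * P j = P j
  lo : ∀ i, Le ((m i : ℂ) • P i) (I.w * P i)
  hi : ∀ i, Le (I.w * (1 - P i)) ((m i : ℂ) • (1 - P i))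
  half : tr (P 0) ≤ d / 2
  half' : (d : ℝ) / 2 ≤ tr (P (-1))

lemma exists_Lv (hd : 0 < d) (I : Idx A) (a : ℝ) (ha : 1 < a) : Nonempty (Lv I a) := by
  classical
  have ha0 : 0 < a := by linarith
  obtain ⟨p, h1, h2, h3, h4, h5, h6, ⟨t0, ht0, hp0⟩, ⟨T, hT⟩⟩ :=
    spec_proj A I.w I.w_psd I.w_mem I.w_com ⟨I.r * I.r, I.rrw⟩
  have hd' : (0 : ℝ) < d := by exact_mod_cast hd
  have hex : ∃ j : ℕ, tr (p (t0 * a ^ (j + 1))) ≤ d / 2 := by
    obtain ⟨j, hj⟩ := pow_unbounded_of_one_lt (T / t0) ha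
    refine ⟨j, ?_⟩
    have : p (t0 * a ^ (j + 1)) = 0 := by
      apply hT
      have h7 : T / t0 ≤ a ^ (j + 1) := hj.le.trans (pow_le_pow_right₀ ha.le (Nat.le_succ j))
      rw [div_le_iff₀ ht0] at h7
      linarith
    rw [this, tr_zero]
    positivity
  let j0 := Nat.find hex
  have hj0 : tr (p (t0 * a ^ (j0 + 1))) ≤ d / 2 := Nat.find_spec hex
  have hj1 : (d : ℝ) / 2 ≤ tr (p (t0 * a ^ j0)) := by
    rcases Nat.eq_zero_or_pos j0 with h | h
    · rw [h, pow_zero, mul_one, hp0, tr_one]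
      linarith
    · have := Nat.find_min hex (m := j0 - 1) (by omega)
      have e : j0 - 1 + 1 = j0 := by omega
      rw [e] at this
      linarith
  have hm : ∀ i : ℤ, 0 < t0 * a ^ ((j0 : ℤ) + 1 + i) := fun i => mul_pos ht0 (zpow_pos ha0 _)
  refine ⟨⟨fun i => t0 * a ^ ((j0 : ℤ) + 1 + i), fun i => p (t0 * a ^ ((j0 : ℤ) + 1 + i)), hm,
    ?_, fun i => h1 _, fun i => h2 _, fun i => h3 _, ?_, fun i => h5 _, fun i => h6 _, ?_, ?_⟩⟩
  · intro i
    have e : (j0 : ℤ) + 1 + (i + 1) = ((j0 : ℤ) + 1 + i) + 1 := by ring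
    simp only [e]
    rw [zpow_add_one₀ ha0.ne']
    ring
  · intro i j hij
    apply h4
    have := zpow_le_zpow_right₀ ha.le (show (j0 : ℤ) + 1 + i ≤ (j0 : ℤ) + 1 + j by omega)
    exact mul_le_mul_of_nonneg_left this ht0.le
  · have e : (j0 : ℤ) + 1 + 0 = ((j0 + 1 : ℕ) : ℤ) := by push_cast; ring
    simp only [e, zpow_natCast]
    exact hj0
  · have e : (j0 : ℤ) + 1 + (-1) = ((j0 : ℕ) : ℤ) := by ring
    simp only [e, zpow_natCast]
    exact hj1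

variable {a : ℝ} {I : Idx A}

lemma Lv.mono' (L : Lv I a) {i j : ℤ} (h : i ≤ j) : L.P j * L.P i = L.P j :=
  pr_mul_symm (L.pr j) (L.pr i) (L.mono i j h)

lemma Lv.le (L : Lv I a) {i j : ℤ} (h : i ≤ j) : Le (L.P j) (L.P i) :=
  pr_le (L.pr j) (L.pr i) (L.mono i j h)

lemma Lv.tr_le (L : Lv I a) {i j : ℤ} (h : i ≤ j) : tr (L.P j) ≤ tr (L.P i) :=
  Le_tr (L.le h)

lemma Lv.geo' (L : Lv I a) (i : ℤ) (k : ℕ) : L.m (i + k) = a ^ k * L.m i := by
  induction k with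
  | zero => simp
  | succ k ih =>
    have e : i + ((k + 1 : ℕ) : ℤ) = (i + k) + 1 := by push_cast; ring
    rw [e, L.geo, ih, pow_succ]
    ring

/-- multiplication by `r` on both sides -/
lemma conj_r (I : Idx A) {x y : Mt d} (hx : x ∈ A) (hy : y ∈ A) (h : Le x y) :
    Le (I.r * I.r * x) (I.r * I.r * y) := by
  have h1 := Le_conj h I.r
  have hr : (I.r)ᴴ = I.r := I.r_psd.1
  rw [hr] at h1
  have e1 : I.r * x * I.r = I.r * I.r * x := by
    rw [Matrix.mul_assoc, I.r_com x hx, Matrix.mul_assoc]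
  have e2 : I.r * y * I.r = I.r * I.r * y := by
    rw [Matrix.mul_assoc, I.r_com y hy, Matrix.mul_assoc]
  rw [e1, e2] at h1
  exact h1

lemma smul_mem' {x : Mt d} (hx : x ∈ A) (c : ℂ) : c • x ∈ A := A.smul_mem hx c

lemma rr_le (I : Idx A) {e : Mt d} (he : e ∈ A) {μ : ℝ} (hμ : 0 < μ)
    (h : Le ((μ : ℂ) • e) (I.w * e)) : Le (I.r * I.r * e) (((μ⁻¹ : ℝ) : ℂ) • e) := by
  have h1 := conj_r I (smul_mem' he _) (A.mul_mem I.w_mem he) h
  rw [← Matrix.mul_assoc, I.rrw, Matrix.one_mul, Matrix.mul_smul] at h1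
  have h2 := Le_smul h1 (c := μ⁻¹) (by positivity)
  rw [smul_smul, ← Complex.ofReal_mul, inv_mul_cancel₀ hμ.ne', Complex.ofReal_one, one_smul] at h2
  exact h2

lemma le_rr (I : Idx A) {e : Mt d} (he : e ∈ A) {μ : ℝ}
    (h : Le (I.w * e) ((μ : ℂ) • e)) : Le e ((μ : ℂ) • (I.r * I.r * e)) := by
  have h1 := conj_r I (A.mul_mem I.w_mem he) (smul_mem' he _) h
  rw [← Matrix.mul_assoc, I.rrw, Matrix.one_mul, Matrix.mul_smul] at h1
  exact h1

lemma one_sub_mem {x : Mt d} (hx : x ∈ A) : 1 - x ∈ A := A.sub_mem A.one_mem hx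

lemma com_one_sub {x : Mt d} (hx : ∀ y ∈ A, y * x = x * y) : ∀ y ∈ A, y * (1 - x) = (1 - x) * y := by
  intro y hy
  rw [Matrix.mul_sub, Matrix.sub_mul, hx y hy, Matrix.mul_one, Matrix.one_mul]

/-- comparison of two consecutive levels -/
lemma Lv.cmp (L : Lv I a) (V : Mt d) (hV : Vᴴ * V = 1) (δ : ℝ)
    (hinc : ∀ b ∈ A, Le (bᴴ * b) 1 → ∃ b' ∈ A, hs (b - V * b' * Vᴴ) ≤ δ * d) (i : ℤ) :
    (1 - a⁻¹) * tr (L.P (i + 1) * (V * (1 - L.P i) * Vᴴ)) ≤ δ * d := by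
  have h := compare I V hV δ hinc (L.P (i + 1)) (1 - L.P i) (L.pr _) (L.mem _) (L.com _)
    (pr_compl (L.pr i)) (one_sub_mem (L.mem i)) (com_one_sub (L.com i)) (L.m (i + 1))⁻¹ (L.m i)
    (inv_nonneg.2 (L.pos _).le) (L.pos i).le (rr_le I (L.mem _) (L.pos _) (L.lo _)) (L.hi i)
  have e : (L.m (i + 1))⁻¹ * L.m i = a⁻¹ := by
    rw [L.geo, mul_inv, mul_assoc, inv_mul_cancel₀ (L.pos i).ne', mul_one]
  rwa [e] at h

/-- the projection between two levels -/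
lemma Lv.q_props (L : Lv I a) {i j : ℤ} (hij : i ≤ j) :
    IsPr (L.P i - L.P j) ∧ (L.P i - L.P j) ∈ A ∧
    (∀ x ∈ A, x * (L.P i - L.P j) = (L.P i - L.P j) * x) ∧
    Le (I.r * I.r * (L.P i - L.P j)) ((((L.m i)⁻¹ : ℝ) : ℂ) • (L.P i - L.P j)) ∧
    Le (L.P i - L.P j) ((L.m j : ℂ) • (I.r * I.r * (L.P i - L.P j))) := by
  have hpr : IsPr (L.P i - L.P j) := pr_sub (L.pr j) (L.pr i) (L.mono i j hij)
  have hmem : (L.P i - L.P j) ∈ A := A.sub_mem (L.mem i) (L.mem j)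
  have hq1 : L.P i * (L.P i - L.P j) = L.P i - L.P j := by
    rw [Matrix.mul_sub, (L.pr i).2, L.mono i j hij]
  have hq2 : (1 - L.P j) * (L.P i - L.P j) = L.P i - L.P j := by
    rw [Matrix.sub_mul, Matrix.one_mul, Matrix.mul_sub, L.mono' hij, (L.pr j).2, sub_self, sub_zero]
  have hwq : I.w * (L.P i - L.P j) = (L.P i - L.P j) * I.w := (I.w_com _ hmem).symm
  refine ⟨hpr, hmem, ?_, rr_le I hmem (L.pos i) ?_, le_rr I hmem ?_⟩
  · intro x hx
    rw [Matrix.mul_sub, Matrix.sub_mul, L.com i x hx, L.com j x hx]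
  · have h := Le_conj (L.lo i) (L.P i - L.P j)
    rw [hpr.1] at h
    have e1 : (L.P i - L.P j) * ((L.m i : ℂ) • L.P i) * (L.P i - L.P j) =
        (L.m i : ℂ) • (L.P i - L.P j) := by
      rw [Matrix.mul_smul, Matrix.smul_mul, Matrix.mul_assoc, hq1, hpr.2]
    have e2 : (L.P i - L.P j) * (I.w * L.P i) * (L.P i - L.P j) = I.w * (L.P i - L.P j) := by
      rw [Matrix.mul_assoc, Matrix.mul_assoc, hq1, ← Matrix.mul_assoc, ← hwq, Matrix.mul_assoc,
        hpr.2]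
    rwa [e1, e2] at h
  · have h := Le_conj (L.hi j) (L.P i - L.P j)
    rw [hpr.1] at h
    have e1 : (L.P i - L.P j) * ((L.m j : ℂ) • (1 - L.P j)) * (L.P i - L.P j) =
        (L.m j : ℂ) • (L.P i - L.P j) := by
      rw [Matrix.mul_smul, Matrix.smul_mul, Matrix.mul_assoc, hq2, hpr.2]
    have e2 : (L.P i - L.P j) * (I.w * (1 - L.P j)) * (L.P i - L.P j) = I.w * (L.P i - L.P j) := by
      rw [Matrix.mul_assoc, Matrix.mul_assoc, hq2, ← Matrix.mul_assoc, ← hwq, Matrix.mul_assoc,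
        hpr.2]
    rwa [e1, e2] at h

end

end HS8

open HS8

/-- TARGET -/
theorem level_thm {G : Type} [Group G] {𝒰 : Ultrafilter ℕ} (M : Mdl G 𝒰) {k : ℕ} (γ : Fin k → G)
    {K0 : ℝ} {ε : ℕ → ℝ} (hE : Erg M γ K0 ε) (P : Set G) (hP : Subgroup.closure P = ⊤)
    (B : ∀ n, StarSubalgebra ℂ (Mt (M.d n))) (I : ∀ n, Idx (B n))
    (hinc : ∀ v ∈ P, ∀ τ : ℝ, 0 < τ → ∀ᶠ n in (𝒰 : Filter ℕ), ∀ b ∈ B n, Le (bᴴ * b) 1 →
      ∃ b' ∈ B n, hs (b - M.U v n * b' * (M.U v n)ᴴ) ≤ τ * M.d n)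
    (ℓ : ℝ) (hℓ : 1 < ℓ) (τ : ℝ) (hτ : 0 < τ) :
    ∃ (q : ∀ n, Mt (M.d n)) (s t : ℕ → ℝ), (∀ n, IsPr (q n)) ∧ (∀ n, q n ∈ B n) ∧
      (∀ n, ∀ x ∈ B n, x * q n = q n * x) ∧ (∀ n, 0 < s n ∧ 0 < t n ∧ s n * t n ≤ ℓ) ∧
      (∀ n, Le ((I n).r * (I n).r * q n) ((s n : ℂ) • q n)) ∧
      (∀ n, Le (q n) ((t n : ℂ) • ((I n).r * (I n).r * q n))) ∧
      ∀ᶠ n in (𝒰 : Filter ℕ), (1 - τ) * M.d n ≤ tr (q n) := by
  obtain ⟨C, hC0, hC⟩ := level_lemma M γ hE P hP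
  -- the choice of `J` and `a`
  obtain ⟨J, hJ1, hJ2⟩ : ∃ J : ℕ, 0 < J ∧ 2 * C / J ≤ τ := by
    obtain ⟨J, hJ⟩ := exists_nat_ge (2 * C / τ)
    refine ⟨J + 1, Nat.succ_pos _, ?_⟩
    have hJ0 : (0 : ℝ) < ((J + 1 : ℕ) : ℝ) := by positivity
    rw [div_le_iff₀ hJ0]
    rw [div_le_iff₀ hτ] at hJ
    push_cast
    nlinarith
  obtain ⟨a, ha, haℓ⟩ : ∃ a : ℝ, 1 < a ∧ a ^ (2 * J + 1) ≤ ℓ := by
    refine ⟨ℓ ^ (((2 * J + 1 : ℕ) : ℝ)⁻¹), Real.one_lt_rpow hℓ (by positivity), ?_⟩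
    rw [Real.rpow_inv_natCast_pow (by linarith) (by omega)]
  have hJr : (1 : ℝ) ≤ J := by exact_mod_cast hJ1
  have hJr0 : (0 : ℝ) < J := by linarith
  have ha0 : 0 < a := by linarith
  have hai : 0 < 1 - a⁻¹ := by
    have := inv_lt_one_of_one_lt₀ ha
    linarith
  have hL : ∀ n, Nonempty (Lv (I n) a) := fun n => exists_Lv (M.pos n) (I n) a ha
  obtain ⟨L⟩ : Nonempty (∀ n, Lv (I n) a) := ⟨fun n => Classical.choice (hL n)⟩
  have hd0 : ∀ n, (0 : ℝ) < M.d n := fun n => by exact_mod_cast M.pos n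
  -- comparison of two consecutive levels
  have hcmp : ∀ v ∈ P, ∀ τ' : ℝ, 0 < τ' → ∀ᶠ n in (𝒰 : Filter ℕ), ∀ i : ℤ,
      tr ((L n).P (i + 1) * (M.U v n * (1 - (L n).P i) * (M.U v n)ᴴ)) ≤ τ' * M.d n := by
    intro v hv τ' hτ'
    filter_upwards [hinc v hv ((1 - a⁻¹) * τ') (by positivity)] with n hn i
    have h1 := (L n).cmp (M.U v n) (M.un v n) _ hn i
    exact le_of_mul_le_mul_left (h1.trans (le_of_eq (mul_assoc _ _ _))) hai
  -- upper half
  have hup : ∀ᶠ n in (𝒰 : Filter ℕ), tr ((L n).P J) ≤ C / J * M.d n := by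
    have hj : ∀ n, ∃ j : ℕ, j < J ∧ tr ((L n).P j) - tr ((L n).P (j + 1)) ≤ M.d n / J := by
      intro n
      obtain ⟨j, hj, hj2⟩ := pigeon (fun j : ℕ => tr ((L n).P j)) J hJ1 (M.d n) (by
        have h1 := (L n).half
        have h2 := pr_tr_nonneg ((L n).pr (J : ℤ))
        have h3 := hd0 n
        simp only [Nat.cast_zero]
        linarith)
      refine ⟨j, hj, ?_⟩
      simpa using hj2
    choose j hjJ hj2 using hj
    have h := hC J hJr (fun n => (L n).P (j n)) (fun n => (L n).P (j n + 1)) (fun n => (L n).pr _)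
      (fun n => (L n).pr _) (fun n => (L n).mono _ _ (by omega))
      (fun n => ((L n).tr_le (by omega)).trans (L n).half) hj2
      (Or.inl fun v hv τ' hτ' => by
        filter_upwards [hcmp v hv τ' hτ'] with n hn
        exact hn _)
    filter_upwards [h] with n hn
    exact ((L n).tr_le (by have := hjJ n; omega)).trans hn
  -- lower half
  have hdn : ∀ᶠ n in (𝒰 : Filter ℕ), tr (1 - (L n).P (-1 - J)) ≤ C / J * M.d n := by
    have hj : ∀ n, ∃ j : ℕ, j < J ∧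
        tr (1 - (L n).P (-1 - j)) - tr (1 - (L n).P (-2 - j)) ≤ M.d n / J := by
      intro n
      obtain ⟨j, hj, hj2⟩ := pigeon (fun j : ℕ => tr (1 - (L n).P (-1 - j))) J hJ1 (M.d n) (by
        have h1 := (L n).half'
        have h2 := pr_tr_nonneg (pr_compl ((L n).pr (-1 - (J : ℤ))))
        have h3 := hd0 n
        simp only [Nat.cast_zero, sub_zero]
        rw [tr_sub 1 ((L n).P (-1)), tr_one]
        linarith)
      refine ⟨j, hj, ?_⟩
      have e : (-1 : ℤ) - ((j + 1 : ℕ) : ℤ) = -2 - j := by push_cast; ring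
      simp only [e] at hj2
      exact hj2
    choose j hjJ hj2 using hj
    have h := hC J hJr (fun n => 1 - (L n).P (-1 - j n)) (fun n => 1 - (L n).P (-2 - j n))
      (fun n => pr_compl ((L n).pr _)) (fun n => pr_compl ((L n).pr _))
      (fun n => by
        have h1 := (L n).mono' (show (-2 : ℤ) - j n ≤ -1 - j n by omega)
        rw [Matrix.sub_mul, Matrix.one_mul, Matrix.mul_sub, h1, Matrix.mul_one, sub_self, sub_zero])
      (fun n => by
        have h1 := (L n).half'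
        have h2 := (L n).tr_le (show (-1 : ℤ) - j n ≤ -1 by omega)
        rw [tr_sub, tr_one]
        linarith) hj2
      (Or.inr fun v hv τ' hτ' => by
        filter_upwards [hcmp v hv τ' hτ'] with n hn
        have h1 := hn (-2 - j n)
        have e : (-2 : ℤ) - (j n : ℤ) + 1 = -1 - j n := by ring
        rw [e] at h1
        rw [sub_sub_cancel]
        exact h1)
    filter_upwards [h] with n hn
    have h1 := (L n).tr_le (show (-1 : ℤ) - J ≤ -1 - j n by have := hjJ n; omega)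
    rw [tr_sub] at hn ⊢
    linarith
  have hij : (-1 : ℤ) - J ≤ J := by omega
  refine ⟨fun n => (L n).P (-1 - J) - (L n).P J, fun n => ((L n).m (-1 - J))⁻¹,
    fun n => (L n).m J, fun n => ((L n).q_props hij).1, fun n => ((L n).q_props hij).2.1,
    fun n => ((L n).q_props hij).2.2.1, fun n => ⟨inv_pos.2 ((L n).pos _), (L n).pos _, ?_⟩,
    fun n => ((L n).q_props hij).2.2.2.1, fun n => ((L n).q_props hij).2.2.2.2, ?_⟩
  · have e : (J : ℤ) = (-1 - J) + ((2 * J + 1 : ℕ) : ℤ) := by push_cast; ring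
    have h1 : (L n).m J = a ^ (2 * J + 1) * (L n).m (-1 - J) := by
      rw [← (L n).geo', ← e]
    change ((L n).m (-1 - J))⁻¹ * (L n).m J ≤ ℓ
    rw [h1, mul_comm, mul_assoc, mul_inv_cancel₀ ((L n).pos _).ne', mul_one]
    exact haℓ
  · filter_upwards [hup, hdn] with n h1 h2
    rw [tr_sub, tr_one] at h2
    rw [tr_sub]
    have h3 : 2 * (C / J * M.d n) ≤ τ * M.d n := by
      have : 2 * (C / J * M.d n) = 2 * C / J * M.d n := by ring
      rw [this]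
      exact mul_le_mul_of_nonneg_right hJ2 (hd0 n).le
    linarith

end Helper418HL
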