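import Pool.Agent.Helper418_HL.HG
import Pool.Agent.Helper418_HL.Defs

set_option autoImplicit false

namespace Helper418HL

open Matrix Filter Topology Pool.Agent.W661.RC Pool.Agent.W683.RC
open scoped ComplexOrder

/-! GIVEN (proved elsewhere) -/
namespace HS9

theorem dpos {G : Type} [Group G] {𝒰 : Ultrafilter ℕ} (M : Mdl G 𝒰) (n : ℕ) :
    (0 : ℝ) < M.d n := by
  exact_mod_cast M.pos n

/-- `U 1` is asymptotically `1` -/
theorem one_lim {G : Type} [Group G] {𝒰 : Ultrafilter ℕ} (M : Mdl G 𝒰) :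
    Tendsto (fun n => hs (M.U 1 n - 1) / M.d n) 𝒰 (𝓝 0) := by
  have h := M.mul 1 1
  refine h.congr fun n => ?_
  have e : M.U (1 * 1) n - M.U 1 n * M.U 1 n = (1 - M.U 1 n) * M.U 1 n := by
    rw [mul_one, Matrix.sub_mul, Matrix.one_mul]
  rw [e, hs_mul_unit (M.un 1 n), hs_sub_comm]

/-- `U v⁻¹` is asymptotically `(U v)ᴴ` -/
theorem inv_lim {G : Type} [Group G] {𝒰 : Ultrafilter ℕ} (M : Mdl G 𝒰) (v : G) :
    Tendsto (fun n => hs (M.U v⁻¹ n - (M.U v n)ᴴ) / M.d n) 𝒰 (𝓝 0) := by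
  have h1 := M.mul v⁻¹ v
  have h2 := one_lim M
  have h3 : Tendsto (fun n => 2 * (hs (M.U (v⁻¹ * v) n - M.U v⁻¹ n * M.U v n) / M.d n) +
      2 * (hs (M.U 1 n - 1) / M.d n)) 𝒰 (𝓝 0) := by
    simpa using (h1.const_mul 2).add (h2.const_mul 2)
  refine squeeze_zero (fun n => div_nonneg (hs_nonneg _) (dpos M n).le) (fun n => ?_) h3
  have e : hs (M.U v⁻¹ n - (M.U v n)ᴴ) = hs (M.U v⁻¹ n * M.U v n - 1) := by
    rw [← hs_mul_unit (M.un v n) (M.U v⁻¹ n - (M.U v n)ᴴ), Matrix.sub_mul, M.un v n]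
  have e2 : M.U v⁻¹ n * M.U v n - 1 =
      (M.U 1 n - 1) - (M.U (v⁻¹ * v) n - M.U v⁻¹ n * M.U v n) := by
    rw [inv_mul_cancel]; abel
  have e3 := hs_sub_le (M.U 1 n - 1) (M.U (v⁻¹ * v) n - M.U v⁻¹ n * M.U v n)
  rw [← e2, ← e] at e3
  have hd := dpos M n
  rw [← mul_div_assoc, ← mul_div_assoc, ← add_div]
  exact div_le_div_of_nonneg_right (by linarith) hd.le

/-- `U (v κ v⁻¹)` is asymptotically `U v U κ (U v)ᴴ` -/
theorem conj_lim {G : Type} [Group G] {𝒰 : Ultrafilter ℕ} (M : Mdl G 𝒰) (v κ : G) :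
    Tendsto (fun n => hs (M.U (v * κ * v⁻¹) n - M.U v n * M.U κ n * (M.U v n)ᴴ) / M.d n)
      𝒰 (𝓝 0) := by
  have h1 := M.mul (v * κ) v⁻¹
  have h2 := M.mul v κ
  have h3 := inv_lim M v
  have h4 : Tendsto (fun n =>
      3 * (hs (M.U (v * κ * v⁻¹) n - M.U (v * κ) n * M.U v⁻¹ n) / M.d n) +
      3 * (hs (M.U (v * κ) n - M.U v n * M.U κ n) / M.d n) +
      3 * (hs (M.U v⁻¹ n - (M.U v n)ᴴ) / M.d n)) 𝒰 (𝓝 0) := by
    simpa using ((h1.const_mul 3).add (h2.const_mul 3)).add (h3.const_mul 3)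
  refine squeeze_zero (fun n => div_nonneg (hs_nonneg _) (dpos M n).le) (fun n => ?_) h4
  have e : M.U (v * κ * v⁻¹) n - M.U v n * M.U κ n * (M.U v n)ᴴ =
      (M.U (v * κ * v⁻¹) n - M.U (v * κ) n * M.U v⁻¹ n) +
      (M.U (v * κ) n - M.U v n * M.U κ n) * M.U v⁻¹ n +
      M.U v n * (M.U κ n * (M.U v⁻¹ n - (M.U v n)ᴴ)) := by
    rw [Matrix.sub_mul, Matrix.mul_sub, Matrix.mul_sub]
    simp only [Matrix.mul_assoc]
    abel
  have e3 := hs_add3_le (M.U (v * κ * v⁻¹) n - M.U (v * κ) n * M.U v⁻¹ n)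
    ((M.U (v * κ) n - M.U v n * M.U κ n) * M.U v⁻¹ n)
    (M.U v n * (M.U κ n * (M.U v⁻¹ n - (M.U v n)ᴴ)))
  rw [← e, hs_mul_unit (M.un v⁻¹ n), hs_unit_mul (M.un v n), hs_unit_mul (M.un κ n)] at e3
  have hd := dpos M n
  rw [← mul_div_assoc, ← mul_div_assoc, ← mul_div_assoc, ← add_div, ← add_div]
  exact div_le_div_of_nonneg_right e3 hd.le

theorem comm_est {d : ℕ} {V K A y : Mt d} (hV : Vᴴ * V = 1) (hy : Le (yᴴ * y) 1) :
    hs (K * (Vᴴ * y * V) - (Vᴴ * y * V) * K) ≤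
      2 * hs (A * y - y * A) + 8 * hs (A - V * K * Vᴴ) := by
  have hV' := unit_symm hV
  have e1 : hs (K * (Vᴴ * y * V) - (Vᴴ * y * V) * K) =
      hs (V * (K * (Vᴴ * y * V) - (Vᴴ * y * V) * K) * Vᴴ) := by
    rw [hs_mul_unit (unit_conj hV), hs_unit_mul hV]
  have e2 : V * (K * (Vᴴ * y * V) - (Vᴴ * y * V) * K) * Vᴴ =
      (A * y - y * A) - ((A - V * K * Vᴴ) * y - y * (A - V * K * Vᴴ)) := by
    have e3 : V * (K * (Vᴴ * y * V)) * Vᴴ = V * K * Vᴴ * y := by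
      calc V * (K * (Vᴴ * y * V)) * Vᴴ = V * K * Vᴴ * y * (V * Vᴴ) := by
            simp only [Matrix.mul_assoc]
        _ = V * K * Vᴴ * y := by rw [hV', Matrix.mul_one]
    have e4 : V * (Vᴴ * y * V * K) * Vᴴ = y * (V * K * Vᴴ) := by
      calc V * (Vᴴ * y * V * K) * Vᴴ = (V * Vᴴ) * y * (V * K * Vᴴ) := by
            simp only [Matrix.mul_assoc]
        _ = y * (V * K * Vᴴ) := by rw [hV', Matrix.one_mul]
    rw [Matrix.mul_sub, Matrix.sub_mul, e3, e4, Matrix.sub_mul, Matrix.mul_sub]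
    abel
  have h1 := hs_sub_le (A * y - y * A) ((A - V * K * Vᴴ) * y - y * (A - V * K * Vᴴ))
  have h2 := hs_sub_le ((A - V * K * Vᴴ) * y) (y * (A - V * K * Vᴴ))
  have h3 := hs_mul_le hy (A - V * K * Vᴴ)
  have h4 := hs_mul_le_right hy (A - V * K * Vᴴ)
  rw [e1, e2]
  linarith

theorem core {G : Type} [Group G] {𝒰 : Ultrafilter ℕ} (M : Mdl G 𝒰) {l : ℕ} (κ : Fin l → G)
    {B : ∀ n, StarSubalgebra ℂ (Mt (M.d n))} {K1 : ℝ} {ε1 : ℕ → ℝ} (hB : Ctl M κ B K1 ε1) (v : G)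
    (t : ℝ) (ht : 0 < t) :
    ∀ᶠ n in (𝒰 : Filter ℕ), ∀ C : ℝ, ∀ y : Mt (M.d n), Le (yᴴ * y) 1 →
      ∑ j, hs (M.U (v * κ j * v⁻¹) n * y - y * M.U (v * κ j * v⁻¹) n) ≤ C * t * M.d n →
      ∃ b ∈ B n, Le (bᴴ * b) 1 ∧
        hs (y - M.U v n * b * (M.U v n)ᴴ) ≤ (K1 * (2 * C + 8) + 1) * t * M.d n := by
  have h2 : Tendsto (fun n => ∑ j,
      hs (M.U (v * κ j * v⁻¹) n - M.U v n * M.U (κ j) n * (M.U v n)ᴴ) / M.d n) 𝒰 (𝓝 0) := by
    have := tendsto_finsetSum (Finset.univ : Finset (Fin l))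
      (fun j _ => conj_lim M v (κ j))
    simpa using this
  have h2' := h2.eventually (ge_mem_nhds ht)
  have h3' := hB.lim.eventually (ge_mem_nhds ht)
  filter_upwards [hB.near, h2', h3'] with n h1 h2 h3
  intro C y hy hC
  have hd := dpos M n
  have hV := M.un v n
  have hV' := unit_symm hV
  have hcon : Le (((M.U v n)ᴴ * y * M.U v n)ᴴ * ((M.U v n)ᴴ * y * M.U v n)) 1 := by
    have := Le_conj hy (M.U v n)
    rw [Matrix.mul_one, hV] at this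
    have e : ((M.U v n)ᴴ * y * M.U v n)ᴴ * ((M.U v n)ᴴ * y * M.U v n) =
        (M.U v n)ᴴ * (yᴴ * y) * M.U v n := by
      calc ((M.U v n)ᴴ * y * M.U v n)ᴴ * ((M.U v n)ᴴ * y * M.U v n)
          = (M.U v n)ᴴ * yᴴ * (M.U v n * (M.U v n)ᴴ) * y * M.U v n := by
            rw [Matrix.conjTranspose_mul, Matrix.conjTranspose_mul,
              Matrix.conjTranspose_conjTranspose]
            simp only [Matrix.mul_assoc]
        _ = (M.U v n)ᴴ * (yᴴ * y) * M.U v n := by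
            rw [hV', Matrix.mul_one]
            simp only [Matrix.mul_assoc]
    rw [e]
    exact this
  obtain ⟨b, hb, hbc, hbh⟩ := h1 _ hcon
  refine ⟨b, hb, hbc, ?_⟩
  have e1 : hs (y - M.U v n * b * (M.U v n)ᴴ) = hs ((M.U v n)ᴴ * y * M.U v n - b) := by
    rw [← hs_mul_unit hV (y - M.U v n * b * (M.U v n)ᴴ),
      ← hs_unit_mul (unit_conj hV) ((y - M.U v n * b * (M.U v n)ᴴ) * M.U v n)]
    congr 1
    calc (M.U v n)ᴴ * ((y - M.U v n * b * (M.U v n)ᴴ) * M.U v n)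
        = (M.U v n)ᴴ * y * M.U v n -
          ((M.U v n)ᴴ * M.U v n) * b * ((M.U v n)ᴴ * M.U v n) := by
          rw [Matrix.sub_mul, Matrix.mul_sub]
          simp only [Matrix.mul_assoc]
      _ = (M.U v n)ᴴ * y * M.U v n - b := by rw [hV, Matrix.one_mul, Matrix.mul_one]
  rw [e1]
  refine hbh.trans ?_
  have h4 : M.e κ n ((M.U v n)ᴴ * y * M.U v n) ≤ (2 * C + 8) * t * M.d n := by
    have h5 : M.e κ n ((M.U v n)ᴴ * y * M.U v n) ≤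
        ∑ j, (2 * hs (M.U (v * κ j * v⁻¹) n * y - y * M.U (v * κ j * v⁻¹) n) +
          8 * hs (M.U (v * κ j * v⁻¹) n - M.U v n * M.U (κ j) n * (M.U v n)ᴴ)) := by
      unfold Mdl.e en
      exact Finset.sum_le_sum fun j _ => comm_est hV hy
    have h6 : ∑ j, hs (M.U (v * κ j * v⁻¹) n - M.U v n * M.U (κ j) n * (M.U v n)ᴴ) ≤
        t * M.d n := by
      rw [← Finset.sum_div, div_le_iff₀ hd] at h2
      exact h2
    rw [Finset.sum_add_distrib, ← Finset.mul_sum, ← Finset.mul_sum] at h5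
    nlinarith
  have h7 : ε1 n * M.d n ≤ t * M.d n := mul_le_mul_of_nonneg_right h3 hd.le
  have h8 := mul_le_mul_of_nonneg_left h4 hB.K0pos
  calc K1 * M.e κ n ((M.U v n)ᴴ * y * M.U v n) + ε1 n * M.d n
      ≤ K1 * ((2 * C + 8) * t * M.d n) + t * M.d n := add_le_add h8 h7
    _ = (K1 * (2 * C + 8) + 1) * t * M.d n := by ring

end HS9

/-! TARGETS -/
theorem incl {G : Type} [Group G] {𝒰 : Ultrafilter ℕ} (M : Mdl G 𝒰) {l : ℕ} (κ : Fin l → G)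
    {B : ∀ n, StarSubalgebra ℂ (Mt (M.d n))} {K1 : ℝ} {ε1 : ℕ → ℝ} (hB : Ctl M κ B K1 ε1) (v : G)
    (hv : ∀ j, v * κ j * v⁻¹ ∈ Subgroup.closure (Set.range κ)) (τ : ℝ) (hτ : 0 < τ) :
    ∀ᶠ n in (𝒰 : Filter ℕ), ∀ b ∈ B n, Le (bᴴ * b) 1 →
      ∃ b' ∈ B n, hs (b - M.U v n * b' * (M.U v n)ᴴ) ≤ τ * M.d n := by
  have hK := hB.K0pos
  choose C hC0 hC using fun j => gen_lin M (Set.range κ) (v * κ j * v⁻¹) (hv j)
  have hC1 : 0 ≤ ∑ j, C j := Finset.sum_nonneg fun j _ => hC0 j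
  have hden : 0 < K1 * (2 * (∑ j, C j) + 8) + 1 := by positivity
  have ht : 0 < τ / (K1 * (2 * (∑ j, C j) + 8) + 1) := div_pos hτ hden
  have h1 : ∀ i, ∀ᶠ n in (𝒰 : Filter ℕ), ∀ x ∈ {b : Mt (M.d n) | b ∈ B n ∧ Le (bᴴ * b) 1},
      hs (M.U (κ i) n * x - x * M.U (κ i) n) ≤
        τ / (K1 * (2 * (∑ j, C j) + 8) + 1) * M.d n := by
    intro i
    filter_upwards [hB.com, hB.lim.eventually (ge_mem_nhds ht)] with n h2 h3
    rintro x ⟨hx1, hx2⟩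
    have h4 := h2 x hx1 hx2
    have h5 : hs (M.U (κ i) n * x - x * M.U (κ i) n) ≤ M.e κ n x := by
      unfold Mdl.e en
      exact Finset.single_le_sum (f := fun s => hs (M.U (κ s) n * x - x * M.U (κ s) n))
        (fun j _ => hs_nonneg _) (Finset.mem_univ i)
    exact (h5.trans h4).trans (mul_le_mul_of_nonneg_right h3 (HS9.dpos M n).le)
  have h2 : ∀ j, ∀ᶠ n in (𝒰 : Filter ℕ), ∀ x ∈ {b : Mt (M.d n) | b ∈ B n ∧ Le (bᴴ * b) 1},
      hs (M.U (v * κ j * v⁻¹) n * x - x * M.U (v * κ j * v⁻¹) n) ≤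
        C j * (τ / (K1 * (2 * (∑ j, C j) + 8) + 1)) * M.d n := by
    intro j
    refine hC j (fun n => {b : Mt (M.d n) | b ∈ B n ∧ Le (bᴴ * b) 1})
      (fun n x hx => hx.2) _ ht ?_
    rintro w ⟨i, rfl⟩
    exact h1 i
  filter_upwards [HS9.core M κ hB v _ ht, Filter.eventually_all.2 h2] with n h3 h4
  intro b hb hbc
  obtain ⟨b', hb', -, h5⟩ := h3 (∑ j, C j) b hbc (by
    rw [Finset.sum_mul, Finset.sum_mul]
    exact Finset.sum_le_sum fun j _ => h4 j b ⟨hb, hbc⟩)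
  refine ⟨b', hb', h5.trans (le_of_eq ?_)⟩
  rw [mul_div_cancel₀ _ hden.ne']

theorem pull {G : Type} [Group G] {𝒰 : Ultrafilter ℕ} (M : Mdl G 𝒰) {l : ℕ} (κ : Fin l → G)
    {B : ∀ n, StarSubalgebra ℂ (Mt (M.d n))} {K1 : ℝ} {ε1 : ℕ → ℝ} (hB : Ctl M κ B K1 ε1) (v : G)
    (x : ∀ n, Mt (M.d n)) (hx : ∀ n, Le ((x n)ᴴ * x n) 1)
    (hcom : ∀ j, ∀ τ : ℝ, 0 < τ → ∀ᶠ n in (𝒰 : Filter ℕ),
      hs (M.U (v * κ j * v⁻¹) n * x n - x n * M.U (v * κ j * v⁻¹) n) ≤ τ * M.d n)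
    (τ : ℝ) (hτ : 0 < τ) :
    ∀ᶠ n in (𝒰 : Filter ℕ), ∃ b ∈ B n, Le (bᴴ * b) 1 ∧
      hs (x n - M.U v n * b * (M.U v n)ᴴ) ≤ τ * M.d n := by
  have hK := hB.K0pos
  have hden : 0 < K1 * (2 * (l : ℝ) + 8) + 1 := by positivity
  have ht : 0 < τ / (K1 * (2 * (l : ℝ) + 8) + 1) := div_pos hτ hden
  filter_upwards [HS9.core M κ hB v _ ht,
    Filter.eventually_all.2 fun j => hcom j _ ht] with n h3 h4
  obtain ⟨b', hb', hbc, h5⟩ := h3 (l : ℝ) (x n) (hx n) (by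
    refine (Finset.sum_le_sum fun j _ => h4 j).trans (le_of_eq ?_)
    rw [Finset.sum_const, Finset.card_univ, Fintype.card_fin, nsmul_eq_mul]
    ring)
  refine ⟨b', hb', hbc, h5.trans (le_of_eq ?_)⟩
  rw [mul_div_cancel₀ _ hden.ne']

end Helper418HL
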