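import Pool.Agent.Helper418_HL.HS2
import Pool.Agent.Helper418_HL.HS3
import Pool.Agent.Helper418_HL.HS5
import Pool.Agent.Helper418_HL.HS8
import Pool.Agent.Helper418_HL.HS9
import Pool.Agent.Helper418_HL.Defs

set_option autoImplicit false

namespace Helper418HL

open Matrix Filter Topology Pool.Agent.W661.RC Pool.Agent.W683.RC
open scoped ComplexOrder

/-! GIVEN (proved elsewhere) -/
section
variable {d : ℕ} {A : StarSubalgebra ℂ (Mt d)}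

end

namespace HS10

section
variable {d : ℕ}

lemma cm_le {w : Mt d} (hw : wᴴ * w = 1) (z : Mt d) : hs (w * z - z * w) ≤ 4 * hs z := by
  have h := hs_sub_le (w * z) (z * w)
  rw [hs_unit_mul hw, hs_mul_unit hw] at h
  linarith

lemma cm_add {w : Mt d} (hw : wᴴ * w = 1) (x y : Mt d) :
    hs (w * x - x * w) ≤ 2 * hs (w * y - y * w) + 8 * hs (x - y) := by
  have e : w * x - x * w = (w * y - y * w) + (w * (x - y) - (x - y) * w) := by noncomm_ring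
  have h1 := hs_add_le (w * y - y * w) (w * (x - y) - (x - y) * w)
  have h2 := cm_le hw (x - y)
  rw [e]
  linarith

lemma cm_mul {w : Mt d} {c a : Mt d} (hc : Le (cᴴ * c) 1) (ha : aᴴ * a = 1) :
    hs (w * (c * aᴴ) - c * aᴴ * w) ≤
      2 * hs (w * c - c * w) + 2 * hs (w * aᴴ - aᴴ * w) := by
  have e : w * (c * aᴴ) - c * aᴴ * w = (w * c - c * w) * aᴴ + c * (w * aᴴ - aᴴ * w) := by
    noncomm_ring
  have h1 := hs_add_le ((w * c - c * w) * aᴴ) (c * (w * aᴴ - aᴴ * w))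
  have h2 := hs_mul_le hc (w * aᴴ - aᴴ * w)
  have h3 : hs ((w * c - c * w) * aᴴ) = hs (w * c - c * w) := hs_mul_unit (unit_conj ha) _
  rw [e]
  linarith

lemma pr_conj {V q : Mt d} (hV : Vᴴ * V = 1) (hq : IsPr q) : IsPr (V * q * Vᴴ) := by
  refine ⟨?_, ?_⟩
  · rw [Matrix.conjTranspose_mul, Matrix.conjTranspose_mul, Matrix.conjTranspose_conjTranspose,
      hq.1, Matrix.mul_assoc]
  · calc V * q * Vᴴ * (V * q * Vᴴ) = V * q * (Vᴴ * V) * q * Vᴴ := by noncomm_ring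
      _ = V * (q * q) * Vᴴ := by rw [hV]; noncomm_ring
      _ = V * q * Vᴴ := by rw [hq.2]

lemma tr_conj {V : Mt d} (hV : Vᴴ * V = 1) (q : Mt d) : tr (V * q * Vᴴ) = tr q := by
  rw [tr_mul_comm, ← Matrix.mul_assoc, hV, Matrix.one_mul]

lemma tr_overlap {q q' : Mt d} (hq : IsPr q) (hq' : IsPr q') :
    tr q + tr q' - d ≤ tr (q * q') := by
  have h := tr_mul_nonneg (pr_psd (pr_compl hq)) (pr_psd (pr_compl hq'))
  have e : (1 - q) * (1 - q') = 1 - q - q' + q * q' := by noncomm_ring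
  rw [e, tr_add, tr_sub, tr_sub, tr_one] at h
  linarith

lemma conj_unit {V u : Mt d} (hV : Vᴴ * V = 1) (hu : uᴴ * u = 1) :
    (V * u * Vᴴ)ᴴ * (V * u * Vᴴ) = 1 := by
  rw [Matrix.conjTranspose_mul, Matrix.conjTranspose_mul, Matrix.conjTranspose_conjTranspose]
  calc V * (uᴴ * Vᴴ) * (V * u * Vᴴ) = V * (uᴴ * (Vᴴ * V) * u) * Vᴴ := by noncomm_ring
    _ = V * (uᴴ * u) * Vᴴ := by rw [hV, Matrix.mul_one]
    _ = 1 := by rw [hu, Matrix.mul_one, unit_symm hV]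

lemma conj_contr {V b u : Mt d} (hV : Vᴴ * V = 1) (hb : Le (bᴴ * b) 1) (hu : uᴴ * u = 1) :
    Le ((V * (b * u) * Vᴴ)ᴴ * (V * (b * u) * Vᴴ)) 1 := by
  have e : (V * (b * u) * Vᴴ)ᴴ * (V * (b * u) * Vᴴ) = V * (uᴴ * (bᴴ * b) * u) * Vᴴ := by
    rw [Matrix.conjTranspose_mul, Matrix.conjTranspose_mul, Matrix.conjTranspose_mul,
      Matrix.conjTranspose_conjTranspose]
    calc V * (uᴴ * bᴴ * Vᴴ) * (V * (b * u) * Vᴴ) = V * (uᴴ * (bᴴ * (Vᴴ * V) * b) * u) * Vᴴ := by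
          noncomm_ring
      _ = V * (uᴴ * (bᴴ * b) * u) * Vᴴ := by rw [hV, Matrix.mul_one]
  have h := Le_conj' (Le_conj hb u) V
  rw [e]
  have e1 : V * (uᴴ * 1 * u) * Vᴴ = 1 := by
    rw [Matrix.mul_one, hu, Matrix.mul_one, unit_symm hV]
  rwa [e1] at h

lemma conj_eq {V b u : Mt d} (hV : Vᴴ * V = 1) (hu : uᴴ * u = 1) :
    V * (b * u) * Vᴴ * (V * u * Vᴴ)ᴴ = V * b * Vᴴ := by
  rw [Matrix.conjTranspose_mul, Matrix.conjTranspose_mul, Matrix.conjTranspose_conjTranspose]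
  calc V * (b * u) * Vᴴ * (V * (uᴴ * Vᴴ)) = V * (b * (u * (Vᴴ * V) * uᴴ)) * Vᴴ := by noncomm_ring
    _ = V * b * Vᴴ := by rw [hV, Matrix.mul_one, unit_symm hu, Matrix.mul_one]

lemma numer {D T s t τ1 : ℝ} (hD : 0 ≤ D) (hτ : 0 < τ1) (hτ3 : 3 * τ1 ≤ 1)
    (hT : (1 - 2 * τ1) * D ≤ T) (hs : 0 < s) (ht : 0 < t) (hst : s * t ≤ 1 + τ1) :
    2 * (D - (T - τ1 * D) / (s * t)) ≤ 8 * τ1 * D := by
  have hst0 : 0 < s * t := mul_pos hs ht
  have h1 : (1 - 3 * τ1) * D ≤ T - τ1 * D := by linarith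
  have h2 : (1 - 3 * τ1) * D / (1 + τ1) ≤ (T - τ1 * D) / (s * t) :=
    div_le_div₀ (le_trans (mul_nonneg (by linarith) hD) h1) h1 hst0 hst
  have h3 : (1 - 4 * τ1) * D ≤ (1 - 3 * τ1) * D / (1 + τ1) := by
    rw [le_div_iff₀ (by linarith)]
    nlinarith [mul_nonneg hD (sq_nonneg τ1)]
  linarith

end

end HS10

/-- TARGET -/
theorem size_thm {G : Type} [Group G] {𝒰 : Ultrafilter ℕ} (M : Mdl G 𝒰) {k l : ℕ} (γ : Fin k → G)
    (κ : Fin l → G) {K0 K1 : ℝ} {ε ε1 : ℕ → ℝ} (hE : Erg M γ K0 ε)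
    {B : ∀ n, StarSubalgebra ℂ (Mt (M.d n))} (hB : Ctl M κ B K1 ε1) (P : Set G)
    (hP : Subgroup.closure P = ⊤)
    (hPκ : ∀ v ∈ P, ∀ j, v * κ j * v⁻¹ ∈ Subgroup.closure (Set.range κ)) (v : G) (hv : v ∈ P)
    (x : ∀ n, Mt (M.d n)) (hx : ∀ n, Le ((x n)ᴴ * x n) 1)
    (hcom : ∀ j, ∀ τ : ℝ, 0 < τ → ∀ᶠ n in (𝒰 : Filter ℕ),
      hs (M.U (v * κ j * v⁻¹) n * x n - x n * M.U (v * κ j * v⁻¹) n) ≤ τ * M.d n)
    (j : Fin l) (τ : ℝ) (hτ : 0 < τ) :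
    ∀ᶠ n in (𝒰 : Filter ℕ), hs (M.U (κ j) n * x n - x n * M.U (κ j) n) ≤ τ * M.d n := by
  classical
  have I : ∀ n, Idx (B n) := fun n => Classical.choice (idx_exists (B n))
  have hinc : ∀ v ∈ P, ∀ τ : ℝ, 0 < τ → ∀ᶠ n in (𝒰 : Filter ℕ), ∀ b ∈ B n, Le (bᴴ * b) 1 →
      ∃ b' ∈ B n, hs (b - M.U v n * b' * (M.U v n)ᴴ) ≤ τ * M.d n :=
    fun v hv τ hτ => incl M κ hB v (hPκ v hv) τ hτ
  obtain ⟨τ1, hτ1, hτ3, hττ⟩ : ∃ τ1 : ℝ, 0 < τ1 ∧ 3 * τ1 ≤ 1 ∧ 520 * τ1 ≤ τ / 2 :=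
    ⟨min (1 / 3) (τ / 1040), by positivity, by
      have := min_le_left (1 / 3 : ℝ) (τ / 1040)
      linarith, by
      have := min_le_right (1 / 3 : ℝ) (τ / 1040)
      linarith⟩
  obtain ⟨q, s, t, hq, hqB, hqc, hst, hr1, hr2, htr⟩ :=
    level_thm M γ hE P hP B I hinc (1 + τ1) (by linarith) τ1 hτ1
  have hpull := pull M κ hB v x hx hcom τ1 hτ1
  have hincv := hinc v hv τ1 hτ1
  have hε : ∀ᶠ n in (𝒰 : Filter ℕ), ε1 n ≤ τ / 32 :=
    (hB.lim.eventually (eventually_le_nhds (by positivity)))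
  filter_upwards [htr, hpull, hincv, hε, hB.com] with n htr hpull hincv hε hcomB
  obtain ⟨b, hbB, hb1, hxb⟩ := hpull
  have hV := M.un v n
  have hw := M.un (κ j) n
  set V := M.U v n with hVdef
  set w := M.U (κ j) n with hwdef
  have hd0 : (0 : ℝ) ≤ M.d n := Nat.cast_nonneg _
  obtain ⟨u, huB, hu1, hsum⟩ := equalize (I n) V hV τ1 hτ1.le hincv (q n) (hq n) (hqB n) (hqc n)
    (s n) (t n) (hst n).1 (hst n).2.1 (hr1 n) (hr2 n) b hbB hb1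
  have hT : (1 - 2 * τ1) * M.d n ≤ tr (q n * (V * q n * Vᴴ)) := by
    have h1 := HS10.tr_overlap (hq n) (HS10.pr_conj hV (hq n))
    rw [HS10.tr_conj hV] at h1
    linarith
  have hnum := HS10.numer hd0 hτ1 hτ3 hT (hst n).1 (hst n).2.1 (hst n).2.2
  set a := V * u * Vᴴ with ha
  set c := V * (b * u) * Vᴴ with hc
  have ha1 : aᴴ * a = 1 := HS10.conj_unit hV hu1
  have hc1 : Le (cᴴ * c) 1 := HS10.conj_contr hV hb1 hu1
  have hcm : ∀ y : Mt (M.d n), Le (yᴴ * y) 1 → hs (y - (I n).E y) ≤ 8 * τ1 * M.d n →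
      hs (w * y - y * w) ≤ 2 * (ε1 n * M.d n) + 64 * τ1 * M.d n := by
    intro y hy1 hy2
    have h1 := HS10.cm_add hw y ((I n).E y)
    have h2 := hcomB _ (E_mem (I n) y) (E_contr (I n) hy1)
    have h3 : hs (w * (I n).E y - (I n).E y * w) ≤ M.e κ n ((I n).E y) := by
      unfold Mdl.e en
      exact Finset.single_le_sum (f := fun s => hs (M.U (κ s) n * (I n).E y -
        (I n).E y * M.U (κ s) n)) (fun _ _ => hs_nonneg _) (Finset.mem_univ j)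
    linarith
  have hna := hs_nonneg (a - (I n).E a)
  have hnc := hs_nonneg (c - (I n).E c)
  have hA := hcm a (by rw [ha1]; exact Le_refl _) (by linarith)
  have hC := hcm c hc1 (by linarith)
  have hca := HS10.cm_mul (w := w) hc1 ha1
  rw [hs_comm_conj hw, HS10.conj_eq hV hu1] at hca
  have hfin := HS10.cm_add hw (x n) (V * b * Vᴴ)
  have hεd : ε1 n * M.d n ≤ τ / 32 * M.d n := mul_le_mul_of_nonneg_right hε hd0
  have hττd : 520 * τ1 * M.d n ≤ τ / 2 * M.d n := mul_le_mul_of_nonneg_right hττ hd0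
  linarith

end Helper418HL
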