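import Pool.Agent.Helper418_HL.HA2
import Pool.Agent.Helper418_HL.HB
import Pool.Agent.Helper418_HL.HC7
import Pool.Agent.Helper418_HL.HS10
import Pool.Agent.Helper418_HL.HL1
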