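import Pool.Agent.Helper418_HL.Defs

set_option autoImplicit false

namespace Helper418HL.HA1

open Finset

section Mon

variable {M : Type*} [Monoid M] {a b c : M} {p : ℕ}

lemma a_bpow (hab : a * b = c * b * a) (hcb : Commute c b) (j : ℕ) :
    a * b ^ j = c ^ j * b ^ j * a := by
  induction j with
  | zero => simp
  | succ j ih =>
    have h1 : b ^ j * c = c * b ^ j := (hcb.pow_right j).symm.eq
    calc a * b ^ (j + 1) = (a * b ^ j) * b := by rw [pow_succ, mul_assoc]
      _ = c ^ j * b ^ j * (a * b) := by rw [ih, mul_assoc]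
      _ = c ^ j * (b ^ j * c) * b * a := by rw [hab]; simp only [mul_assoc]
      _ = c ^ (j + 1) * b ^ (j + 1) * a := by rw [h1, pow_succ, pow_succ]; simp only [mul_assoc]

lemma c_pow (hp : p.Prime) (ha : a ^ p = 1) (hb : b ^ p = 1) (hab : a * b = c * b * a)
    (hcb : Commute c b) : c ^ p = 1 := by
  have h1 := a_bpow hab hcb p
  rw [hb, mul_one, mul_one] at h1
  have h2 : a * a ^ (p - 1) = 1 := by rw [← pow_succ', Nat.sub_add_cancel hp.one_le, ha]
  calc c ^ p = c ^ p * (a * a ^ (p - 1)) := by rw [h2, mul_one]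
    _ = (c ^ p * a) * a ^ (p - 1) := by rw [mul_assoc]
    _ = 1 := by rw [← h1, h2]

end Mon

section Alg

variable {A : Type*} [Ring A] [Algebra ℂ A]

/-- the mean of the powers -/
noncomputable def mean (p : ℕ) (x : A) : A := (p : ℂ)⁻¹ • ∑ j ∈ range p, x ^ j

lemma mul_mean {p : ℕ} {x : A} (hx : x ^ p = 1) : x * mean p x = mean p x := by
  unfold mean
  rw [mul_smul_comm, mul_sum]
  congr 1
  have h1 : ∑ i ∈ range p, x * x ^ i = ∑ i ∈ range p, x ^ (i + 1) :=
    sum_congr rfl fun i _ => (pow_succ' x i).symm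
  have h2 := Finset.sum_range_succ (fun i => x ^ i) p
  have h3 := Finset.sum_range_succ' (fun i => x ^ i) p
  rw [h1]
  rw [h2, hx, pow_zero] at h3
  exact (add_right_cancel h3).symm

lemma pow_mul_mean {p : ℕ} {x : A} (hx : x ^ p = 1) (i : ℕ) : x ^ i * mean p x = mean p x := by
  induction i with
  | zero => simp
  | succ i ih => rw [pow_succ, mul_assoc, mul_mean hx, ih]

lemma mean_mul_of {p : ℕ} (hp : 0 < p) {x m : A} (h : x * m = m) : mean p x * m = m := by
  unfold mean
  rw [smul_mul_assoc, sum_mul]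
  have h1 : ∀ i, x ^ i * m = m := by
    intro i
    induction i with
    | zero => simp
    | succ i ih => rw [pow_succ, mul_assoc, h, ih]
  simp_rw [h1]
  rw [sum_const, card_range, ← Nat.cast_smul_eq_nsmul ℂ, smul_smul, inv_mul_cancel₀, one_smul]
  exact_mod_cast hp.ne'

lemma mean_mul_mean {p : ℕ} (hp : 0 < p) {x : A} (hx : x ^ p = 1) :
    mean p x * mean p x = mean p x := mean_mul_of hp (mul_mean hx)

lemma commute_mean {p : ℕ} {x y : A} (h : Commute x y) : Commute x (mean p y) := by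
  unfold mean
  exact Commute.smul_right (Commute.sum_right _ _ _ fun i _ => h.pow_right i) _

lemma mean_pow {p j : ℕ} (hp : p.Prime) {x : A} (hx : x ^ p = 1) (hj : j.Coprime p) :
    mean p (x ^ j) = mean p x := by
  have h1 : (x ^ j) ^ p = 1 := by rw [← pow_mul, mul_comm, pow_mul, hx, one_pow]
  obtain ⟨k, hk⟩ : ∃ k : ℕ, j * k ≡ 1 [MOD p] := by
    obtain ⟨k, -, hk⟩ := Nat.exists_mul_mod_eq_one_of_coprime hj hp.one_lt
    exact ⟨k, by rw [Nat.ModEq, hk, Nat.mod_eq_of_lt hp.one_lt]⟩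
  have h2 : x = (x ^ j) ^ k := by
    rw [← pow_mul]
    have h3 : ∀ n : ℕ, x ^ n = x ^ (n % p) := by
      intro n
      conv_lhs => rw [← Nat.div_add_mod n p]
      rw [pow_add, pow_mul, hx, one_pow, one_mul]
    rw [h3 (j * k), hk, Nat.mod_eq_of_lt hp.one_lt, pow_one]
  have h4 : x * mean p (x ^ j) = mean p (x ^ j) := by
    nth_rewrite 1 [h2]
    exact pow_mul_mean h1 k
  have h5 : mean p x * mean p (x ^ j) = mean p (x ^ j) := mean_mul_of hp.pos h4
  have h6 : mean p (x ^ j) * mean p x = mean p x :=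
    mean_mul_of hp.pos (pow_mul_mean hx j)
  have h7 : Commute (mean p x) (mean p (x ^ j)) :=
    commute_mean (commute_mean ((Commute.refl x).pow_left j)).symm
  rw [← h5, h7.eq, h6]

variable {a b c : A} {p : ℕ}

lemma apow_bpow (hab : a * b = c * b * a) (hca : Commute c a) (hcb : Commute c b) (i j : ℕ) :
    a ^ i * b ^ j = c ^ (i * j) * b ^ j * a ^ i := by
  induction i with
  | zero => simp
  | succ i ih =>
    have h1 : a * c ^ (i * j) = c ^ (i * j) * a := (hca.pow_left (i * j)).symm.eq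
    calc a ^ (i + 1) * b ^ j = a * (a ^ i * b ^ j) := by rw [pow_succ', mul_assoc]
      _ = (a * c ^ (i * j)) * b ^ j * a ^ i := by rw [ih]; simp only [mul_assoc]
      _ = c ^ (i * j) * (a * b ^ j) * a ^ i := by rw [h1]; simp only [mul_assoc]
      _ = c ^ ((i + 1) * j) * b ^ j * a ^ (i + 1) := by
        rw [a_bpow hab hcb j, pow_succ', add_mul, one_mul, pow_add]; simp only [mul_assoc]

lemma PbP (hp : p.Prime) (ha : a ^ p = 1) (hb : b ^ p = 1) (hab : a * b = c * b * a)
    (hca : Commute c a) (hcb : Commute c b) {j : ℕ} (hj : j.Coprime p) :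
    mean p a * b ^ j * mean p a = mean p c * b ^ j * mean p a := by
  have hc := c_pow hp ha hb hab hcb
  have h1 : mean p a * b ^ j * mean p a = mean p (c ^ j) * b ^ j * mean p a := by
    conv_lhs => rw [mul_assoc]
    conv_lhs => arg 1; unfold mean
    rw [smul_mul_assoc, sum_mul]
    have h2 : ∀ i ∈ range p, a ^ i * (b ^ j * mean p a) = (c ^ j) ^ i * (b ^ j * mean p a) := by
      intro i _
      rw [← mul_assoc, apow_bpow hab hca hcb, mul_assoc, pow_mul_mean ha, mul_assoc, mul_comm i j,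
        pow_mul]
    rw [sum_congr rfl h2, ← sum_mul, ← smul_mul_assoc, ← mul_assoc]
    rfl
  rw [h1, mean_pow hp hc hj]

lemma PQP (hp : p.Prime) (ha : a ^ p = 1) (hb : b ^ p = 1) (hab : a * b = c * b * a)
    (hca : Commute c a) (hcb : Commute c b) :
    mean p a * mean p b * mean p a =
      (p : ℂ)⁻¹ • (mean p a - mean p c * mean p a) + mean p c * mean p b * mean p a := by
  have h1 : ∀ j ∈ range p, mean p a * b ^ j * mean p a =
      mean p c * b ^ j * mean p a + if j = 0 then (mean p a - mean p c * mean p a) else 0 := by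
    intro j hj
    split_ifs with h
    · subst h
      rw [pow_zero, mul_one, mul_one, mean_mul_mean hp.pos ha]
      abel
    · rw [add_zero]
      refine PbP hp ha hb hab hca hcb ?_
      rw [Nat.coprime_comm, hp.coprime_iff_not_dvd]
      intro hd
      exact h (Nat.eq_zero_of_dvd_of_lt hd (mem_range.mp hj))
  have h2 : ∀ m : A, m * mean p b * mean p a = (p : ℂ)⁻¹ • ∑ j ∈ range p, m * b ^ j * mean p a := by
    intro m
    conv_lhs => arg 1; arg 2; unfold mean
    rw [mul_smul_comm, smul_mul_assoc, mul_sum, sum_mul]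
  rw [h2, h2, sum_congr rfl h1, sum_add_distrib, smul_add, add_comm]
  congr 2
  rw [sum_ite_eq' (range p) 0, if_pos (mem_range.mpr hp.pos)]

lemma PQR (hp : p.Prime) (ha : a ^ p = 1) (hb : b ^ p = 1) (hab : a * b = c * b * a)
    (hca : Commute c a) (hcb : Commute c b) :
    mean p a * mean p b * mean p c = mean p b * mean p a * mean p c := by
  have hc := c_pow hp ha hb hab hcb
  have h1 : ∀ x y : A, mean p x * mean p y * mean p c =
      (p : ℂ)⁻¹ • (p : ℂ)⁻¹ • ∑ i ∈ range p, ∑ j ∈ range p, x ^ i * y ^ j * mean p c := by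
    intro x y
    conv_lhs => arg 1; unfold mean
    rw [smul_mul_assoc, smul_mul_assoc, mul_smul_comm, smul_mul_assoc, sum_mul, sum_mul]
    congr 2
    refine sum_congr rfl fun i _ => ?_
    rw [mul_sum, sum_mul]
  rw [h1, h1, sum_comm]
  congr 2
  refine sum_congr rfl fun j _ => sum_congr rfl fun i _ => ?_
  rw [apow_bpow hab hca hcb]
  have h2 : c ^ (i * j) * b ^ j * a ^ i = b ^ j * a ^ i * c ^ (i * j) := by
    have h3 : Commute (c ^ (i * j)) (b ^ j * a ^ i) :=
      ((hcb.pow_pow _ _)).mul_right (hca.pow_pow _ _)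
    rw [mul_assoc, h3.eq]
  rw [h2, mul_assoc, pow_mul_mean hc]

end Alg

/-- the final real inequality -/
lemma scal {N α β γ ε : ℝ} (hN : 0 ≤ N) (hα : 0 ≤ α) (hβ : 0 ≤ β) (hε : 0 ≤ ε) (hε1 : ε ≤ 1)
    (h1 : γ ^ 2 ≤ ε ^ 2 * (α * β)) (h2 : (α + β) ^ 2 ≤ (α + β + 2 * γ) * N) :
    -ε * ((N - α) + (N - β)) ≤ 2 * (N - α - β + γ) := by
  have hs : 0 ≤ α + β := by linarith
  have h3 : 2 * γ ≤ ε * (α + β) := by
    by_contra hcon
    push Not at hcon
    have h4 : (ε * (α + β)) ^ 2 < (2 * γ) ^ 2 := pow_lt_pow_left₀ hcon (by positivity) two_ne_zero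
    have h5 : ε ^ 2 * (α - β) ^ 2 ≥ 0 := by positivity
    nlinarith
  rcases hs.eq_or_lt with h0 | h0
  · have hα0 : α = 0 := by linarith
    have hβ0 : β = 0 := by linarith
    have hγ0 : γ = 0 := by
      have : γ ^ 2 ≤ 0 := by rw [hα0] at h1; simpa using h1
      exact pow_eq_zero_iff two_ne_zero |>.mp (le_antisymm this (sq_nonneg _))
    rw [hα0, hβ0, hγ0]
    nlinarith
  · have h5 : (α + β) ≤ (1 + ε) * N := by
      have h6 : (α + β) * (α + β) ≤ (α + β) * ((1 + ε) * N) := by nlinarith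
      exact le_of_mul_le_mul_left h6 h0
    have hN' : 0 < N := by
      rcases hN.eq_or_lt with h | h
      · rw [← h] at h5; linarith
      · exact h
    have h7 : 0 ≤ (2 * N - (α + β)) * ((1 + ε) * N - (α + β)) := by
      apply mul_nonneg
      · nlinarith
      · linarith
    have h8 : 0 ≤ N * (2 * (N - α - β + γ) + ε * ((N - α) + (N - β))) := by nlinarith
    have h9 := nonneg_of_mul_nonneg_right h8 hN'
    linarith

section Main

variable {H : Type} [NormedAddCommGroup H] [InnerProductSpace ℂ H]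

/-- the real inner product -/
noncomputable def B (x y : H) : ℝ := (inner ℂ x y).re

lemma B_comm (x y : H) : B x y = B y x := by
  unfold B
  rw [← inner_conj_symm, Complex.conj_re]

lemma B_add_left (x y w : H) : B (x + y) w = B x w + B y w := by
  unfold B
  rw [inner_add_left, Complex.add_re]

lemma B_add_right (x y w : H) : B w (x + y) = B w x + B w y := by
  unfold B
  rw [inner_add_right, Complex.add_re]

lemma B_sub_left (x y w : H) : B (x - y) w = B x w - B y w := by
  unfold B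
  rw [inner_sub_left, Complex.sub_re]

lemma B_sub_right (x y w : H) : B w (x - y) = B w x - B w y := by
  unfold B
  rw [inner_sub_right, Complex.sub_re]

lemma B_smul_right (t : ℝ) (x y : H) : B x ((t : ℂ) • y) = t * B x y := by
  unfold B
  rw [inner_smul_right, Complex.re_ofReal_mul]

lemma B_zero_left (x : H) : B 0 x = 0 := by unfold B; simp

lemma B_zero_right (x : H) : B x 0 = 0 := by unfold B; simp

lemma B_self (x : H) : B x x = ‖x‖ ^ 2 := by
  unfold B
  rw [inner_self_eq_norm_sq_to_K]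
  norm_cast

lemma B_self_nonneg (x : H) : 0 ≤ B x x := by
  rw [B_self]
  positivity

lemma B_cs (x y : H) : (B x y) ^ 2 ≤ B x x * B y y := by
  rw [B_self, B_self, ← mul_pow]
  have h1 : |B x y| ≤ ‖x‖ * ‖y‖ := by
    unfold B
    exact (Complex.abs_re_le_norm _).trans (norm_inner_le_norm x y)
  rw [← sq_abs]
  exact pow_le_pow_left₀ (abs_nonneg _) h1 2

lemma B_lap {S : H →L[ℂ] H} (sS : ∀ f g, B (S f) g = B f (S g))
    (iS : ∀ f, S (S f) = S f) (x y : H) : B (x - S x) (y - S y) = B (x - S x) y := by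
  rw [B_sub_right, ← sS, map_sub, iS, sub_self, B_zero_left, sub_zero]

theorem abs_ineq (P Q R : H →L[ℂ] H) (pinv ε : ℝ) (hε : ε ^ 2 = pinv) (hε0 : 0 ≤ ε)
    (hε1 : ε ≤ 1) (sP : ∀ f g, B (P f) g = B f (P g)) (sQ : ∀ f g, B (Q f) g = B f (Q g))
    (sR : ∀ f g, B (R f) g = B f (R g))
    (iP : ∀ f, P (P f) = P f) (iQ : ∀ f, Q (Q f) = Q f) (iR : ∀ f, R (R f) = R f)
    (hPR : ∀ f, R (P f) = P (R f)) (hQR : ∀ f, R (Q f) = Q (R f))
    (h1 : ∀ f, P (Q (P f)) = (pinv : ℂ) • (P f - R (P f)) + R (Q (P f)))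
    (h2 : ∀ f, P (Q (R f)) = Q (P (R f))) (f : H) :
    -ε * (B (f - P f) (f - P f) + B (f - Q f) (f - Q f)) ≤ 2 * (B (f - P f) (f - Q f)) := by
  set f0 := R f with hf0
  set g := f - R f with hg
  have hRg : R g = 0 := by rw [hg, map_sub, iR, sub_self]
  set u0 := f0 - P f0 with hu0
  set u1 := g - P g with hu1
  set v0 := f0 - Q f0 with hv0
  set v1 := g - Q g with hv1
  have eP : f - P f = u0 + u1 := by
    rw [hu0, hu1, hg, map_sub]; abel
  have eQ : f - Q f = v0 + v1 := by
    rw [hv0, hv1, hg, map_sub]; abel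
  clear_value g
  have hRu1 : R u1 = 0 := by rw [hu1, map_sub, hPR, hRg, map_zero, sub_zero]
  have hRv1 : R v1 = 0 := by rw [hv1, map_sub, hQR, hRg, map_zero, sub_zero]
  have eu0 : u0 = R (f - P f) := by rw [hu0, hf0, map_sub, hPR]
  have ev0 : v0 = R (f - Q f) := by rw [hv0, hf0, map_sub, hQR]
  have c1 : B u0 u1 = 0 := by rw [eu0, sR, hRu1, B_zero_right]
  have c2 : B u0 v1 = 0 := by rw [eu0, sR, hRv1, B_zero_right]
  have c3 : B v0 u1 = 0 := by rw [ev0, sR, hRu1, B_zero_right]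
  have c4 : B v0 v1 = 0 := by rw [ev0, sR, hRv1, B_zero_right]
  have c5 : 0 ≤ B u0 v0 := by
    have hw : v0 - P v0 = u0 - Q u0 := by
      rw [hv0, hu0, map_sub, map_sub, hf0, h2]; abel
    have k1 : B (v0 - P v0) (v0 - P v0) = B u0 v0 := by
      rw [B_lap sP iP, B_comm, hw, hv0, B_lap sQ iQ, B_comm]
    rw [← k1]
    exact B_self_nonneg _
  -- the scalars
  set N := B g g with hN
  set α := B (P g) (P g) with hα
  set β := B (Q g) (Q g) with hβ
  set γ := B (P g) (Q g) with hγ
  have a1 : B (P g) g = α := by rw [hα, sP, sP, iP]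
  have b1 : B (Q g) g = β := by rw [hβ, sQ, sQ, iQ]
  have a2 : B g (P g) = α := by rw [B_comm, a1]
  have b2 : B g (Q g) = β := by rw [B_comm, b1]
  have d1 : B u1 u1 = N - α := by
    rw [hu1, B_lap sP iP, B_sub_left, a1]
  have d2 : B v1 v1 = N - β := by
    rw [hv1, B_lap sQ iQ, B_sub_left, b1]
  have d3 : B u1 v1 = N - α - β + γ := by
    rw [hu1, hv1, B_sub_left, B_sub_right, B_sub_right, a1, b2]
    ring
  have k1 : P (Q (P g)) = (pinv : ℂ) • P g := by
    rw [h1 g, hPR, hRg, map_zero, sub_zero, hQR, hPR, hRg, map_zero, map_zero, add_zero]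
  have k2 : B (Q (P g)) (Q (P g)) = pinv * α := by
    rw [sQ, iQ, sP, k1, B_smul_right, a2]
  have k3 : γ ^ 2 ≤ ε ^ 2 * (α * β) := by
    have k4 : γ = B (Q (P g)) (Q g) := by rw [hγ, sQ, iQ]
    rw [k4, hε]
    refine (B_cs _ _).trans (le_of_eq ?_)
    rw [k2]; ring
  have k5 : (α + β) ^ 2 ≤ (α + β + 2 * γ) * N := by
    have k6 : α + β = B (P g + Q g) g := by rw [B_add_left, a1, b1]
    have k7 : B (P g + Q g) (P g + Q g) = α + β + 2 * γ := by
      rw [B_add_left, B_add_right, B_add_right, B_comm (Q g) (P g)]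
      ring
    rw [← k7, k6]
    exact B_cs _ _
  have key := scal (N := N) (α := α) (β := β) (γ := γ) (B_self_nonneg _) (B_self_nonneg _)
    (B_self_nonneg _) hε0 hε1 k3 k5
  rw [eP, eQ]
  have e1 : B (u0 + u1) (u0 + u1) = B u0 u0 + (N - α) := by
    rw [B_add_left, B_add_right, B_add_right, B_comm u1 u0, c1, d1]; ring
  have e2 : B (v0 + v1) (v0 + v1) = B v0 v0 + (N - β) := by
    rw [B_add_left, B_add_right, B_add_right, B_comm v1 v0, c4, d2]; ring
  have e3 : B (u0 + u1) (v0 + v1) = B u0 v0 + (N - α - β + γ) := by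
    rw [B_add_left, B_add_right, B_add_right, B_comm u1 v0, c2, c3, d3]; ring
  rw [e1, e2, e3]
  have q1 := B_self_nonneg u0
  have q2 := B_self_nonneg v0
  nlinarith [mul_nonneg hε0 q1, mul_nonneg hε0 q2]

variable [CompleteSpace H]

lemma star_eq_pow {p : ℕ} (hp : p.Prime) {u : H →L[ℂ] H} (hu : u ∈ unitary (H →L[ℂ] H))
    (up : u ^ p = 1) : star u = u ^ (p - 1) := by
  have h1 : u * u ^ (p - 1) = 1 := by rw [← pow_succ', Nat.sub_add_cancel hp.one_le, up]
  have h2 : star u * u = 1 := (Unitary.mem_iff.1 hu).1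
  calc star u = star u * (u * u ^ (p - 1)) := by rw [h1, mul_one]
    _ = u ^ (p - 1) := by rw [← mul_assoc, h2, one_mul]

lemma star_mean {p : ℕ} (hp : p.Prime) {u : H →L[ℂ] H} (hu : u ∈ unitary (H →L[ℂ] H))
    (up : u ^ p = 1) : star (mean p u) = mean p u := by
  have h1 : star (mean p u) = mean p (star u) := by
    unfold mean
    rw [star_smul, star_sum]
    simp
  rw [h1, star_eq_pow hp hu up]
  refine mean_pow hp up ?_
  have h3 : (p - 1).Coprime (p - 1 + 1) := by simp
  rwa [Nat.sub_add_cancel hp.one_le] at h3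

lemma B_mean {p : ℕ} (hp : p.Prime) {u : H →L[ℂ] H} (hu : u ∈ unitary (H →L[ℂ] H))
    (up : u ^ p = 1) (f g : H) : B (mean p u f) g = B f (mean p u g) := by
  unfold B
  congr 1
  nth_rewrite 1 [← star_mean hp hu up]
  rw [ContinuousLinearMap.star_eq_adjoint, ContinuousLinearMap.adjoint_inner_left]

end Main

end Helper418HL.HA1

namespace Helper418HL

open Matrix Filter Topology Pool.Agent.W661.RC Pool.Agent.W683.RC
open scoped ComplexOrder

/-- the average over the powers of `u` -/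
noncomputable def Pav {H : Type} [NormedAddCommGroup H] [InnerProductSpace ℂ H] (p : ℕ)
    (u : H →L[ℂ] H) : H →L[ℂ] H := (p : ℂ)⁻¹ • ∑ j ∈ Finset.range p, u ^ j

/-! TARGETS -/
theorem pair_ineq {H : Type} [NormedAddCommGroup H] [InnerProductSpace ℂ H] [CompleteSpace H]
    {p : ℕ} (hp : p.Prime) (u v : H →L[ℂ] H) (hu : u ∈ unitary (H →L[ℂ] H))
    (hv : v ∈ unitary (H →L[ℂ] H)) (up : u ^ p = 1) (vp : v ^ p = 1)
    (h1 : Commute (u * v * star u * star v) u) (h2 : Commute (u * v * star u * star v) v) (f : H) :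
    -(1 / √p) * (‖f - Pav p u f‖ ^ 2 + ‖f - Pav p v f‖ ^ 2)
      ≤ 2 * (inner ℂ (f - Pav p u f) (f - Pav p v f)).re := by
  have hu1 : star u * u = 1 := (Unitary.mem_iff.1 hu).1
  have hv1 : star v * v = 1 := (Unitary.mem_iff.1 hv).1
  set c := u * v * star u * star v with hc
  have hcu : c ∈ unitary (H →L[ℂ] H) :=
    mul_mem (mul_mem (mul_mem hu hv) (Unitary.star_mem hu)) (Unitary.star_mem hv)
  have hab : u * v = c * v * u := by
    rw [hc, mul_assoc (u * v * star u), hv1, mul_one, mul_assoc (u * v), hu1, mul_one]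
  have hcp : c ^ p = 1 := HA1.c_pow hp up vp hab h2
  have hp0 : (0 : ℝ) < p := by exact_mod_cast hp.pos
  have hp1 : (1 : ℝ) ≤ p := by exact_mod_cast hp.one_le
  have hcP := HA1.commute_mean (p := p) (HA1.commute_mean (p := p) h1).symm
  have hcQ := HA1.commute_mean (p := p) (HA1.commute_mean (p := p) h2).symm
  have key := HA1.abs_ineq (HA1.mean p u) (HA1.mean p v) (HA1.mean p c) (p : ℝ)⁻¹
    (1 / √p)
    (by rw [div_pow, one_pow, Real.sq_sqrt hp0.le, one_div])
    (by positivity)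
    (by
      rw [div_le_one (Real.sqrt_pos.mpr hp0)]
      exact Real.one_le_sqrt.mpr hp1)
    (HA1.B_mean hp hu up) (HA1.B_mean hp hv vp) (HA1.B_mean hp hcu hcp)
    (fun f => by rw [← ContinuousLinearMap.mul_apply, HA1.mean_mul_mean hp.pos up])
    (fun f => by rw [← ContinuousLinearMap.mul_apply, HA1.mean_mul_mean hp.pos vp])
    (fun f => by rw [← ContinuousLinearMap.mul_apply, HA1.mean_mul_mean hp.pos hcp])
    (fun f => by rw [← ContinuousLinearMap.mul_apply, ← ContinuousLinearMap.mul_apply, hcP.eq])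
    (fun f => by rw [← ContinuousLinearMap.mul_apply, ← ContinuousLinearMap.mul_apply, hcQ.eq])
    (fun f => by
      have := congrArg (fun T => T f) (HA1.PQP hp up vp hab h1 h2)
      have e : (((p : ℝ)⁻¹ : ℝ) : ℂ) = (p : ℂ)⁻¹ := by push_cast; rfl
      rw [e]
      exact this)
    (fun f => congrArg (fun T => T f) (HA1.PQR hp up vp hab h1 h2)) f
  rw [HA1.B_self, HA1.B_self] at key
  exact key

theorem pair_comm {H : Type} [NormedAddCommGroup H] [InnerProductSpace ℂ H] [CompleteSpace H]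
    {p : ℕ} (hp : p.Prime) (u v : H →L[ℂ] H) (hu : u ∈ unitary (H →L[ℂ] H))
    (hv : v ∈ unitary (H →L[ℂ] H)) (up : u ^ p = 1) (vp : v ^ p = 1) (h1 : Commute u v) (f : H) :
    0 ≤ 2 * (inner ℂ (f - Pav p u f) (f - Pav p v f)).re := by
  have hPQ : Commute (HA1.mean p u) (HA1.mean p v) :=
    HA1.commute_mean (HA1.commute_mean h1.symm).symm
  have sP := HA1.B_mean hp hu up
  have sQ := HA1.B_mean hp hv vp
  have iP : ∀ f, HA1.mean p u (HA1.mean p u f) = HA1.mean p u f := fun f => by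
    rw [← ContinuousLinearMap.mul_apply, HA1.mean_mul_mean hp.pos up]
  have iQ : ∀ f, HA1.mean p v (HA1.mean p v f) = HA1.mean p v f := fun f => by
    rw [← ContinuousLinearMap.mul_apply, HA1.mean_mul_mean hp.pos vp]
  have h2 : ∀ f, HA1.mean p u (HA1.mean p v f) = HA1.mean p v (HA1.mean p u f) := fun f => by
    rw [← ContinuousLinearMap.mul_apply, ← ContinuousLinearMap.mul_apply, hPQ.eq]
  set P := HA1.mean p u with hP
  set Q := HA1.mean p v with hQ
  have hw : (f - Q f) - P (f - Q f) = (f - P f) - Q (f - P f) := by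
    rw [map_sub, map_sub, h2]
    abel
  have k1 : HA1.B ((f - Q f) - P (f - Q f)) ((f - Q f) - P (f - Q f)) =
      HA1.B (f - P f) (f - Q f) := by
    rw [HA1.B_lap sP iP, HA1.B_comm, hw, HA1.B_lap sQ iQ, HA1.B_comm]
  have k2 := HA1.B_self_nonneg ((f - Q f) - P (f - Q f))
  rw [k1] at k2
  have k3 : (inner ℂ (f - Pav p u f) (f - Pav p v f)).re = HA1.B (f - P f) (f - Q f) := rfl
  rw [k3]
  linarith

end Helper418HL
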