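import Pool.Agent.Helper418_HL.HA1
import Pool.Agent.Helper418_HL.Defs
import Pool.Agent.Helper418_Sofic.Defs

set_option autoImplicit false

namespace Helper418HL

open Matrix Filter Topology Pool.Agent.W661.RC Pool.Agent.W683.RC
open scoped ComplexOrder

/-! GIVEN (proved elsewhere) -/
namespace HA2

section Abs

variable {H : Type} [NormedAddCommGroup H] [InnerProductSpace ℂ H]

theorem mul_Pav {p : ℕ} (u : H →L[ℂ] H) (up : u ^ p = 1) : u * Pav p u = Pav p u := by
  unfold Pav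
  rw [mul_smul_comm, Finset.mul_sum]
  congr 1
  have h0 : ∑ j ∈ Finset.range p, u * u ^ j = ∑ j ∈ Finset.range p, u ^ (j + 1) := by
    refine Finset.sum_congr rfl fun j _ => ?_
    rw [pow_succ']
  rw [h0]
  have h1 := Finset.sum_range_succ (fun j => u ^ j) p
  have h2 := Finset.sum_range_succ' (fun j => u ^ j) p
  rw [h1] at h2
  simp only [pow_zero, up] at h2
  exact (add_right_cancel h2).symm

theorem pow_mul_Pav {p : ℕ} (u : H →L[ℂ] H) (up : u ^ p = 1) (j : ℕ) :
    u ^ j * Pav p u = Pav p u := by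
  induction j with
  | zero => simp
  | succ n ih => rw [pow_succ, mul_assoc, mul_Pav u up, ih]

theorem Pav_idem {p : ℕ} (hp : 0 < p) (u : H →L[ℂ] H) (up : u ^ p = 1) :
    Pav p u * Pav p u = Pav p u := by
  have h : Pav p u * Pav p u = (p : ℂ)⁻¹ • ∑ j ∈ Finset.range p, u ^ j * Pav p u := by
    conv_lhs => rw [show Pav p u * Pav p u =
      ((p : ℂ)⁻¹ • ∑ j ∈ Finset.range p, u ^ j) * Pav p u from rfl]
    rw [smul_mul_assoc, Finset.sum_mul]
  rw [h]
  simp only [pow_mul_Pav u up, Finset.sum_const, Finset.card_range]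
  rw [← Nat.cast_smul_eq_nsmul ℂ, smul_smul, inv_mul_cancel₀, one_smul]
  exact_mod_cast hp.ne'

theorem star_Pav [CompleteSpace H] {p : ℕ} (hp : 0 < p) (u : H →L[ℂ] H)
    (hu : u ∈ unitary (H →L[ℂ] H)) (up : u ^ p = 1) : star (Pav p u) = Pav p u := by
  have hpow : ∀ j : ℕ, (star u) ^ j * Pav p u = Pav p u := by
    intro j
    have h1 : u ^ j ∈ unitary (H →L[ℂ] H) := Submonoid.pow_mem _ hu j
    have h2 : star (u ^ j) * u ^ j = 1 := Unitary.star_mul_self_of_mem h1
    rw [← star_pow]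
    conv_lhs => rw [← pow_mul_Pav u up j]
    rw [← mul_assoc, h2, one_mul]
  have h : star (Pav p u) * Pav p u = Pav p u := by
    have h3 : star (Pav p u) = (p : ℂ)⁻¹ • ∑ j ∈ Finset.range p, (star u) ^ j := by
      unfold Pav
      rw [star_smul, star_sum]
      simp [star_pow]
    rw [h3, smul_mul_assoc, Finset.sum_mul]
    simp only [hpow, Finset.sum_const, Finset.card_range]
    rw [← Nat.cast_smul_eq_nsmul ℂ, smul_smul, inv_mul_cancel₀, one_smul]
    exact_mod_cast hp.ne'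
  calc star (Pav p u) = star (star (Pav p u) * Pav p u) := by rw [h]
    _ = star (Pav p u) * Pav p u := by rw [star_mul, star_star]
    _ = Pav p u := h

variable {ι : Type} [Fintype ι] (Q : ι → H →L[ℂ] H)

/-- energy -/
noncomputable def EE (f : H) : ℝ := ∑ i, ‖Q i f‖ ^ 2

/-- Laplacian -/
noncomputable def LL (f : H) : H := ∑ i, Q i f

theorem EE_nonneg (f : H) : 0 ≤ EE Q f := Finset.sum_nonneg fun i _ => by positivity

variable {Q}

theorem norm_Q_le (hsa : ∀ i f g, inner ℂ (Q i f) g = inner ℂ f (Q i g))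
    (hid : ∀ i f, Q i (Q i f) = Q i f) (i : ι) (f : H) : ‖Q i f‖ ≤ ‖f‖ := by
  have h1 : inner ℂ (Q i f) (Q i f) = inner ℂ (Q i f) f := by
    rw [← hsa, hid]
  have h2 : ‖Q i f‖ * ‖Q i f‖ ≤ ‖Q i f‖ * ‖f‖ := by
    have h3 : ((inner ℂ (Q i f) (Q i f) : ℂ)).re = ‖Q i f‖ * ‖Q i f‖ := by
      have := inner_self_eq_norm_mul_norm (𝕜 := ℂ) (Q i f)
      simpa using this
    rw [← h3, h1]
    exact le_trans (Complex.re_le_norm _) (norm_inner_le_norm _ _)
  rcases eq_or_lt_of_le (norm_nonneg (Q i f)) with h | h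
  · rw [← h]; exact norm_nonneg _
  · exact le_of_mul_le_mul_left h2 h

theorem EE_le (hsa : ∀ i f g, inner ℂ (Q i f) g = inner ℂ f (Q i g))
    (hid : ∀ i f, Q i (Q i f) = Q i f) (f : H) : EE Q f ≤ Fintype.card ι * ‖f‖ ^ 2 := by
  unfold EE
  have h : ∀ i ∈ (Finset.univ : Finset ι), ‖Q i f‖ ^ 2 ≤ ‖f‖ ^ 2 := fun i _ =>
    pow_le_pow_left₀ (norm_nonneg _) (norm_Q_le hsa hid i f) 2
  refine le_trans (Finset.sum_le_sum h) ?_
  simp [Finset.sum_const]

theorem LL_le (f : H) : ‖LL Q f‖ ^ 2 ≤ Fintype.card ι * EE Q f := by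
  unfold LL EE
  calc ‖∑ i, Q i f‖ ^ 2 ≤ (∑ i, ‖Q i f‖) ^ 2 :=
        pow_le_pow_left₀ (norm_nonneg _) (norm_sum_le _ _) 2
    _ ≤ Fintype.card ι * ∑ i, ‖Q i f‖ ^ 2 := by
        have := sq_sum_le_card_mul_sum_sq (s := (Finset.univ : Finset ι)) (f := fun i => ‖Q i f‖)
        simpa using this

theorem norm_sub_smul_sq (x y : H) (c : ℝ) :
    ‖x - (c : ℂ) • y‖ ^ 2 = ‖x‖ ^ 2 - 2 * c * (inner ℂ x y : ℂ).re + c ^ 2 * ‖y‖ ^ 2 := by
  rw [@norm_sub_sq ℂ]
  rw [inner_smul_right, norm_smul]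
  simp only [RCLike.re_to_complex, Complex.re_ofReal_mul, Complex.norm_real, Real.norm_eq_abs,
    mul_pow, sq_abs]
  ring

theorem EE_step (hsa : ∀ i f g, inner ℂ (Q i f) g = inner ℂ f (Q i g))
    (hid : ∀ i f, Q i (Q i f) = Q i f) {κ c : ℝ} (hc : 0 ≤ c) (hcN : c * Fintype.card ι ≤ 1)
    (hQ : ∀ f, κ * EE Q f ≤ ‖LL Q f‖ ^ 2) (f : H) :
    EE Q (f - (c : ℂ) • LL Q f) ≤ (1 - κ * c) * EE Q f := by
  set g := LL Q f with hg
  have h1 : EE Q (f - (c : ℂ) • g) = EE Q f - 2 * c * ‖g‖ ^ 2 + c ^ 2 * EE Q g := by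
    have h2 : ∀ i, ‖Q i (f - (c : ℂ) • g)‖ ^ 2 = ‖Q i f‖ ^ 2 -
        2 * c * (inner ℂ (Q i f) g : ℂ).re + c ^ 2 * ‖Q i g‖ ^ 2 := by
      intro i
      rw [map_sub, map_smul, norm_sub_smul_sq, ← hsa, hid]
    have h3 : ∑ i, (inner ℂ (Q i f) g : ℂ).re = ‖g‖ ^ 2 := by
      rw [← Complex.re_sum, ← sum_inner]
      have h4 : (inner ℂ (∑ i, Q i f) g : ℂ) = inner ℂ g g := by
        rw [hg]; rfl
      rw [h4]
      have := inner_self_eq_norm_sq (𝕜 := ℂ) g
      simpa using this
    unfold EE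
    simp only [h2, Finset.sum_add_distrib, Finset.sum_sub_distrib, ← Finset.mul_sum, h3]
  have h5 := EE_le hsa hid g
  have h6 := hQ f
  rw [h1]
  have h7 : c ^ 2 * EE Q g ≤ c * ‖g‖ ^ 2 := by
    calc c ^ 2 * EE Q g ≤ c ^ 2 * (Fintype.card ι * ‖g‖ ^ 2) :=
          mul_le_mul_of_nonneg_left h5 (by positivity)
      _ = (c * Fintype.card ι) * (c * ‖g‖ ^ 2) := by ring
      _ ≤ 1 * (c * ‖g‖ ^ 2) := mul_le_mul_of_nonneg_right hcN (by positivity)
      _ = c * ‖g‖ ^ 2 := one_mul _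
  have h8 : c * (κ * EE Q f) ≤ c * ‖g‖ ^ 2 := mul_le_mul_of_nonneg_left h6 hc
  nlinarith

theorem limit_exists [CompleteSpace H]
    (hsa : ∀ i f g, inner ℂ (Q i f) g = inner ℂ f (Q i g))
    (hid : ∀ i f, Q i (Q i f) = Q i f) {κ c : ℝ} (hc : 0 < c) (hcN : c * Fintype.card ι ≤ 1)
    (hc1 : c ≤ 1) (hκ : 0 < κ) (hκ1 : κ ≤ 1)
    (hQ : ∀ f, κ * EE Q f ≤ ‖LL Q f‖ ^ 2) (f : H) :
    ∃ f' : H, (∀ i, Q i f' = 0) ∧ ‖f - f'‖ ≤ √(EE Q f) / (1 - √(1 - κ * c)) := by
  set r : ℝ := 1 - κ * c with hr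
  have hκc : κ * c ≤ 1 := by nlinarith
  have hκc0 : 0 < κ * c := mul_pos hκ hc
  have hr0 : 0 ≤ r := by linarith
  have hr1 : r < 1 := by linarith
  have hsr1 : √r < 1 := by
    rw [Real.sqrt_lt' one_pos]; simpa using hr1
  set T : H → H := fun f => f - (c : ℂ) • LL Q f with hT
  have hE : ∀ k : ℕ, EE Q (T^[k] f) ≤ r ^ k * EE Q f := by
    intro k
    induction k with
    | zero => simp
    | succ n ih =>
      rw [Function.iterate_succ_apply']
      calc EE Q (T (T^[n] f)) ≤ r * EE Q (T^[n] f) :=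
            EE_step hsa hid hc.le hcN hQ (T^[n] f)
        _ ≤ r * (r ^ n * EE Q f) := mul_le_mul_of_nonneg_left ih hr0
        _ = r ^ (n + 1) * EE Q f := by ring
  have hd : ∀ g : H, dist g (T g) ≤ √(EE Q g) := by
    intro g
    apply Real.le_sqrt_of_sq_le
    have h1 : dist g (T g) = c * ‖LL Q g‖ := by
      rw [dist_eq_norm, hT]
      simp only [sub_sub_cancel, norm_smul, Complex.norm_real, Real.norm_eq_abs, abs_of_pos hc]
    rw [h1, mul_pow]
    calc c ^ 2 * ‖LL Q g‖ ^ 2 ≤ c ^ 2 * (Fintype.card ι * EE Q g) :=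
          mul_le_mul_of_nonneg_left (LL_le g) (by positivity)
      _ = c * ((c * Fintype.card ι) * EE Q g) := by ring
      _ ≤ c * (1 * EE Q g) := mul_le_mul_of_nonneg_left
          (mul_le_mul_of_nonneg_right hcN (EE_nonneg Q g)) hc.le
      _ ≤ 1 * (1 * EE Q g) := mul_le_mul_of_nonneg_right hc1 (by have := EE_nonneg Q g; linarith)
      _ = EE Q g := by ring
  have hu : ∀ n : ℕ, dist (T^[n] f) (T^[n + 1] f) ≤ √(EE Q f) * √r ^ n := by
    intro n
    rw [Function.iterate_succ_apply']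
    refine le_trans (hd _) ?_
    refine le_trans (Real.sqrt_le_sqrt (hE n)) ?_
    rw [Real.sqrt_mul (by positivity), mul_comm]
    apply le_of_eq
    congr 1
    rw [Real.sqrt_eq_rpow, Real.sqrt_eq_rpow, ← Real.rpow_natCast, ← Real.rpow_mul hr0,
      ← Real.rpow_natCast, ← Real.rpow_mul hr0, mul_comm]
  obtain ⟨f', hf'⟩ := cauchySeq_tendsto_of_complete (cauchySeq_of_le_geometric _ _ hsr1 hu)
  refine ⟨f', ?_, ?_⟩
  · intro i
    have h1 : Tendsto (fun n => ‖Q i (T^[n] f)‖ ^ 2) atTop (𝓝 (‖Q i f'‖ ^ 2)) :=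
      (((Q i).continuous.tendsto f').comp hf').norm.pow 2
    have h2 : Tendsto (fun n : ℕ => r ^ n * EE Q f) atTop (𝓝 (0 * EE Q f)) :=
      (tendsto_pow_atTop_nhds_zero_of_lt_one hr0 hr1).mul_const _
    have h3 : ‖Q i f'‖ ^ 2 ≤ 0 * EE Q f := by
      refine le_of_tendsto_of_tendsto' h1 h2 fun n => le_trans ?_ (hE n)
      exact Finset.single_le_sum (f := fun i => ‖Q i (T^[n] f)‖ ^ 2)
        (fun i _ => by positivity) (Finset.mem_univ i)
    have h4 : ‖Q i f'‖ ^ 2 = 0 := le_antisymm (by linarith) (by positivity)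
    exact norm_eq_zero.mp (pow_eq_zero_iff (two_ne_zero) |>.mp h4)
  · have := dist_le_of_le_geometric_of_tendsto₀ _ _ hsr1 hu hf'
    simpa [dist_eq_norm] using this

end Abs

theorem norm_pow_sub_le {H : Type} [NormedAddCommGroup H] [InnerProductSpace ℂ H]
    [CompleteSpace H] (u : H →L[ℂ] H) (hu : u ∈ unitary (H →L[ℂ] H)) (f : H) (j : ℕ) :
    ‖f - (u ^ j) f‖ ≤ j * ‖u f - f‖ := by
  induction j with
  | zero => simp
  | succ n ih =>
    have h1 : f - (u ^ (n + 1)) f = (f - (u ^ n) f) - (u ^ n) (u f - f) := by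
      rw [pow_succ, ContinuousLinearMap.mul_apply, map_sub]
      abel
    have h2 : ‖(u ^ n) (u f - f)‖ = ‖u f - f‖ := by
      have h3 : u ^ n ∈ unitary (H →L[ℂ] H) := Submonoid.pow_mem _ hu n
      exact ((ContinuousLinearMap.norm_map_iff_adjoint_comp_self (u ^ n)).mpr
        (Unitary.star_mul_self_of_mem h3)) _
    rw [h1]
    refine le_trans (norm_sub_le _ _) ?_
    rw [h2, Nat.cast_succ, add_mul, one_mul]
    exact add_le_add ih le_rfl

theorem norm_sub_Pav_le {H : Type} [NormedAddCommGroup H] [InnerProductSpace ℂ H]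
    [CompleteSpace H] {p : ℕ} (hp : 0 < p) (u : H →L[ℂ] H) (hu : u ∈ unitary (H →L[ℂ] H))
    (f : H) : ‖f - Pav p u f‖ ≤ p * ‖u f - f‖ := by
  have hp' : (p : ℂ) ≠ 0 := by exact_mod_cast hp.ne'
  have hp'' : (0 : ℝ) < p := by exact_mod_cast hp
  have h1 : f - Pav p u f = (p : ℂ)⁻¹ • ∑ j ∈ Finset.range p, (f - (u ^ j) f) := by
    rw [Finset.sum_sub_distrib, smul_sub, Finset.sum_const, Finset.card_range,
      ← Nat.cast_smul_eq_nsmul ℂ, smul_smul, inv_mul_cancel₀ hp', one_smul]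
    congr 1
    simp [Pav]
  rw [h1, norm_smul, norm_inv, Complex.norm_natCast]
  have h2 : ‖∑ j ∈ Finset.range p, (f - (u ^ j) f)‖ ≤ p * (p * ‖u f - f‖) := by
    refine le_trans (norm_sum_le _ _) ?_
    have h3 : ∀ j ∈ Finset.range p, ‖f - (u ^ j) f‖ ≤ p * ‖u f - f‖ := by
      intro j hj
      refine le_trans (norm_pow_sub_le u hu f j) ?_
      refine mul_le_mul_of_nonneg_right ?_ (norm_nonneg _)
      exact_mod_cast (Finset.mem_range.mp hj).le
    refine le_trans (Finset.sum_le_sum h3) ?_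
    simp [Finset.sum_const]
  calc (p : ℝ)⁻¹ * ‖∑ j ∈ Finset.range p, (f - (u ^ j) f)‖
      ≤ (p : ℝ)⁻¹ * (p * (p * ‖u f - f‖)) := mul_le_mul_of_nonneg_left h2 (by positivity)
    _ = p * ‖u f - f‖ := by field_simp

end HA2

/-- TARGET -/
theorem hasT_of_tsystem {G : Type} [Group G] {ι : Type} [Fintype ι] {p D : ℕ} {s : ι → G}
    (h : Helper418.IsTSystem p D s) (hgen : Subgroup.closure (Set.range s) = ⊤) : HasT G := by
  classical
  intro H _ _ _ π hπ
  have hp := h.prime
  have hp0 : 0 < p := hp.pos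
  have hpR : (0 : ℝ) < p := by exact_mod_cast hp0
  have hsp : 0 < √(p : ℝ) := Real.sqrt_pos.mpr hpR
  -- the unitaries
  set U : ι → (H →L[ℂ] H) := fun i => (π (s i) : H →L[ℂ] H) with hU
  have hUu : ∀ i, U i ∈ unitary (H →L[ℂ] H) := fun i => (π (s i)).2
  have hUp : ∀ i, U i ^ p = 1 := by
    intro i
    have h1 : (π (s i)) ^ p = 1 := by rw [← map_pow, h.pow i, map_one]
    have h2 : ((π (s i) ^ p : unitary (H →L[ℂ] H)) : H →L[ℂ] H) = 1 := by rw [h1]; rfl
    simpa [hU] using h2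
  have hstar : ∀ g : G, ((π g⁻¹ : unitary (H →L[ℂ] H)) : H →L[ℂ] H) = star (π g : H →L[ℂ] H) := by
    intro g
    rw [map_inv]
    rfl
  have hcomm : ∀ a b : G, Commute a b →
      Commute (π a : H →L[ℂ] H) (π b : H →L[ℂ] H) := by
    intro a b hab
    have h1 : π a * π b = π b * π a := by rw [← map_mul, hab.eq, map_mul]
    have h2 := congrArg (fun x : unitary (H →L[ℂ] H) => (x : H →L[ℂ] H)) h1
    simpa [Commute, SemiconjBy] using h2
  have hcm : ∀ a b : G, ((π (Helper418.cm a b) : unitary (H →L[ℂ] H)) : H →L[ℂ] H) =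
      (π a : H →L[ℂ] H) * (π b : H →L[ℂ] H) * star (π a : H →L[ℂ] H) *
        star (π b : H →L[ℂ] H) := by
    intro a b
    rw [← hstar a, ← hstar b, Helper418.cm, map_mul, map_mul, map_mul]
    rfl
  set Q : ι → (H →L[ℂ] H) := fun i => 1 - Pav p (U i) with hQdef
  have hQa : ∀ i f, Q i f = f - Pav p (U i) f := by
    intro i f; simp [hQdef]
  have hsaP : ∀ i (f g : H), inner ℂ (Pav p (U i) f) g = inner ℂ f (Pav p (U i) g) := by
    intro i f g
    have h1 := HA2.star_Pav hp0 (U i) (hUu i) (hUp i)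
    conv_lhs => rw [← h1]
    rw [ContinuousLinearMap.star_eq_adjoint, ContinuousLinearMap.adjoint_inner_left]
  have hsa : ∀ i (f g : H), inner ℂ (Q i f) g = inner ℂ f (Q i g) := by
    intro i f g
    rw [hQa, hQa, inner_sub_left, inner_sub_right, hsaP]
  have hid : ∀ i f, Q i (Q i f) = Q i f := by
    intro i f
    have h1 : Pav p (U i) (Pav p (U i) f) = Pav p (U i) f := by
      rw [← ContinuousLinearMap.mul_apply, HA2.Pav_idem hp0 (U i) (hUp i)]
    rw [hQa i (Q i f), hQa i f, map_sub, h1, sub_self, sub_zero]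
  -- the pair inequality
  set e : ι → ι → ℝ := fun i j => if Commute (s i) (s j) then 0 else 1 / √p with he
  have he0 : ∀ i j, e i j = e j i := by
    intro i j
    simp only [he]
    by_cases hc : Commute (s i) (s j)
    · rw [if_pos hc, if_pos hc.symm]
    · rw [if_neg hc, if_neg (fun hc' => hc hc'.symm)]
  have hesum : ∀ i, ∑ j, e i j ≤ D / √p := by
    intro i
    have h1 : ∑ j, e i j = ((Finset.univ.filter fun j => ¬ Commute (s i) (s j)).card : ℝ) *
        (1 / √p) := by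
      simp only [he]
      rw [Finset.sum_ite]
      simp
    rw [h1]
    have h2 : ((Finset.univ.filter fun j => ¬ Commute (s i) (s j)).card : ℝ) ≤ D := by
      have := h.deg i
      have h3 : (Finset.univ.filter fun j => ¬ Commute (s i) (s j)).card ≤ D := by
        convert this
      exact_mod_cast h3
    calc ((Finset.univ.filter fun j => ¬ Commute (s i) (s j)).card : ℝ) * (1 / √p)
        ≤ D * (1 / √p) := mul_le_mul_of_nonneg_right h2 (by positivity)
      _ = D / √p := by ring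
  have hpair : ∀ i j (f : H), i ≠ j →
      -(e i j) * (‖Q i f‖ ^ 2 + ‖Q j f‖ ^ 2) ≤ 2 * (inner ℂ (Q i f) (Q j f) : ℂ).re := by
    intro i j f _
    by_cases hc : Commute (s i) (s j)
    · have h1 := pair_comm hp (U i) (U j) (hUu i) (hUu j) (hUp i) (hUp j) (hcomm _ _ hc) f
      simp only [he, if_pos hc, hQa]
      simpa using h1
    · have h1 : Commute (U i * U j * star (U i) * star (U j)) (U i) := by
        have := hcomm _ _ (h.comm i j)
        rw [hcm] at this
        exact this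
      have h2 : Commute (U i * U j * star (U i) * star (U j)) (U j) := by
        have h3 : Commute (Helper418.cm (s i) (s j)) (s j) := by
          have h4 : Helper418.cm (s i) (s j) = (Helper418.cm (s j) (s i))⁻¹ := by
            simp [Helper418.cm, mul_assoc]
          rw [h4]
          exact (h.comm j i).inv_left
        have := hcomm _ _ h3
        rw [hcm] at this
        exact this
      have h5 := pair_ineq hp (U i) (U j) (hUu i) (hUu j) (hUp i) (hUp j) h1 h2 f
      simp only [he, if_neg hc, hQa]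
      exact h5
  set κ : ℝ := 1 - D / √p with hκdef
  have hκ : 0 < κ := by
    have h1 : (D : ℝ) < √p := by
      apply Real.lt_sqrt_of_sq_lt
      exact_mod_cast h.hD
    have h2 : (D : ℝ) / √p < 1 := (div_lt_one hsp).mpr h1
    linarith
  have hκ1 : κ ≤ 1 := by
    have : 0 ≤ (D : ℝ) / √p := by positivity
    linarith
  have hQ : ∀ f, κ * HA2.EE Q f ≤ ‖HA2.LL Q f‖ ^ 2 := by
    intro f
    set a : ι → ℝ := fun i => ‖Q i f‖ ^ 2 with ha
    have ha0 : ∀ i, 0 ≤ a i := fun i => by positivity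
    have h1 : ‖HA2.LL Q f‖ ^ 2 = ∑ i, ∑ j, (inner ℂ (Q i f) (Q j f) : ℂ).re := by
      have h2 := inner_self_eq_norm_sq (𝕜 := ℂ) (HA2.LL Q f)
      rw [← h2]
      unfold HA2.LL
      rw [sum_inner]
      simp only [inner_sum]
      simp
    have h3 : ∀ i j, (if i = j then a i else 0) - (e i j * a i + e i j * a j) / 2 ≤
        (inner ℂ (Q i f) (Q j f) : ℂ).re := by
      intro i j
      by_cases hij : i = j
      · subst hij
        have h4 : e i i = 0 := by simp [he]
        have h5 : (inner ℂ (Q i f) (Q i f) : ℂ).re = a i := by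
          have := inner_self_eq_norm_sq (𝕜 := ℂ) (Q i f)
          simpa using this
        rw [h4, h5]
        simp
      · have h6 := hpair i j f hij
        rw [if_neg hij]
        have : a i = ‖Q i f‖ ^ 2 := rfl
        have : a j = ‖Q j f‖ ^ 2 := rfl
        nlinarith
    have h7 : ∑ i, ∑ j, ((if i = j then a i else 0) - (e i j * a i + e i j * a j) / 2) =
        ∑ i, a i - ∑ i, (∑ j, e i j) * a i := by
      have h8 : ∑ i, ∑ j, e i j * a j = ∑ i, ∑ j, e i j * a i := by
        rw [Finset.sum_comm]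
        refine Finset.sum_congr rfl fun i _ => Finset.sum_congr rfl fun j _ => ?_
        rw [he0]
      have h9 : ∑ i, ∑ j, ((if i = j then a i else 0) - (e i j * a i + e i j * a j) / 2) =
          ∑ i, a i - (∑ i, ∑ j, e i j * a i + ∑ i, ∑ j, e i j * a j) / 2 := by
        simp only [Finset.sum_sub_distrib, ← Finset.sum_div, Finset.sum_add_distrib,
          Finset.sum_ite_eq, Finset.mem_univ, if_true]
      rw [h9, h8]
      simp only [Finset.sum_mul]
      ring
    have h10 : ∑ i, (∑ j, e i j) * a i ≤ D / √p * ∑ i, a i := by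
      rw [Finset.mul_sum]
      exact Finset.sum_le_sum fun i _ => mul_le_mul_of_nonneg_right (hesum i) (ha0 i)
    have h11 : ∑ i, ∑ j, ((if i = j then a i else 0) - (e i j * a i + e i j * a j) / 2) ≤
        ∑ i, ∑ j, (inner ℂ (Q i f) (Q j f) : ℂ).re :=
      Finset.sum_le_sum fun i _ => Finset.sum_le_sum fun j _ => h3 i j
    rw [h1]
    have h12 : HA2.EE Q f = ∑ i, a i := rfl
    rw [h12]
    have h13 : κ * ∑ i, a i = ∑ i, a i - D / √p * ∑ i, a i := by rw [hκdef]; ring
    rw [h13]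
    linarith
  -- constants
  set c : ℝ := 1 / (Fintype.card ι + 1) with hc
  have hc0 : 0 < c := by positivity
  have hcN : c * Fintype.card ι ≤ 1 := by
    rw [hc, one_div, inv_mul_le_iff₀ (by positivity)]
    linarith
  have hc1 : c ≤ 1 := by
    rw [hc, div_le_one (by positivity)]
    have : (0 : ℝ) ≤ Fintype.card ι := by positivity
    linarith
  have hden : 0 < 1 - √(1 - κ * c) := by
    have : √(1 - κ * c) < 1 := by
      rw [Real.sqrt_lt' one_pos]
      have := mul_pos hκ hc0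
      linarith
    linarith
  set ρ : ℝ := 1 - √(1 - κ * c) with hρ
  -- the almost invariant vector
  set ε : ℝ := ρ / (2 * p * (Fintype.card ι + 1)) with hε
  have hε0 : 0 < ε := by positivity
  obtain ⟨v, hv1, hv⟩ := hπ (Finset.univ.image s) ε hε0
  obtain ⟨w, hw0, hw⟩ := HA2.limit_exists hsa hid hc0 hcN hc1 hκ hκ1 hQ v
  refine ⟨w, ?_, ?_⟩
  · have hE : HA2.EE Q v ≤ (p * ε * (Fintype.card ι + 1)) ^ 2 := by
      have h1 : ∀ i ∈ (Finset.univ : Finset ι), ‖Q i v‖ ^ 2 ≤ (p * ε) ^ 2 := by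
        intro i _
        refine pow_le_pow_left₀ (norm_nonneg _) ?_ 2
        rw [hQa]
        refine le_trans (HA2.norm_sub_Pav_le hp0 (U i) (hUu i) v) ?_
        refine mul_le_mul_of_nonneg_left ?_ hpR.le
        exact (hv (s i) (Finset.mem_image_of_mem s (Finset.mem_univ i))).le
      have h2 : HA2.EE Q v ≤ Fintype.card ι * (p * ε) ^ 2 := by
        unfold HA2.EE
        refine le_trans (Finset.sum_le_sum h1) ?_
        simp [Finset.sum_const]
      refine le_trans h2 ?_
      rw [mul_pow (p * ε), mul_comm]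
      refine mul_le_mul_of_nonneg_left ?_ (by positivity)
      have : (0 : ℝ) ≤ Fintype.card ι := by positivity
      nlinarith
    have hsE : √(HA2.EE Q v) ≤ ρ / 2 := by
      refine le_trans (Real.sqrt_le_sqrt hE) ?_
      rw [Real.sqrt_sq (by positivity)]
      apply le_of_eq
      rw [hε]
      field_simp
    intro hw'
    rw [hw', sub_zero, hv1] at hw
    have h3 : √(HA2.EE Q v) / ρ ≤ 1 / 2 := by
      rw [div_le_iff₀ hden]
      linarith
    linarith
  · have hUw : ∀ i, U i w = w := by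
      intro i
      have h1 : Pav p (U i) w = w := by
        have := hw0 i
        rw [hQa, sub_eq_zero] at this
        exact this.symm
      have h2 : U i (Pav p (U i) w) = Pav p (U i) w := by
        rw [← ContinuousLinearMap.mul_apply, HA2.mul_Pav (U i) (hUp i)]
      rw [h1] at h2
      exact h2
    have hcl : ∀ g ∈ Subgroup.closure (Set.range s), (π g : H →L[ℂ] H) w = w := by
      intro g hg
      induction hg using Subgroup.closure_induction with
      | mem x hx =>
        obtain ⟨i, rfl⟩ := hx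
        exact hUw i
      | one => rw [map_one]; rfl
      | mul x y _ _ hx hy =>
        rw [map_mul]
        show (π x : H →L[ℂ] H) ((π y : H →L[ℂ] H) w) = w
        rw [hy, hx]
      | inv x _ hx =>
        have h1 : ((π x⁻¹ : unitary (H →L[ℂ] H)) : H →L[ℂ] H) ((π x : H →L[ℂ] H) w) = w := by
          have h2 : (π x⁻¹ * π x : unitary (H →L[ℂ] H)) = 1 := by
            rw [← map_mul, inv_mul_cancel, map_one]
          have h3 := congrArg (fun x : unitary (H →L[ℂ] H) => (x : H →L[ℂ] H) w) h2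
          exact h3
        rw [hx] at h1
        exact h1
    intro g
    exact hcl g (by rw [hgen]; trivial)

end Helper418HL
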