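import Pool.Agent.Helper418_HL.Defs

set_option autoImplicit false

namespace Helper418HL

open Matrix Filter Topology Pool.Agent.W661.RC Pool.Agent.W683.RC
open scoped ComplexOrder

namespace HC3

/-- Pythagoras on the right -/
lemma hs_eq_sum_right {d N : ℕ} (c : Fin N → Mt d) (hc : ∀ j, IsPr (c j))
    (hc1 : ∑ j, c j = 1) (y : Mt d) : hs y = ∑ k, hs (y * c k) := by
  have h : ∀ k, hs (y * c k) = tr (yᴴ * y * c k) := by
    intro k
    rw [hs_eq_tr, Matrix.conjTranspose_mul, (hc k).1]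
    rw [tr_mul_comm]
    have e : y * c k * (c k * yᴴ) = y * (c k * c k) * yᴴ := by simp only [Matrix.mul_assoc]
    rw [e, (hc k).2, tr_mul_comm, ← Matrix.mul_assoc]
  simp only [h]
  rw [← tr_sum, ← Matrix.mul_sum, hc1, Matrix.mul_one, hs_eq_tr]

/-- Pythagoras on the left -/
lemma hs_eq_sum_left {d N : ℕ} (c : Fin N → Mt d) (hc : ∀ j, IsPr (c j))
    (hc1 : ∑ j, c j = 1) (y : Mt d) : hs y = ∑ k, hs (c k * y) := by
  rw [← hs_conjTranspose, hs_eq_sum_right c hc hc1]
  refine Finset.sum_congr rfl fun k _ => ?_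
  rw [← hs_conjTranspose, Matrix.conjTranspose_mul, Matrix.conjTranspose_conjTranspose, (hc k).1]

/-- The inequality for one unitary. -/
lemma one_step {d N : ℕ} (u : Mt d)
    (c : Fin N → Mt d) (hc : ∀ j, IsPr (c j)) (hcc : ∀ i j, i ≠ j → c i * c j = 0)
    (hc1 : ∑ j, c j = 1) (x : Fin N → Mt d) (hx : ∀ j, c j * x j * c j = x j)
    (hx1 : ∀ j, Le ((x j)ᴴ * x j) 1) :
    hs (u * (∑ j, x j) - (∑ j, x j) * u) ≤
      ∑ j, hs (c j * u * x j - x j * u * c j) + 4 * ∑ j, hs (u * c j - c j * u) := by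
  have hl : ∀ j, c j * x j = x j := by
    intro j
    conv_rhs => rw [← hx j]
    conv_lhs => rw [← hx j]
    rw [← Matrix.mul_assoc, ← Matrix.mul_assoc, (hc j).2]
  have hr : ∀ j, x j * c j = x j := by
    intro j
    conv_rhs => rw [← hx j]
    conv_lhs => rw [← hx j]
    rw [Matrix.mul_assoc, (hc j).2]
  have hL : ∀ i, c i * (∑ j, x j) = x i := by
    intro i
    rw [Matrix.mul_sum, Finset.sum_eq_single i]
    · exact hl i
    · intro j _ hj
      rw [← hl j, ← Matrix.mul_assoc, hcc i j (Ne.symm hj), Matrix.zero_mul]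
    · intro h; exact absurd (Finset.mem_univ i) h
  have hR : ∀ k, (∑ j, x j) * c k = x k := by
    intro k
    rw [Matrix.sum_mul, Finset.sum_eq_single k]
    · exact hr k
    · intro j _ hj
      rw [← hr j, Matrix.mul_assoc, hcc j k hj, Matrix.mul_zero]
    · intro h; exact absurd (Finset.mem_univ k) h
  set X := ∑ j, x j with hX
  have hik : ∀ i k, c i * (u * X - X * u) * c k = c i * u * x k - x i * u * c k := by
    intro i k
    calc c i * (u * X - X * u) * c k = c i * u * (X * c k) - (c i * X) * u * c k := by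
          noncomm_ring
      _ = _ := by rw [hL, hR]
  have hpy : hs (u * X - X * u) = ∑ k, ∑ i, hs (c i * u * x k - x i * u * c k) := by
    rw [hs_eq_sum_right c hc hc1]
    refine Finset.sum_congr rfl fun k _ => ?_
    rw [hs_eq_sum_left c hc hc1]
    refine Finset.sum_congr rfl fun i _ => ?_
    rw [← Matrix.mul_assoc, hik]
  have hx2 : ∀ j (z : Mt d), hs (x j * z) ≤ hs z := fun j z => hs_mul_le (hx1 j) z
  have hx3 : ∀ j (z : Mt d), hs (z * x j) ≤ hs z := fun j z => hs_mul_le_right (hx1 j) z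
  have hoff : ∀ i k, i ≠ k → hs (c i * u * x k - x i * u * c k) ≤
      4 * hs (c i * (u * c k - c k * u)) := by
    intro i k h
    have e0 : c i * (u * c k - c k * u) = c i * u * c k := by
      rw [Matrix.mul_sub, ← Matrix.mul_assoc, ← Matrix.mul_assoc, hcc i k h, Matrix.zero_mul,
        sub_zero]
    have e1 : c i * u * x k = c i * u * c k * x k := by
      rw [Matrix.mul_assoc (c i * u), hl]
    have e2 : x i * u * c k = x i * (c i * u * c k) := by
      rw [← Matrix.mul_assoc, ← Matrix.mul_assoc, hr]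
    rw [e0]
    have h1 := hx3 k (c i * u * c k)
    have h2 := hx2 i (c i * u * c k)
    have h3 := hs_sub_le (c i * u * x k) (x i * u * c k)
    rw [← e1] at h1
    rw [← e2] at h2
    linarith
  rw [hpy]
  have hk : ∀ k, ∑ i, hs (c i * u * x k - x i * u * c k) ≤
      hs (c k * u * x k - x k * u * c k) + 4 * hs (u * c k - c k * u) := by
    intro k
    rw [hs_eq_sum_left c hc hc1 (u * c k - c k * u), Finset.mul_sum]
    rw [← Finset.add_sum_erase Finset.univ _ (Finset.mem_univ k)]
    refine add_le_add le_rfl ?_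
    refine (Finset.sum_le_sum fun i hi => hoff i k (Finset.ne_of_mem_erase hi)).trans ?_
    refine Finset.sum_le_sum_of_subset_of_nonneg (Finset.erase_subset _ _) fun i _ _ => ?_
    exact mul_nonneg (by norm_num) (hs_nonneg _)
  refine (Finset.sum_le_sum fun k _ => hk k).trans (le_of_eq ?_)
  rw [Finset.sum_add_distrib, Finset.mul_sum]

end HC3

/-- TARGET -/
theorem corner_ineq {d k N : ℕ} (u : Fin k → Mt d) (hu : ∀ s, (u s)ᴴ * u s = 1)
    (c : Fin N → Mt d) (hc : ∀ j, IsPr (c j)) (hcc : ∀ i j, i ≠ j → c i * c j = 0)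
    (hc1 : ∑ j, c j = 1) (x : Fin N → Mt d) (hx : ∀ j, c j * x j * c j = x j)
    (hx1 : ∀ j, Le ((x j)ᴴ * x j) 1) :
    en u (∑ j, x j) ≤ ∑ j, ∑ s, hs (c j * u s * x j - x j * u s * c j) + 4 * ∑ j, en u (c j) := by
  have _ := hu
  unfold en
  refine (Finset.sum_le_sum fun s _ => HC3.one_step (u s) c hc hcc hc1 x hx hx1).trans
    (le_of_eq ?_)
  rw [Finset.sum_add_distrib, ← Finset.mul_sum, Finset.sum_comm]
  congr 2
  exact Finset.sum_comm

end Helper418HL
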