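import Pool.Agent.Helper418_HL.Defs

set_option autoImplicit false

namespace Helper418HL

open Matrix Filter Topology Pool.Agent.W661.RC Pool.Agent.W683.RC
open scoped ComplexOrder

namespace HG

lemma comm_small {d : ℕ} {x : Mt d} (hx : Le (xᴴ * x) 1) (y : Mt d) :
    hs (y * x - x * y) ≤ 4 * hs y := by
  have h1 := hs_sub_le (y * x) (x * y)
  have h2 := hs_mul_le_right hx y
  have h3 := hs_mul_le hx y
  linarith

lemma comm_close {d : ℕ} {x : Mt d} (hx : Le (xᴴ * x) 1) (u w : Mt d) :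
    hs (u * x - x * u) ≤ 2 * hs (w * x - x * w) + 8 * hs (u - w) := by
  have h1 : u * x - x * u = (w * x - x * w) + ((u - w) * x - x * (u - w)) := by
    noncomm_ring
  have h2 := hs_add_le (w * x - x * w) ((u - w) * x - x * (u - w))
  have h3 := comm_small hx (u - w)
  rw [h1]
  linarith

lemma comm_prod {d : ℕ} {u v : Mt d} (hu : uᴴ * u = 1) (hv : vᴴ * v = 1) (x : Mt d) :
    hs (u * v * x - x * (u * v)) ≤ 2 * hs (u * x - x * u) + 2 * hs (v * x - x * v) := by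
  have h1 : u * v * x - x * (u * v) = (u * x - x * u) * v + u * (v * x - x * v) := by
    noncomm_ring
  have h2 := hs_add_le ((u * x - x * u) * v) (u * (v * x - x * v))
  rw [hs_mul_unit hv, hs_unit_mul hu] at h2
  rw [h1]
  exact h2

lemma ev_mul {G : Type} [Group G] {𝒰 : Ultrafilter ℕ} (M : Mdl G 𝒰) (g h : G) {t : ℝ}
    (ht : 0 < t) :
    ∀ᶠ n in (𝒰 : Filter ℕ), hs (M.U (g * h) n - M.U g n * M.U h n) ≤ t * M.d n := by
  have h1 := (M.mul g h).eventually (Iio_mem_nhds ht)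
  refine h1.mono fun n hn => ?_
  have h2 : (0 : ℝ) < M.d n := by exact_mod_cast M.pos n
  have h3 : hs (M.U (g * h) n - M.U g n * M.U h n) / M.d n < t := hn
  rw [div_lt_iff₀ h2] at h3
  exact h3.le

lemma ev_one {G : Type} [Group G] {𝒰 : Ultrafilter ℕ} (M : Mdl G 𝒰) {t : ℝ}
    (ht : 0 < t) :
    ∀ᶠ n in (𝒰 : Filter ℕ), hs (M.U 1 n - 1) ≤ t * M.d n := by
  refine (ev_mul M 1 1 ht).mono fun n hn => ?_
  rw [mul_one] at hn
  have h1 : M.U 1 n - M.U 1 n * M.U 1 n = M.U 1 n * (1 - M.U 1 n) := by noncomm_ring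
  rw [h1, hs_unit_mul (M.un 1 n), hs_sub_comm] at hn
  exact hn

lemma ev_inv {G : Type} [Group G] {𝒰 : Ultrafilter ℕ} (M : Mdl G 𝒰) (g : G) {t : ℝ}
    (ht : 0 < t) :
    ∀ᶠ n in (𝒰 : Filter ℕ), hs (M.U g⁻¹ n - (M.U g n)ᴴ) ≤ 4 * t * M.d n := by
  filter_upwards [ev_mul M g⁻¹ g ht, ev_one M ht] with n h1 h2
  rw [inv_mul_cancel] at h1
  have h3 : (M.U g⁻¹ n - (M.U g n)ᴴ) * M.U g n =
      -(M.U 1 n - M.U g⁻¹ n * M.U g n) + (M.U 1 n - 1) := by
    rw [Matrix.sub_mul, M.un g n]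
    abel
  rw [← hs_mul_unit (M.un g n), h3]
  have h4 := hs_add_le (-(M.U 1 n - M.U g⁻¹ n * M.U g n)) (M.U 1 n - 1)
  rw [hs_neg] at h4
  linarith

end HG

/-- TARGET -/
theorem gen_lin {G : Type} [Group G] {𝒰 : Ultrafilter ℕ} (M : Mdl G 𝒰) (P : Set G) (g : G)
    (hg : g ∈ Subgroup.closure P) :
    ∃ C : ℝ, 0 ≤ C ∧ ∀ (S : ∀ n, Set (Mt (M.d n))), (∀ n, ∀ x ∈ S n, Le (xᴴ * x) 1) →
      ∀ t : ℝ, 0 < t →
      (∀ v ∈ P, ∀ᶠ n in (𝒰 : Filter ℕ), ∀ x ∈ S n,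
        hs (M.U v n * x - x * M.U v n) ≤ t * M.d n) →
      ∀ᶠ n in (𝒰 : Filter ℕ), ∀ x ∈ S n, hs (M.U g n * x - x * M.U g n) ≤ C * t * M.d n := by
  induction hg using Subgroup.closure_induction with
  | mem v hv =>
    refine ⟨1, zero_le_one, fun S hS t ht h => ?_⟩
    rw [one_mul]
    exact h v hv
  | one =>
    refine ⟨4, by norm_num, fun S hS t ht h => ?_⟩
    refine (HG.ev_one M ht).mono fun n hn x hx => ?_
    have h1 := HG.comm_small (hS n x hx) (M.U 1 n - 1)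
    have h2 : (M.U 1 n - 1) * x - x * (M.U 1 n - 1) = M.U 1 n * x - x * M.U 1 n := by
      noncomm_ring
    rw [h2] at h1
    linarith
  | mul a b _ _ iha ihb =>
    obtain ⟨Ca, hCa, ha⟩ := iha
    obtain ⟨Cb, hCb, hb⟩ := ihb
    refine ⟨4 * Ca + 4 * Cb + 8, by positivity, fun S hS t ht h => ?_⟩
    filter_upwards [ha S hS t ht h, hb S hS t ht h, HG.ev_mul M a b ht] with n h1 h2 h3 x hx
    have h4 := HG.comm_close (hS n x hx) (M.U (a * b) n) (M.U a n * M.U b n)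
    have h5 := HG.comm_prod (M.un a n) (M.un b n) x
    have h6 := h1 x hx
    have h7 := h2 x hx
    nlinarith
  | inv a _ iha =>
    obtain ⟨Ca, hCa, ha⟩ := iha
    refine ⟨2 * Ca + 32, by positivity, fun S hS t ht h => ?_⟩
    filter_upwards [ha S hS t ht h, HG.ev_inv M a ht] with n h1 h3 x hx
    have h4 := HG.comm_close (hS n x hx) (M.U a⁻¹ n) (M.U a n)ᴴ
    rw [hs_comm_adj (M.un a n)] at h4
    have h6 := h1 x hx
    nlinarith

end Helper418HL
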