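import Pool.Agent.Helper418_HL.Defs

set_option autoImplicit false

namespace Helper418HL.HS1

open Matrix Filter Topology Pool.Agent.W661.RC Pool.Agent.W683.RC
open scoped ComplexOrder

section span
open scoped Matrix.Norms.L2Operator

theorem span_un {d : ℕ} (A : StarSubalgebra ℂ (Mt d)) (a : Mt d) (ha : a ∈ A) :
    a ∈ Submodule.span ℂ {u : Mt d | u ∈ A ∧ uᴴ * u = 1} := by
  have hcl : IsClosed (A : Set (Mt d)) :=
    Submodule.closed_of_finiteDimensional (Subalgebra.toSubmodule A.toSubalgebra)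
  let _ : CStarAlgebra A := StarSubalgebra.cstarAlgebra A (h_closed := hcl)
  have h1 : (⟨a, ha⟩ : A) ∈ Submodule.span ℂ ((unitary A : Submonoid A) : Set A) := by
    rw [CStarAlgebra.span_unitary]
    trivial
  have h2 := Submodule.mem_map_of_mem (f := A.subtype.toAlgHom.toLinearMap) h1
  rw [Submodule.map_span] at h2
  refine Submodule.span_mono ?_ h2
  rintro _ ⟨u, hu, rfl⟩
  refine ⟨u.2, ?_⟩
  have h3 := congrArg Subtype.val (Unitary.mem_iff.1 hu).1
  exact h3

end span

/-- linear endomorphisms of the matrices -/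
abbrev VV (d : ℕ) := Mt d →ₗ[ℂ] Mt d

/-- index pairs -/
abbrev Ix (d : ℕ) := Fin d × Fin d

/-- the ambient Hilbert space -/
abbrev EE (d : ℕ) := EuclideanSpace ℂ (Ix d × Ix d)

/-- the rank one map of `u` -/
noncomputable def rk {d : ℕ} (u : Mt d) : VV d where
  toFun x := trace (uᴴ * x) • u
  map_add' x y := by rw [mul_add, trace_add, add_smul]
  map_smul' c x := by rw [mul_smul_comm, trace_smul, RingHom.id_apply, smul_eq_mul, mul_smul]

theorem rk_apply {d : ℕ} (u x : Mt d) : rk u x = trace (uᴴ * x) • u := rfl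

/-- matrices as vectors -/
noncomputable def vcE (m n : Type) [Fintype m] [Fintype n] :
    Matrix m n ℂ ≃ₗ[ℂ] EuclideanSpace ℂ (m × n) where
  toFun := vc
  invFun v := Matrix.of fun i j => v (i, j)
  left_inv _ := rfl
  right_inv _ := rfl
  map_add' := vc_add
  map_smul' := vc_smul

/-- matrices as functions -/
def fnE (d : ℕ) : Mt d ≃ₗ[ℂ] (Ix d → ℂ) where
  toFun x p := x p.1 p.2
  invFun v := Matrix.of fun i j => v (i, j)
  left_inv _ := rfl
  right_inv _ := rfl
  map_add' _ _ := rfl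
  map_smul' _ _ := rfl

/-- the basis -/
noncomputable def bs (d : ℕ) : Module.Basis (Ix d) ℂ (Mt d) := Module.Basis.ofEquivFun (fnE d)

/-- endomorphisms as vectors -/
noncomputable def Psi (d : ℕ) : VV d ≃ₗ[ℂ] EE d :=
  (LinearMap.toMatrix (bs d) (bs d)).trans (vcE (Ix d) (Ix d))

/-- left and right multiplication -/
noncomputable def lr {d : ℕ} (a b : Mt d) : VV d := LinearMap.mulLeft ℂ a ∘ₗ LinearMap.mulRight ℂ b

theorem lr_apply {d : ℕ} (a b x : Mt d) : lr a b x = a * (x * b) := rfl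

theorem lr_entry {d : ℕ} (a b : Mt d) (p q : Ix d) :
    LinearMap.toMatrix (bs d) (bs d) (lr a b) p q = a p.1 q.1 * b q.2 p.2 := by
  rw [LinearMap.toMatrix_apply]
  have h1 : (bs d) q = Matrix.single q.1 q.2 (1 : ℂ) := by
    unfold bs
    rw [Module.Basis.coe_ofEquivFun]
    ext i j
    change (Pi.single q (1 : ℂ) : Ix d → ℂ) (i, j) = _
    rw [Pi.single_apply, Matrix.single_apply]
    obtain ⟨q1, q2⟩ := q
    simp only [Prod.mk.injEq]
    congr 1
    simp only [eq_comm]
  rw [h1]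
  unfold bs
  rw [Module.Basis.ofEquivFun_repr_apply]
  change (a * (Matrix.single q.1 q.2 (1 : ℂ) * b)) p.1 p.2 = _
  rw [Matrix.mul_apply]
  rw [Finset.sum_eq_single q.1]
  · rw [Matrix.single_mul_apply_same, one_mul]
  · intro i _ hi
    rw [Matrix.single_mul_apply_of_ne _ _ _ _ _ hi, mul_zero]
  · intro h
    exact absurd (Finset.mem_univ _) h

theorem lr_conj {d : ℕ} (a b : Mt d) :
    (LinearMap.toMatrix (bs d) (bs d) (lr a b))ᴴ = LinearMap.toMatrix (bs d) (bs d) (lr aᴴ bᴴ) := by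
  ext p q
  rw [Matrix.conjTranspose_apply, lr_entry, lr_entry, Matrix.conjTranspose_apply,
    Matrix.conjTranspose_apply, star_mul']

theorem lr_unit {d : ℕ} {a b : Mt d} (ha : aᴴ * a = 1) (hb : bᴴ * b = 1) :
    (LinearMap.toMatrix (bs d) (bs d) (lr a b))ᴴ * LinearMap.toMatrix (bs d) (bs d) (lr a b) = 1 := by
  rw [lr_conj, ← LinearMap.toMatrix_comp]
  have h1 : lr aᴴ bᴴ ∘ₗ lr a b = LinearMap.id := by
    ext1 x
    rw [LinearMap.comp_apply, lr_apply, lr_apply, LinearMap.id_apply]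
    have hb' := unit_symm hb
    calc aᴴ * (a * (x * b) * bᴴ) = (aᴴ * a) * x * (b * bᴴ) := by simp only [mul_assoc]
      _ = x := by rw [ha, hb', one_mul, mul_one]
  rw [h1, LinearMap.toMatrix_id]

/-- conjugation of endomorphisms -/
noncomputable def cjE {d : ℕ} (a b : Mt d) : VV d →ₗ[ℂ] VV d where
  toFun S := lr a b ∘ₗ S ∘ₗ lr aᴴ bᴴ
  map_add' S T := by
    rw [LinearMap.add_comp, LinearMap.comp_add]
  map_smul' c S := by
    rw [LinearMap.smul_comp, LinearMap.comp_smul, RingHom.id_apply]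

theorem norm_Psi_cjE {d : ℕ} {a b : Mt d} (ha : aᴴ * a = 1) (hb : bᴴ * b = 1) (S : VV d) :
    ‖Psi d (cjE a b S)‖ = ‖Psi d S‖ := by
  have h1 : ∀ S : VV d, ‖Psi d S‖ ^ 2 = hs (LinearMap.toMatrix (bs d) (bs d) S) := by
    intro S
    rw [hs_eq_norm]
    rfl
  have h2 : hs (LinearMap.toMatrix (bs d) (bs d) (cjE a b S)) =
      hs (LinearMap.toMatrix (bs d) (bs d) S) := by
    have h3 : LinearMap.toMatrix (bs d) (bs d) (cjE a b S) =
        LinearMap.toMatrix (bs d) (bs d) (lr a b) * (LinearMap.toMatrix (bs d) (bs d) S *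
          (LinearMap.toMatrix (bs d) (bs d) (lr a b))ᴴ) := by
      rw [lr_conj, ← LinearMap.toMatrix_comp, ← LinearMap.toMatrix_comp]
      rfl
    rw [h3, hs_unit_mul (lr_unit ha hb), hs_mul_unit (unit_conj (lr_unit ha hb))]
  have h4 : ‖Psi d (cjE a b S)‖ ^ 2 = ‖Psi d S‖ ^ 2 := by rw [h1, h1, h2]
  exact (sq_eq_sq₀ (norm_nonneg _) (norm_nonneg _)).1 h4

theorem cjE_rk {d : ℕ} (a b u : Mt d) : cjE a b (rk u) = rk (a * (u * b)) := by
  ext1 x
  change a * (trace (uᴴ * (aᴴ * (x * bᴴ))) • u * b) = trace ((a * (u * b))ᴴ * x) • (a * (u * b))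
  rw [smul_mul_assoc, mul_smul_comm, Matrix.conjTranspose_mul, Matrix.conjTranspose_mul]
  congr 1
  rw [← mul_assoc, ← mul_assoc, Matrix.trace_mul_comm (uᴴ * aᴴ * x) bᴴ]
  simp only [mul_assoc]

/-- the rank one maps of the unitaries of `A`, as vectors -/
def KK {d : ℕ} (A : StarSubalgebra ℂ (Mt d)) : Set (EE d) :=
  {v | ∃ u ∈ A, uᴴ * u = 1 ∧ v = Psi d (rk u)}

/-- the closed convex hull -/
def CC {d : ℕ} (A : StarSubalgebra ℂ (Mt d)) : Set (EE d) := closure (convexHull ℝ (KK A))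

theorem exists_min {d : ℕ} (A : StarSubalgebra ℂ (Mt d)) : ∃ v ∈ CC A, ∀ w ∈ CC A,
    ‖w‖ = ‖v‖ → w = v := by
  have hne : (CC A).Nonempty := by
    refine ⟨Psi d (rk 1), subset_closure (subset_convexHull ℝ _ ⟨1, A.one_mem, ?_, rfl⟩)⟩
    rw [Matrix.conjTranspose_one, mul_one]
  have hcl : IsComplete (CC A) := isClosed_closure.isComplete
  have hcv : Convex ℝ (CC A) := (convex_convexHull ℝ (KK A)).closure
  obtain ⟨v, hv, hmin⟩ := exists_norm_eq_iInf_of_complete_convex hne hcl hcv (0 : EE d)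
  refine ⟨v, hv, ?_⟩
  intro w hw hwv
  have h1 := (norm_eq_iInf_iff_real_inner_le_zero hcv hv).1 hmin w hw
  have h2 : ‖w - v‖ ^ 2 = 0 := by
    have h3 := norm_sub_sq_real w v
    rw [zero_sub, inner_neg_left, inner_sub_right, real_inner_self_eq_norm_sq,
      real_inner_comm] at h1
    rw [hwv] at h3
    have h4 : 0 ≤ ‖w - v‖ ^ 2 := sq_nonneg _
    nlinarith
  have h5 : ‖w - v‖ = 0 := by
    exact pow_eq_zero_iff (two_ne_zero) |>.1 h2
  exact sub_eq_zero.1 (norm_eq_zero.1 h5)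

theorem half {d : ℕ} (A : StarSubalgebra ℂ (Mt d)) {v : EE d} (hv : v ∈ CC A)
    (f : VV d →ₗ[ℝ] ℝ) (c : ℝ) (h : ∀ u ∈ A, uᴴ * u = 1 → c ≤ f (rk u)) :
    c ≤ f ((Psi d).symm v) := by
  let g : EE d →ₗ[ℝ] ℝ := f ∘ₗ ((Psi d).symm.toLinearMap.restrictScalars ℝ)
  have hg : Continuous g := LinearMap.continuous_of_finiteDimensional g
  have h1 : convexHull ℝ (KK A) ⊆ {w | c ≤ g w} := by
    apply convexHull_min
    · rintro _ ⟨u, hu, huu, rfl⟩
      change c ≤ f ((Psi d).symm (Psi d (rk u)))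
      rw [LinearEquiv.symm_apply_apply]
      exact h u hu huu
    · exact convex_halfSpace_ge g.isLinear c
  have h2 : CC A ⊆ {w | c ≤ g w} := closure_minimal h1 (isClosed_le continuous_const hg)
  exact h2 hv

theorem half_eq {d : ℕ} (A : StarSubalgebra ℂ (Mt d)) {v : EE d} (hv : v ∈ CC A)
    (f : VV d →ₗ[ℝ] ℝ) (c : ℝ) (h : ∀ u ∈ A, uᴴ * u = 1 → f (rk u) = c) :
    f ((Psi d).symm v) = c := by
  apply le_antisymm
  · have h1 := half A hv (-f) (-c) (fun u hu huu => by
      rw [LinearMap.neg_apply, h u hu huu])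
    rw [LinearMap.neg_apply] at h1
    linarith
  · exact half A hv f c (fun u hu huu => (h u hu huu).ge)

theorem half_eqC {d : ℕ} (A : StarSubalgebra ℂ (Mt d)) {v : EE d} (hv : v ∈ CC A)
    (f : VV d →ₗ[ℝ] ℂ) (c : ℂ) (h : ∀ u ∈ A, uᴴ * u = 1 → f (rk u) = c) :
    f ((Psi d).symm v) = c := by
  apply Complex.ext
  · exact half_eq A hv (Complex.reLm ∘ₗ f) c.re (fun u hu huu => by
      change (f (rk u)).re = c.re
      rw [h u hu huu])
  · exact half_eq A hv (Complex.imLm ∘ₗ f) c.im (fun u hu huu => by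
      change (f (rk u)).im = c.im
      rw [h u hu huu])

theorem cj_mem {d : ℕ} (A : StarSubalgebra ℂ (Mt d)) {v : EE d} (hv : v ∈ CC A) {a b : Mt d}
    (ha : a ∈ A) (hb : b ∈ A) (haa : aᴴ * a = 1) (hbb : bᴴ * b = 1) :
    Psi d (cjE a b ((Psi d).symm v)) ∈ CC A := by
  let g : EE d →ₗ[ℝ] EE d :=
    (((Psi d).toLinearMap ∘ₗ cjE a b) ∘ₗ (Psi d).symm.toLinearMap).restrictScalars ℝ
  have hg : Continuous g := LinearMap.continuous_of_finiteDimensional g
  have h1 : convexHull ℝ (KK A) ⊆ g ⁻¹' (CC A) := by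
    apply convexHull_min
    · rintro _ ⟨u, hu, huu, rfl⟩
      change Psi d (cjE a b ((Psi d).symm (Psi d (rk u)))) ∈ CC A
      rw [LinearEquiv.symm_apply_apply, cjE_rk]
      apply subset_closure
      apply subset_convexHull
      refine ⟨a * (u * b), A.mul_mem ha (A.mul_mem hu hb), ?_, rfl⟩
      rw [Matrix.conjTranspose_mul, Matrix.conjTranspose_mul]
      calc bᴴ * uᴴ * aᴴ * (a * (u * b)) = bᴴ * (uᴴ * (aᴴ * a) * u) * b := by
            simp only [mul_assoc]
        _ = 1 := by rw [haa, mul_one, huu, mul_one, hbb]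
    · exact ((convex_convexHull ℝ (KK A)).closure).linear_preimage g
  have h2 : CC A ⊆ g ⁻¹' (CC A) := closure_minimal h1 (isClosed_closure.preimage hg)
  exact h2 hv

theorem fixed {d : ℕ} (A : StarSubalgebra ℂ (Mt d)) {v : EE d} (hv : v ∈ CC A)
    (hmin : ∀ w ∈ CC A, ‖w‖ = ‖v‖ → w = v) {a b : Mt d}
    (ha : a ∈ A) (hb : b ∈ A) (haa : aᴴ * a = 1) (hbb : bᴴ * b = 1) (x : Mt d) :
    (Psi d).symm v (a * (x * b)) = a * ((Psi d).symm v x * b) := by
  have h1 := hmin _ (cj_mem A hv ha hb haa hbb) (by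
    rw [norm_Psi_cjE haa hbb, LinearEquiv.apply_symm_apply])
  have h2 : cjE a b ((Psi d).symm v) = (Psi d).symm v := by
    rw [LinearEquiv.eq_symm_apply]
    exact h1
  have h3 : cjE a b ((Psi d).symm v) (a * (x * b)) =
      a * ((Psi d).symm v (aᴴ * (a * (x * b) * bᴴ)) * b) := rfl
  have h4 : aᴴ * (a * (x * b) * bᴴ) = x := by
    have hb' := unit_symm hbb
    calc aᴴ * (a * (x * b) * bᴴ) = (aᴴ * a) * x * (b * bᴴ) := by simp only [mul_assoc]
      _ = x := by rw [haa, hb', one_mul, mul_one]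
  rw [h4, h2] at h3
  exact h3

theorem left_mod {d : ℕ} (T : VV d) (s : Set (Mt d)) (h : ∀ u ∈ s, ∀ x, T (u * x) = u * T x)
    (a : Mt d) (ha : a ∈ Submodule.span ℂ s) (x : Mt d) : T (a * x) = a * T x := by
  induction ha using Submodule.span_induction with
  | mem u hu => exact h u hu x
  | zero => rw [zero_mul, map_zero, zero_mul]
  | add a b _ _ iha ihb => rw [add_mul, map_add, iha, ihb, add_mul]
  | smul c a _ iha => rw [smul_mul_assoc, map_smul, iha, smul_mul_assoc]

theorem right_mod {d : ℕ} (T : VV d) (s : Set (Mt d)) (h : ∀ u ∈ s, ∀ x, T (x * u) = T x * u)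
    (a : Mt d) (ha : a ∈ Submodule.span ℂ s) (x : Mt d) : T (x * a) = T x * a := by
  induction ha using Submodule.span_induction with
  | mem u hu => exact h u hu x
  | zero => rw [mul_zero, map_zero, mul_zero]
  | add a b _ _ iha ihb => rw [mul_add, map_add, iha, ihb, mul_add]
  | smul c a _ iha => rw [mul_smul_comm, map_smul, iha, mul_smul_comm]

/-- the unitaries of `A` are compact -/
theorem cpt {d : ℕ} (A : StarSubalgebra ℂ (Mt d)) : IsCompact {u : Mt d | u ∈ A ∧ uᴴ * u = 1} := by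
  have h1 : IsCompact {u : Mt d | ∀ i j, u i j ∈ Metric.closedBall (0 : ℂ) 1} := by
    have h2 : IsCompact (Set.pi Set.univ (fun _ : Fin d => Set.pi Set.univ
        (fun _ : Fin d => Metric.closedBall (0 : ℂ) 1))) :=
      isCompact_univ_pi (fun _ => isCompact_univ_pi (fun _ => isCompact_closedBall _ _))
    have h3 : {u : Mt d | ∀ i j, u i j ∈ Metric.closedBall (0 : ℂ) 1} =
        Set.pi Set.univ (fun _ : Fin d => Set.pi Set.univ
          (fun _ : Fin d => Metric.closedBall (0 : ℂ) 1)) := by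
      apply Set.ext
      intro u
      constructor
      · intro h i _ j _
        exact h i j
      · intro h i j
        exact h i trivial j trivial
    rw [h3]
    exact h2
  have hAc : IsClosed (A : Set (Mt d)) :=
    Submodule.closed_of_finiteDimensional (Subalgebra.toSubmodule A.toSubalgebra)
  have h3 : IsClosed {u : Mt d | u ∈ A ∧ uᴴ * u = 1} := by
    refine hAc.inter (isClosed_eq ?_ continuous_const)
    exact (Continuous.matrix_conjTranspose continuous_id).matrix_mul continuous_id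
  refine h1.of_isClosed_subset h3 ?_
  rintro u ⟨-, hu⟩ i j
  rw [mem_closedBall_zero_iff]
  have h4 : ∑ k, ‖u k j‖ ^ 2 = 1 := by
    have h5 := congrFun (congrFun hu j) j
    rw [Matrix.mul_apply, Matrix.one_apply_eq] at h5
    have h6 : ∀ k, uᴴ j k * u k j = ((‖u k j‖ ^ 2 : ℝ) : ℂ) := by
      intro k
      rw [Matrix.conjTranspose_apply, mul_comm]
      have := Complex.mul_conj (u k j)
      rw [Complex.normSq_eq_norm_sq] at this
      exact this
    rw [Finset.sum_congr rfl (fun k _ => h6 k)] at h5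
    exact_mod_cast h5
  have h7 : ‖u i j‖ ^ 2 ≤ 1 := by
    rw [← h4]
    exact Finset.single_le_sum (f := fun k => ‖u k j‖ ^ 2) (fun k _ => sq_nonneg _) (Finset.mem_univ i)
  nlinarith [norm_nonneg (u i j)]

end Helper418HL.HS1

namespace Helper418HL

open Matrix Filter Topology Pool.Agent.W661.RC Pool.Agent.W683.RC
open scoped ComplexOrder

/-- TARGET -/
theorem avg_exists {d : ℕ} (A : StarSubalgebra ℂ (Mt d)) : ∃ T : Mt d →ₗ[ℂ] Mt d,
    (∀ x, T x ∈ A) ∧ (∀ a ∈ A, ∀ x, T (a * x) = a * T x) ∧ (∀ a ∈ A, ∀ x, T (x * a) = T x * a) ∧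
    (∀ x y, trace (xᴴ * T y) = trace ((T x)ᴴ * y)) ∧ (∀ x, 0 ≤ tr (xᴴ * T x)) ∧
    (∀ a : Mt d, LinearMap.trace ℂ (Mt d) (T ∘ₗ LinearMap.mulRight ℂ a) = trace a) ∧
    (∀ a : Mt d, LinearMap.trace ℂ (Mt d) (T ∘ₗ LinearMap.mulLeft ℂ a) = trace a) ∧
    (∀ (L : ℕ) (y : Fin L → Mt d), ∃ u ∈ A, uᴴ * u = 1 ∧
      ∑ l, ‖trace (uᴴ * y l)‖ ^ 2 ≤ ∑ l, tr ((y l)ᴴ * T (y l))) ∧
    (∀ (L : ℕ) (y : Fin L → Mt d), ∃ u ∈ A, uᴴ * u = 1 ∧
      ∑ l, tr ((y l)ᴴ * T (y l)) ≤ ∑ l, ‖trace (uᴴ * y l)‖ ^ 2) := by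
  obtain ⟨v, hv, hmin⟩ := HS1.exists_min A
  have h1A : ((1 : Mt d)ᴴ * 1) = 1 := by rw [Matrix.conjTranspose_one, mul_one]
  have hq : ∀ u x : Mt d, tr (xᴴ * HS1.rk u x) = ‖trace (uᴴ * x)‖ ^ 2 := by
    intro u x
    rw [HS1.rk_apply, mul_smul_comm]
    unfold tr
    rw [trace_smul, smul_eq_mul]
    have h2 : trace (xᴴ * u) = star (trace (uᴴ * x)) := by
      rw [← Matrix.trace_conjTranspose, Matrix.conjTranspose_mul, Matrix.conjTranspose_conjTranspose]
    rw [h2]
    have := Complex.mul_conj (trace (uᴴ * x))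
    rw [Complex.normSq_eq_norm_sq] at this
    change (trace (uᴴ * x) * (starRingEnd ℂ) (trace (uᴴ * x))).re = _
    rw [this, Complex.ofReal_re]
  let F : (L : ℕ) → (Fin L → Mt d) → (HS1.VV d →ₗ[ℝ] ℝ) := fun L y =>
    { toFun := fun S => ∑ l, tr ((y l)ᴴ * S (y l))
      map_add' := by
        intro S S'
        rw [← Finset.sum_add_distrib]
        apply Finset.sum_congr rfl
        intro l _
        rw [LinearMap.add_apply, mul_add, tr_add]
      map_smul' := by
        intro r S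
        rw [RingHom.id_apply, smul_eq_mul, Finset.mul_sum]
        apply Finset.sum_congr rfl
        intro l _
        rw [LinearMap.smul_apply, mul_smul_comm, ← tr_smul]
        congr 1 }
  have hF : ∀ (L : ℕ) (y : Fin L → Mt d) (u : Mt d),
      F L y (HS1.rk u) = ∑ l, ‖trace (uᴴ * y l)‖ ^ 2 := by
    intro L y u
    change ∑ l, tr ((y l)ᴴ * HS1.rk u (y l)) = _
    exact Finset.sum_congr rfl (fun l _ => hq u (y l))
  have hcont : ∀ (L : ℕ) (y : Fin L → Mt d),
      Continuous (fun u : Mt d => ∑ l, ‖trace (uᴴ * y l)‖ ^ 2) := by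
    intro L y
    refine continuous_finsetSum _ (fun l _ => ?_)
    refine Continuous.pow (Continuous.norm ?_) 2
    exact ((Continuous.matrix_conjTranspose continuous_id).matrix_mul continuous_const).matrix_trace
  have hne : ({u : Mt d | u ∈ A ∧ uᴴ * u = 1}).Nonempty := ⟨1, A.one_mem, h1A⟩
  refine ⟨(HS1.Psi d).symm v, ?_, ?_, ?_, ?_, ?_, ?_, ?_, ?_, ?_⟩
  · intro x
    by_contra hx
    obtain ⟨φ, hφ, hφA⟩ := Submodule.exists_dual_map_eq_bot_of_notMem
      (p := Subalgebra.toSubmodule A.toSubalgebra) hx inferInstance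
    apply hφ
    have hz : ∀ a ∈ A, φ a = 0 := by
      intro a ha
      have : φ a ∈ (Subalgebra.toSubmodule A.toSubalgebra).map φ := Submodule.mem_map_of_mem ha
      rw [hφA] at this
      exact this
    let f : HS1.VV d →ₗ[ℝ] ℂ :=
      { toFun := fun S => φ (S x)
        map_add' := fun S S' => by rw [LinearMap.add_apply, map_add]
        map_smul' := fun r S => by
          rw [LinearMap.smul_apply, RingHom.id_apply]
          exact (φ.restrictScalars ℝ).map_smul r (S x) }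
    exact HS1.half_eqC A hv f 0 (fun u hu _ => by
      change φ (trace (uᴴ * x) • u) = 0
      rw [map_smul, hz u hu, smul_zero])
  · intro a ha x
    refine HS1.left_mod _ _ (fun u hu x => ?_) a (HS1.span_un A a ha) x
    have := HS1.fixed A hv hmin hu.1 A.one_mem hu.2 h1A x
    rwa [mul_one, mul_one] at this
  · intro a ha x
    refine HS1.right_mod _ _ (fun u hu x => ?_) a (HS1.span_un A a ha) x
    have := HS1.fixed A hv hmin A.one_mem hu.1 h1A hu.2 x
    rwa [one_mul, one_mul] at this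
  · intro x y
    let f : HS1.VV d →ₗ[ℝ] ℂ :=
      { toFun := fun S => trace (xᴴ * S y) - trace ((S x)ᴴ * y)
        map_add' := fun S S' => by
          rw [LinearMap.add_apply, LinearMap.add_apply, mul_add, trace_add,
            Matrix.conjTranspose_add, add_mul, trace_add]
          ring
        map_smul' := fun r S => by
          have e1 : (r • S) y = (r : ℂ) • S y := rfl
          have e2 : (r • S) x = (r : ℂ) • S x := rfl
          rw [e1, e2, RingHom.id_apply, mul_smul_comm, trace_smul, Matrix.conjTranspose_smul,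
            smul_mul_assoc, trace_smul, Complex.star_def, Complex.conj_ofReal, Complex.real_smul,
            smul_eq_mul, smul_eq_mul]
          ring }
    have h3 := HS1.half_eqC A hv f 0 (fun u _ _ => by
      change trace (xᴴ * (trace (uᴴ * y) • u)) - trace ((trace (uᴴ * x) • u)ᴴ * y) = 0
      rw [mul_smul_comm, trace_smul, Matrix.conjTranspose_smul, smul_mul_assoc, trace_smul,
        ← Matrix.trace_conjTranspose, Matrix.conjTranspose_mul, Matrix.conjTranspose_conjTranspose,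
        smul_eq_mul, smul_eq_mul]
      ring)
    exact sub_eq_zero.1 h3
  · intro x
    have h3 := HS1.half A hv (F 1 (fun _ => x)) 0 (fun u _ _ => by
      rw [hF]
      exact Finset.sum_nonneg (fun l _ => sq_nonneg _))
    have h4 : F 1 (fun _ => x) ((HS1.Psi d).symm v) = tr (xᴴ * (HS1.Psi d).symm v x) := by
      change ∑ l : Fin 1, tr (xᴴ * (HS1.Psi d).symm v x) = _
      rw [Fin.sum_univ_one]
    rwa [h4] at h3
  · intro a
    let f : HS1.VV d →ₗ[ℝ] ℂ :=
      { toFun := fun S => LinearMap.trace ℂ (Mt d) (S ∘ₗ LinearMap.mulRight ℂ a)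
        map_add' := fun S S' => by rw [LinearMap.add_comp, map_add]
        map_smul' := fun r S => by
          have e1 : (r • S) ∘ₗ LinearMap.mulRight ℂ a = (r : ℂ) • (S ∘ₗ LinearMap.mulRight ℂ a) := rfl
          rw [e1, map_smul, RingHom.id_apply, Complex.real_smul, smul_eq_mul] }
    refine HS1.half_eqC A hv f (trace a) (fun u _ huu => ?_)
    let g : Mt d →ₗ[ℂ] ℂ :=
      { toFun := fun x => trace (uᴴ * (x * a))
        map_add' := fun x y => by rw [add_mul, mul_add, trace_add]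
        map_smul' := fun c x => by rw [smul_mul_assoc, mul_smul_comm, trace_smul, RingHom.id_apply] }
    have e2 : HS1.rk u ∘ₗ LinearMap.mulRight ℂ a = g.smulRight u := rfl
    change LinearMap.trace ℂ (Mt d) (HS1.rk u ∘ₗ LinearMap.mulRight ℂ a) = trace a
    rw [e2, LinearMap.trace_smulRight]
    change trace (uᴴ * (u * a)) = trace a
    rw [← mul_assoc, huu, one_mul]
  · intro a
    let f : HS1.VV d →ₗ[ℝ] ℂ :=
      { toFun := fun S => LinearMap.trace ℂ (Mt d) (S ∘ₗ LinearMap.mulLeft ℂ a)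
        map_add' := fun S S' => by rw [LinearMap.add_comp, map_add]
        map_smul' := fun r S => by
          have e1 : (r • S) ∘ₗ LinearMap.mulLeft ℂ a = (r : ℂ) • (S ∘ₗ LinearMap.mulLeft ℂ a) := rfl
          rw [e1, map_smul, RingHom.id_apply, Complex.real_smul, smul_eq_mul] }
    refine HS1.half_eqC A hv f (trace a) (fun u _ huu => ?_)
    let g : Mt d →ₗ[ℂ] ℂ :=
      { toFun := fun x => trace (uᴴ * (a * x))
        map_add' := fun x y => by rw [mul_add, mul_add, trace_add]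
        map_smul' := fun c x => by rw [mul_smul_comm, mul_smul_comm, trace_smul, RingHom.id_apply] }
    have e2 : HS1.rk u ∘ₗ LinearMap.mulLeft ℂ a = g.smulRight u := rfl
    change LinearMap.trace ℂ (Mt d) (HS1.rk u ∘ₗ LinearMap.mulLeft ℂ a) = trace a
    rw [e2, LinearMap.trace_smulRight]
    change trace (uᴴ * (a * u)) = trace a
    rw [Matrix.trace_mul_comm, mul_assoc, unit_symm huu, mul_one]
  · intro L y
    obtain ⟨u, hu, hmn⟩ := (HS1.cpt A).exists_isMinOn hne (hcont L y).continuousOn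
    refine ⟨u, hu.1, hu.2, ?_⟩
    exact HS1.half A hv (F L y) _ (fun w hw hww => by
      rw [hF]
      exact hmn ⟨hw, hww⟩)
  · intro L y
    obtain ⟨u, hu, hmx⟩ := (HS1.cpt A).exists_isMaxOn hne (hcont L y).continuousOn
    refine ⟨u, hu.1, hu.2, ?_⟩
    have h3 := HS1.half A hv (-(F L y)) (-(∑ l, ‖trace (uᴴ * y l)‖ ^ 2)) (fun w hw hww => by
      rw [LinearMap.neg_apply, hF]
      exact neg_le_neg (hmx ⟨hw, hww⟩))
    rw [LinearMap.neg_apply] at h3
    exact neg_le_neg_iff.1 h3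

end Helper418HL
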