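import Pool.Agent.Helper418_HL.HS1
import Pool.Agent.Helper418_HL.Defs

set_option autoImplicit false

namespace Helper418HL

open Matrix Filter Topology Pool.Agent.W661.RC Pool.Agent.W683.RC
open scoped ComplexOrder

/-! GIVEN (proved elsewhere) -/
namespace HS2

variable {d : ℕ}

/-- `vc` as a linear map. -/
noncomputable def vcl (d : ℕ) : Mt d →ₗ[ℂ] EuclideanSpace ℂ (Fin d × Fin d) where
  toFun := vc
  map_add' := vc_add
  map_smul' := vc_smul

theorem vc_inj {x y : Mt d} (h : vc x = vc y) : x = y := by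
  ext i j
  have := congrArg (fun z : EuclideanSpace ℂ (Fin d × Fin d) => z (i, j)) h
  exact this

theorem exists_basis (A : StarSubalgebra ℂ (Mt d)) : ∃ (N : ℕ) (b : Fin N → Mt d), (∀ i, b i ∈ A) ∧
    (∀ i j, trace ((b i)ᴴ * b j) = if i = j then 1 else 0) ∧
    ∀ x ∈ A, x = ∑ i, trace ((b i)ᴴ * x) • b i := by
  let S : Submodule ℂ (EuclideanSpace ℂ (Fin d × Fin d)) := (Subalgebra.toSubmodule A.toSubalgebra).map (vcl d)
  let B := stdOrthonormalBasis ℂ S
  have h1 : ∀ i, ∃ b : Mt d, b ∈ A ∧ vc b = (B i : EuclideanSpace ℂ (Fin d × Fin d)) := by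
    intro i
    obtain ⟨b, hb, hb'⟩ := (B i).2
    exact ⟨b, hb, hb'⟩
  choose b hb hb' using h1
  refine ⟨_, b, hb, ?_, ?_⟩
  · intro i j
    rw [← inner_vc, hb', hb', ← Submodule.coe_inner]
    exact orthonormal_iff_ite.1 B.orthonormal i j
  · intro x hx
    have hxS : vc x ∈ S := ⟨x, hx, rfl⟩
    have h2 := B.sum_repr' ⟨vc x, hxS⟩
    have h3 := congrArg (fun z : S => (z : EuclideanSpace ℂ (Fin d × Fin d))) h2
    simp only [Submodule.coe_sum, Submodule.coe_smul, Submodule.coe_inner] at h3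
    apply vc_inj
    rw [vc_sum, ← h3]
    refine Finset.sum_congr rfl fun i _ => ?_
    rw [vc_smul, ← inner_vc, hb']

theorem trace_star (x y : Mt d) : trace (xᴴ * y) = star (trace (yᴴ * x)) := by
  rw [← trace_conjTranspose, conjTranspose_mul, conjTranspose_conjTranspose]

theorem eq_zero_of_trace {x : Mt d} (h : trace (xᴴ * x) = 0) : x = 0 := by
  apply hs_eq_zero_iff.1
  rw [hs_eq, h]; rfl

section

variable {A : StarSubalgebra ℂ (Mt d)} {N : ℕ} {b : Fin N → Mt d} (hb : ∀ i, b i ∈ A)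
  (hs' : ∀ x ∈ A, x = ∑ i, trace ((b i)ᴴ * x) • b i)

/-- The projection. -/
noncomputable def EE (b : Fin N → Mt d) (x : Mt d) : Mt d := ∑ i, trace ((b i)ᴴ * x) • b i

include hb in
theorem EE_mem (x : Mt d) : EE b x ∈ A := by
  unfold EE
  exact sum_mem fun i _ => SMulMemClass.smul_mem _ (hb i)

include hs' in
/-- Elements of `A` are determined by the inner products. -/
theorem eq_of_inner {x y : Mt d} (hx : x ∈ A) (hy : y ∈ A) (h : ∀ i, trace ((b i)ᴴ * x) = trace ((b i)ᴴ * y)) :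
    x = y := by
  rw [hs' x hx, hs' y hy]
  exact Finset.sum_congr rfl fun i _ => by rw [h i]

include hs' in
theorem EE_inner {a : Mt d} (ha : a ∈ A) (x : Mt d) : trace (aᴴ * EE b x) = trace (aᴴ * x) := by
  have h1 : aᴴ = ∑ i, star (trace ((b i)ᴴ * a)) • (b i)ᴴ := by
    conv_lhs => rw [hs' a ha]
    rw [conjTranspose_sum]
    exact Finset.sum_congr rfl fun i _ => by rw [conjTranspose_smul]
  have h2 : trace (aᴴ * x) = ∑ i, star (trace ((b i)ᴴ * a)) * trace ((b i)ᴴ * x) := by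
    conv_lhs => rw [h1]
    rw [Finset.sum_mul, trace_sum]
    refine Finset.sum_congr rfl fun i _ => ?_
    rw [smul_mul_assoc, trace_smul, smul_eq_mul]
  rw [h2]
  unfold EE
  rw [Finset.mul_sum, trace_sum]
  refine Finset.sum_congr rfl fun i _ => ?_
  rw [mul_smul_comm, trace_smul, smul_eq_mul, trace_star a (b i), mul_comm]

end

theorem star_mem' {A : StarSubalgebra ℂ (Mt d)} {x : Mt d} (hx : x ∈ A) : xᴴ ∈ A := by
  rw [← star_eq_conjTranspose]; exact star_mem hx

/-- Polynomials in an element of a subalgebra. -/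
theorem aeval_mem' (S : Subalgebra ℂ (Mt d)) {c : Mt d} (hc : c ∈ S) (p : Polynomial ℂ) :
    Polynomial.aeval c p ∈ S := by
  have h := Polynomial.aeval_subalgebra_coe p S ⟨c, hc⟩
  rw [← h]; exact Subtype.mem _

theorem conj_pow {U D : Mt d} (hU : Uᴴ * U = 1) (n : ℕ) : (U * D * Uᴴ) ^ n = U * D ^ n * Uᴴ := by
  induction n with
  | zero => rw [pow_zero, pow_zero, mul_one, unit_symm hU]
  | succ n ih =>
    rw [pow_succ, ih, pow_succ]
    calc U * D ^ n * Uᴴ * (U * D * Uᴴ) = U * D ^ n * (Uᴴ * U) * D * Uᴴ := by noncomm_ring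
      _ = U * (D ^ n * D) * Uᴴ := by rw [hU]; noncomm_ring

theorem conj_aeval {U D : Mt d} (hU : Uᴴ * U = 1) (p : Polynomial ℂ) :
    Polynomial.aeval (U * D * Uᴴ) p = U * Polynomial.aeval D p * Uᴴ := by
  rw [Polynomial.aeval_eq_sum_range, Polynomial.aeval_eq_sum_range, Finset.mul_sum, Finset.sum_mul]
  refine Finset.sum_congr rfl fun n _ => ?_
  rw [conj_pow hU, mul_smul_comm, smul_mul_assoc]

theorem diag_aeval (v : Fin d → ℂ) (p : Polynomial ℂ) :
    Polynomial.aeval (diagonal v : Mt d) p = diagonal fun i => p.eval (v i) := by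
  rw [Polynomial.aeval_eq_sum_range]
  ext i j
  rw [Matrix.sum_apply]
  by_cases hij : i = j
  · subst hij
    rw [diagonal_apply_eq, Polynomial.eval_eq_sum_range]
    refine Finset.sum_congr rfl fun n _ => ?_
    rw [diagonal_pow, Matrix.smul_apply, diagonal_apply_eq, smul_eq_mul]; rfl
  · rw [diagonal_apply_ne _ hij]
    refine Finset.sum_eq_zero fun n _ => ?_
    rw [diagonal_pow, Matrix.smul_apply, diagonal_apply_ne _ hij, smul_zero]

theorem exists_root {c : Mt d} (hc : c.PosSemidef) : ∃ p : Polynomial ℂ, (Polynomial.aeval c p).PosSemidef ∧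
    Polynomial.aeval c p * Polynomial.aeval c p = c := by
  have hH := hc.1
  set U : Mt d := (hH.eigenvectorUnitary : Mt d) with hU
  set lam : Fin d → ℝ := hH.eigenvalues with hlam
  have hUU : Uᴴ * U = 1 := by
    have := hH.eigenvectorUnitary.2
    rw [Matrix.mem_unitaryGroup_iff', star_eq_conjTranspose] at this
    exact this
  have hspec : c = U * diagonal (fun i => (lam i : ℂ)) * Uᴴ := by
    have := hH.spectral_theorem
    rw [Unitary.conjStarAlgAut_apply] at this
    exact this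
  have hlam0 : ∀ i, 0 ≤ lam i := hc.eigenvalues_nonneg
  classical
  let p : Polynomial ℂ := Lagrange.interpolate (Finset.univ.image fun i => (lam i : ℂ)) id
    (fun z => ((√z.re : ℝ) : ℂ))
  have hp : ∀ i, p.eval (lam i : ℂ) = ((√(lam i) : ℝ) : ℂ) := by
    intro i
    have := Lagrange.eval_interpolate_at_node (s := Finset.univ.image fun i => (lam i : ℂ)) (v := id)
      (fun z : ℂ => ((√z.re : ℝ) : ℂ)) (i := (lam i : ℂ)) (Function.injective_id.injOn)
      (Finset.mem_image.2 ⟨i, Finset.mem_univ _, rfl⟩)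
    exact this
  have hr : Polynomial.aeval c p = U * diagonal (fun i => ((√(lam i) : ℝ) : ℂ)) * Uᴴ := by
    conv_lhs => rw [hspec]
    rw [conj_aeval hUU, diag_aeval]
    congr 3
    funext i; exact hp i
  refine ⟨p, ?_, ?_⟩
  · rw [hr]
    refine PosSemidef.mul_mul_conjTranspose_same ?_ U
    refine PosSemidef.diagonal fun i => ?_
    change (0 : ℂ) ≤ ((√(lam i) : ℝ) : ℂ)
    exact ofReal_nonneg' (Real.sqrt_nonneg _)
  · rw [hr]
    calc U * diagonal (fun i => ((√(lam i) : ℝ) : ℂ)) * Uᴴ * (U * diagonal (fun i => ((√(lam i) : ℝ) : ℂ)) * Uᴴ)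
        = U * diagonal (fun i => ((√(lam i) : ℝ) : ℂ)) * (Uᴴ * U) * diagonal (fun i => ((√(lam i) : ℝ) : ℂ)) * Uᴴ := by
          noncomm_ring
      _ = U * (diagonal (fun i => ((√(lam i) : ℝ) : ℂ)) * diagonal (fun i => ((√(lam i) : ℝ) : ℂ))) * Uᴴ := by
          rw [hUU]; noncomm_ring
      _ = c := by
          rw [diagonal_mul_diagonal, hspec]
          congr 3
          funext i
          rw [← Complex.ofReal_mul, Real.mul_self_sqrt (hlam0 i)]

/-- The trace of an operator with range in `A`. -/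
theorem trace_op {A : StarSubalgebra ℂ (Mt d)} {N : ℕ} {b : Fin N → Mt d}
    (hs' : ∀ x ∈ A, x = ∑ i, trace ((b i)ᴴ * x) • b i) (F : Mt d →ₗ[ℂ] Mt d) (hF : ∀ x, F x ∈ A) :
    LinearMap.trace ℂ (Mt d) F = ∑ i, trace ((b i)ᴴ * F (b i)) := by
  let φ : Fin N → (Mt d →ₗ[ℂ] ℂ) := fun i =>
    (Matrix.traceLinearMap (Fin d) ℂ ℂ).comp ((LinearMap.mulLeft ℂ (b i)ᴴ).comp F)
  have hφ : ∀ i x, φ i x = trace ((b i)ᴴ * F x) := fun i x => rfl
  have h1 : F = ∑ i, (φ i).smulRight (b i) := by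
    apply LinearMap.ext
    intro x
    rw [LinearMap.sum_apply, hs' (F x) (hF x)]
    refine Finset.sum_congr rfl fun i _ => ?_
    rw [LinearMap.smulRight_apply, hφ]
  conv_lhs => rw [h1]
  rw [map_sum]
  refine Finset.sum_congr rfl fun i _ => ?_
  rw [LinearMap.trace_smulRight, hφ]

end HS2

/-- TARGET -/
theorem idx_exists {d : ℕ} (A : StarSubalgebra ℂ (Mt d)) : Nonempty (Idx A) := by
  obtain ⟨T, hT1, hT2, hT3, hT4, hT5, hT6, hT7, hT8, hT9⟩ := avg_exists A
  obtain ⟨N, b, hb, horth, hs'⟩ := HS2.exists_basis A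
  set c : Mt d := T 1 with hc
  have hcA : c ∈ A := hT1 1
  have hTa : ∀ a ∈ A, T a = a * c := fun a ha => by
    have := hT2 a ha 1; rwa [mul_one] at this
  have hTa' : ∀ a ∈ A, T a = c * a := fun a ha => by
    have := hT3 a ha 1; rwa [one_mul] at this
  have hcom : ∀ a ∈ A, a * c = c * a := fun a ha => by rw [← hTa a ha, hTa' a ha]
  have hcst : cᴴ = c := by
    have hcA' : cᴴ ∈ A := HS2.star_mem' hcA
    have h1 : ∀ x ∈ A, trace (xᴴ * (c - cᴴ)) = 0 := by
      intro x hx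
      have h2 := hT4 x 1
      rw [← hc, hTa x hx, conjTranspose_mul, mul_one, trace_mul_comm cᴴ xᴴ] at h2
      rw [mul_sub, trace_sub, h2, sub_self]
    have h2 := HS2.eq_zero_of_trace (h1 _ (sub_mem hcA hcA'))
    exact (sub_eq_zero.1 h2).symm
  have hb' : ∀ i, (b i)ᴴ ∈ A := fun i => HS2.star_mem' (hb i)
  -- the two sums
  set w' : Mt d := ∑ i, (b i)ᴴ * b i with hw'
  set w : Mt d := ∑ i, b i * (b i)ᴴ with hw
  have hw'A : w' ∈ A := sum_mem fun i _ => mul_mem (hb' i) (hb i)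
  have hwA : w ∈ A := sum_mem fun i _ => mul_mem (hb i) (hb' i)
  have htr1 : ∀ a ∈ A, trace (w' * c * a) = trace a := by
    intro a ha
    rw [← hT6 a, HS2.trace_op hs' (T ∘ₗ LinearMap.mulRight ℂ a) (fun x => hT1 _), hw', Finset.sum_mul,
      Finset.sum_mul, trace_sum]
    refine Finset.sum_congr rfl fun i _ => ?_
    rw [LinearMap.comp_apply, LinearMap.mulRight_apply, hTa _ (mul_mem (hb i) ha), mul_assoc (b i) a c, hcom a ha]
    noncomm_ring
  have h1 : w' * c = 1 := by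
    have hm : w' * c - 1 ∈ A := sub_mem (mul_mem hw'A hcA) (one_mem A)
    have h2 : trace ((w' * c - 1)ᴴ * (w' * c - 1)) = 0 := by
      rw [trace_mul_comm, sub_mul, trace_sub, htr1 _ (HS2.star_mem' hm), one_mul, sub_self]
    exact sub_eq_zero.1 (HS2.eq_zero_of_trace h2)
  have htr2 : ∀ a ∈ A, trace (a * (c * w)) = trace a := by
    intro a ha
    rw [← hT7 a, HS2.trace_op hs' (T ∘ₗ LinearMap.mulLeft ℂ a) (fun x => hT1 _), hw, Finset.mul_sum,
      Finset.mul_sum, trace_sum]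
    refine Finset.sum_congr rfl fun i _ => ?_
    rw [LinearMap.comp_apply, LinearMap.mulLeft_apply, hTa _ (mul_mem ha (hb i)), trace_mul_comm (b i)ᴴ]
    congr 1
    rw [← mul_assoc c (b i), ← hcom (b i) (hb i)]
    noncomm_ring
  have h2 : c * w = 1 := by
    have hm : c * w - 1 ∈ A := sub_mem (mul_mem hcA hwA) (one_mem A)
    have h3 : trace ((c * w - 1)ᴴ * (c * w - 1)) = 0 := by
      rw [mul_sub, trace_sub, htr2 _ (HS2.star_mem' hm), mul_one, sub_self]
    exact sub_eq_zero.1 (HS2.eq_zero_of_trace h3)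
  have hww : w = w' := by
    calc w = (w' * c) * w := by rw [h1, one_mul]
      _ = w' * (c * w) := mul_assoc _ _ _
      _ = w' := by rw [h2, mul_one]
  have hwpsd : w.PosSemidef := by
    rw [hw]
    exact posSemidef_sum _ fun i _ => posSemidef_self_mul_conjTranspose (b i)
  have hwcom : ∀ x ∈ A, x * w = w * x := by
    intro x hx
    calc x * w = (w' * c) * (x * w) := by rw [h1, one_mul]
      _ = w' * (c * x) * w := by noncomm_ring
      _ = w' * (x * c) * w := by rw [hcom x hx]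
      _ = w' * x * (c * w) := by noncomm_ring
      _ = w * x := by rw [h2, mul_one, hww]
  have hcpsd : c.PosSemidef := by
    have h3 : c = c * w * cᴴ := by rw [h2, one_mul, hcst]
    rw [h3]
    exact hwpsd.mul_mul_conjTranspose_same c
  obtain ⟨p, hp1, hp2⟩ := HS2.exists_root hcpsd
  set r : Mt d := Polynomial.aeval c p with hr
  have hrA : r ∈ A := HS2.aeval_mem' A.toSubalgebra hcA p
  have hrcom : ∀ x ∈ A, x * r = r * x := by
    intro x hx
    have h3 : r ∈ Subalgebra.centralizer ℂ (A : Set (Mt d)) :=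
      HS2.aeval_mem' _ ((Subalgebra.mem_centralizer_iff ℂ).2 fun a ha => hcom a ha) p
    exact (Subalgebra.mem_centralizer_iff ℂ).1 h3 x hx
  -- `T x = E x * c`
  have hTE : ∀ x, T x = HS2.EE b x * c := by
    intro x
    refine HS2.eq_of_inner hs' (hT1 x) (mul_mem (HS2.EE_mem hb x) hcA) fun i => ?_
    have h3 : (b i)ᴴ * (HS2.EE b x * c) = ((b i)ᴴ * HS2.EE b x) * c := (mul_assoc _ _ _).symm
    rw [hT4, hTa _ (hb i), h3, trace_mul_comm _ c, ← mul_assoc]
    have h4 : c * (b i)ᴴ = (b i * c)ᴴ := by rw [conjTranspose_mul, hcst]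
    rw [h4, HS2.EE_inner hs' (mul_mem (hb i) hcA)]
  have hEr : ∀ y, HS2.EE b (y * r) = HS2.EE b y * r := by
    intro y
    refine HS2.eq_of_inner hs' (HS2.EE_mem hb _) (mul_mem (HS2.EE_mem hb y) hrA) fun i => ?_
    rw [HS2.EE_inner hs' (hb i), ← mul_assoc, ← mul_assoc, trace_mul_comm _ r, trace_mul_comm _ r, ← mul_assoc,
      ← mul_assoc]
    have h4 : r * (b i)ᴴ = (b i * r)ᴴ := by rw [conjTranspose_mul, hp1.1.eq]
    rw [h4, HS2.EE_inner hs' (mul_mem (hb i) hrA)]
  have key : ∀ y : Mt d, ∑ i, ‖trace ((b i * r)ᴴ * y)‖ ^ 2 = tr (yᴴ * T y) := by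
    intro y
    have e1 : ∀ i, trace ((b i * r)ᴴ * y) = trace ((b i)ᴴ * (y * r)) := by
      intro i
      rw [conjTranspose_mul, hp1.1.eq, mul_assoc, trace_mul_comm r, mul_assoc]
    have e2 : ((∑ i, ‖trace ((b i * r)ᴴ * y)‖ ^ 2 : ℝ) : ℂ) = trace ((y * r)ᴴ * HS2.EE b (y * r)) := by
      unfold HS2.EE
      rw [Finset.mul_sum, trace_sum, Complex.ofReal_sum]
      refine Finset.sum_congr rfl fun i _ => ?_
      rw [e1, mul_smul_comm, trace_smul, smul_eq_mul, HS2.trace_star (y * r) (b i), Complex.ofReal_pow,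
        ← Complex.mul_conj']
      rfl
    have e3 : trace ((y * r)ᴴ * HS2.EE b (y * r)) = trace (yᴴ * T y) := by
      rw [hEr, conjTranspose_mul, hp1.1.eq, hTE, ← hp2, mul_assoc, trace_mul_comm r]
      congr 1
      noncomm_ring
    have e4 := congrArg Complex.re (e2.trans e3)
    rw [Complex.ofReal_re] at e4
    exact e4
  refine ⟨⟨N, b, hb, horth, hs', w, rfl, hww, hwpsd, hwA, hwcom, r, hp1, hrA, hrcom, ?_, ?_, ?_⟩⟩
  · rw [hp2, h2]
  · intro L y
    obtain ⟨u, hu1, hu2, hu3⟩ := hT8 L y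
    refine ⟨u, hu1, hu2, hu3.trans (le_of_eq ?_)⟩
    exact Finset.sum_congr rfl fun l _ => (key (y l)).symm
  · intro L y
    obtain ⟨u, hu1, hu2, hu3⟩ := hT9 L y
    refine ⟨u, hu1, hu2, le_trans (le_of_eq ?_) hu3⟩
    exact Finset.sum_congr rfl fun l _ => key (y l)

end Helper418HL
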