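import Pool.Agent.Helper418_HL.Defs

set_option autoImplicit false

namespace Helper418HL

open Matrix Filter Topology Pool.Agent.W661.RC Pool.Agent.W683.RC
open scoped ComplexOrder

namespace HS6

variable {d : ℕ}

/-- conjugation by the eigenvector unitary, applied to a real diagonal matrix -/
noncomputable def dg {w : Mt d} (hw : w.IsHermitian) (f : Fin d → ℝ) : Mt d :=
  (hw.eigenvectorUnitary : Mt d) * diagonal (fun i => (f i : ℂ)) * (hw.eigenvectorUnitary : Mt d)ᴴ

lemma uu {w : Mt d} (hw : w.IsHermitian) :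
    (hw.eigenvectorUnitary : Mt d)ᴴ * (hw.eigenvectorUnitary : Mt d) = 1 := by
  have := Unitary.coe_star_mul_self hw.eigenvectorUnitary
  rwa [star_eq_conjTranspose] at this

lemma uu' {w : Mt d} (hw : w.IsHermitian) :
    (hw.eigenvectorUnitary : Mt d) * (hw.eigenvectorUnitary : Mt d)ᴴ = 1 := by
  exact mul_eq_one_comm.1 (uu hw)

lemma dg_mul {w : Mt d} (hw : w.IsHermitian) (f g : Fin d → ℝ) :
    dg hw f * dg hw g = dg hw (fun i => f i * g i) := by
  unfold dg
  have h := uu hw
  set U : Mt d := (hw.eigenvectorUnitary : Mt d)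
  calc U * diagonal (fun i => (f i : ℂ)) * Uᴴ * (U * diagonal (fun i => (g i : ℂ)) * Uᴴ)
      = U * diagonal (fun i => (f i : ℂ)) * (Uᴴ * U) * diagonal (fun i => (g i : ℂ)) * Uᴴ := by
        simp only [Matrix.mul_assoc]
    _ = U * (diagonal (fun i => (f i : ℂ)) * diagonal (fun i => (g i : ℂ))) * Uᴴ := by
        rw [h, Matrix.mul_one, Matrix.mul_assoc U]
    _ = _ := by
        rw [diagonal_mul_diagonal]
        push_cast
        rfl

lemma dg_conj {w : Mt d} (hw : w.IsHermitian) (f : Fin d → ℝ) : (dg hw f)ᴴ = dg hw f := by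
  unfold dg
  rw [conjTranspose_mul, conjTranspose_mul, conjTranspose_conjTranspose, diagonal_conjTranspose,
    Matrix.mul_assoc]
  congr 3
  funext i
  simp

lemma dg_one {w : Mt d} (hw : w.IsHermitian) : dg hw (fun _ => 1) = 1 := by
  unfold dg
  have : (diagonal (fun _ : Fin d => ((1 : ℝ) : ℂ))) = 1 := by simp
  rw [this, Matrix.mul_one, uu' hw]

lemma dg_zero {w : Mt d} (hw : w.IsHermitian) : dg hw (fun _ => 0) = 0 := by
  unfold dg
  simp

lemma dg_sub {w : Mt d} (hw : w.IsHermitian) (f g : Fin d → ℝ) :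
    dg hw f - dg hw g = dg hw (fun i => f i - g i) := by
  unfold dg
  rw [← Matrix.sub_mul, ← Matrix.mul_sub, diagonal_sub]
  push_cast
  rfl

lemma dg_smul {w : Mt d} (hw : w.IsHermitian) (t : ℝ) (f : Fin d → ℝ) :
    (t : ℂ) • dg hw f = dg hw (fun i => t * f i) := by
  unfold dg
  rw [← Matrix.smul_mul, ← Matrix.mul_smul]
  congr 2
  rw [← diagonal_smul]
  congr 1
  funext i
  simp

lemma dg_self {w : Mt d} (hw : w.IsHermitian) : dg hw hw.eigenvalues = w := by
  have h := hw.spectral_theorem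
  rw [Unitary.conjStarAlgAut_apply] at h
  conv_rhs => rw [h]
  rfl

lemma dg_psd {w : Mt d} (hw : w.IsHermitian) {f : Fin d → ℝ} (hf : ∀ i, 0 ≤ f i) :
    (dg hw f).PosSemidef := by
  unfold dg
  refine PosSemidef.mul_mul_conjTranspose_same (PosSemidef.diagonal ?_) _
  intro i
  exact ofReal_nonneg' (hf i)

lemma dg_Le {w : Mt d} (hw : w.IsHermitian) {f g : Fin d → ℝ} (hf : ∀ i, f i ≤ g i) :
    Le (dg hw f) (dg hw g) := by
  unfold Le
  rw [dg_sub]
  exact dg_psd hw (fun i => sub_nonneg.2 (hf i))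

lemma w_mul_dg {w : Mt d} (hw : w.IsHermitian) (f : Fin d → ℝ) :
    w * dg hw f = dg hw (fun i => hw.eigenvalues i * f i) := by
  calc w * dg hw f = dg hw hw.eigenvalues * dg hw f := by rw [dg_self]
    _ = _ := dg_mul hw _ _

lemma dg_mul_w {w : Mt d} (hw : w.IsHermitian) (f : Fin d → ℝ) :
    dg hw f * w = dg hw (fun i => f i * hw.eigenvalues i) := by
  calc dg hw f * w = dg hw f * dg hw hw.eigenvalues := by rw [dg_self]
    _ = _ := dg_mul hw _ _

/-- every `dg hw f`, with `f` a function of the eigenvalues, is a polynomial in `w` -/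
lemma dg_adjoin {w : Mt d} (hw : w.IsHermitian) (φ : ℝ → ℝ) :
    dg hw (fun i => φ (hw.eigenvalues i)) ∈ Algebra.adjoin ℂ {w} := by
  classical
  set s : Finset ℝ := Finset.univ.image hw.eigenvalues with hs
  set P : Polynomial ℂ := Lagrange.interpolate s (fun x : ℝ => (x : ℂ)) (fun x => ((φ x : ℝ) : ℂ))
    with hP
  have hPe : ∀ i, P.eval ((hw.eigenvalues i : ℝ) : ℂ) = ((φ (hw.eigenvalues i) : ℝ) : ℂ) := by
    intro i
    exact Lagrange.eval_interpolate_at_node (s := s) (v := fun x : ℝ => (x : ℂ))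
      (r := fun x => ((φ x : ℝ) : ℂ)) (fun a _ b _ h => Complex.ofReal_injective h)
      (Finset.mem_image_of_mem _ (Finset.mem_univ i))
  have key : Polynomial.aeval w P = dg hw (fun i => φ (hw.eigenvalues i)) := by
    have hself := dg_self hw
    have hpow : ∀ k : ℕ, w ^ k = dg hw (fun i => hw.eigenvalues i ^ k) := by
      intro k
      induction k with
      | zero => simp [dg_one]
      | succ k ih =>
        rw [pow_succ, ih, dg_mul_w]
        congr 1
    rw [Polynomial.aeval_eq_sum_range]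
    have hpow' : ∀ k : ℕ, P.coeff k • w ^ k =
        (hw.eigenvectorUnitary : Mt d) *
          diagonal (fun i => P.coeff k * ((hw.eigenvalues i : ℝ) : ℂ) ^ k) *
          (hw.eigenvectorUnitary : Mt d)ᴴ := by
      intro k
      rw [hpow k]
      unfold dg
      rw [← Matrix.smul_mul, ← Matrix.mul_smul, ← diagonal_smul]
      congr 3
      funext i
      simp
    rw [Finset.sum_congr rfl (fun k _ => hpow' k), ← Finset.sum_mul, ← Finset.mul_sum]
    unfold dg
    congr 2
    ext i j
    rw [Matrix.sum_apply]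
    by_cases hij : i = j
    · subst hij
      simp only [diagonal_apply_eq]
      rw [← hPe i, Polynomial.eval_eq_sum_range]
    · simp [diagonal_apply_ne _ hij]
  rw [← key]
  exact Polynomial.aeval_mem_adjoin_singleton ℂ w

end HS6

open HS6 in
/-- TARGET -/
theorem spec_proj {d : ℕ} (A : StarSubalgebra ℂ (Mt d)) (w : Mt d) (hw : w.PosSemidef)
    (hwA : w ∈ A) (hwc : ∀ x ∈ A, x * w = w * x) (hinv : ∃ c : Mt d, c * w = 1) :
    ∃ p : ℝ → Mt d, (∀ t, IsPr (p t)) ∧ (∀ t, p t ∈ A) ∧ (∀ t, ∀ x ∈ A, x * p t = p t * x) ∧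
      (∀ s t, s ≤ t → p s * p t = p t) ∧ (∀ t : ℝ, Le ((t : ℂ) • p t) (w * p t)) ∧
      (∀ t : ℝ, Le (w * (1 - p t)) ((t : ℂ) • (1 - p t))) ∧ (∃ t : ℝ, 0 < t ∧ p t = 1) ∧
      ∃ T : ℝ, ∀ t : ℝ, T ≤ t → p t = 0 := by
  classical
  have hH : w.IsHermitian := hw.1
  have hD0 : ∀ i, 0 ≤ hH.eigenvalues i := fun i => hw.eigenvalues_nonneg i
  have hDp : ∀ i, 0 < hH.eigenvalues i := by
    intro i
    refine lt_of_le_of_ne (hD0 i) (fun h0 => ?_)
    obtain ⟨c, hc⟩ := hinv
    have h1 : c.det * w.det = 1 := by rw [← det_mul, hc, det_one]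
    have h2 : w.det = 0 := by
      rw [hH.det_eq_prod_eigenvalues]
      refine Finset.prod_eq_zero (Finset.mem_univ i) ?_
      rw [← h0]
      simp
    rw [h2, mul_zero] at h1
    exact zero_ne_one h1
  have hself := dg_self hH
  set φ : ℝ → ℝ → ℝ := fun t x => if t ≤ x then 1 else 0 with hφ
  refine ⟨fun t => dg hH (fun i => φ t (hH.eigenvalues i)), ?_, ?_, ?_, ?_, ?_, ?_, ?_, ?_⟩
  · intro t
    refine ⟨dg_conj hH _, ?_⟩
    rw [dg_mul]
    congr 1
    funext i
    simp only [hφ]
    split_ifs <;> simp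
  · intro t
    have h := dg_adjoin hH (φ t)
    have hle : Algebra.adjoin ℂ {w} ≤ A.toSubalgebra :=
      Algebra.adjoin_le (by rintro _ rfl; exact hwA)
    exact hle h
  · intro t x hx
    have h := dg_adjoin hH (φ t)
    have hle : Algebra.adjoin ℂ {w} ≤ Subalgebra.centralizer ℂ {x} := by
      refine Algebra.adjoin_le ?_
      rintro _ rfl
      rw [SetLike.mem_coe, Subalgebra.mem_centralizer_iff]
      rintro _ rfl
      exact hwc _ hx
    exact (Subalgebra.mem_centralizer_iff ℂ).1 (hle h) x rfl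
  · intro s t hst
    rw [dg_mul]
    congr 1
    funext i
    simp only [hφ]
    by_cases h : t ≤ hH.eigenvalues i
    · simp [h, hst.trans h]
    · simp [h]
  · intro t
    rw [w_mul_dg, dg_smul]
    refine dg_Le hH (fun i => ?_)
    simp only [hφ]
    split_ifs with h
    · simpa using h
    · simp
  · intro t
    have h1 : (1 : Mt d) - dg hH (fun i => φ t (hH.eigenvalues i)) =
        dg hH (fun i => 1 - φ t (hH.eigenvalues i)) := by
      rw [← dg_sub, dg_one]
    rw [h1, w_mul_dg, dg_smul]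
    refine dg_Le hH (fun i => ?_)
    simp only [hφ]
    split_ifs with h
    · simp
    · simpa using (not_le.1 h).le
  · have hex : ∃ t : ℝ, 0 < t ∧ ∀ i, t ≤ hH.eigenvalues i := by
      rcases isEmpty_or_nonempty (Fin d) with he | he
      · exact ⟨1, one_pos, fun i => (he.false i).elim⟩
      · obtain ⟨i0, h0⟩ := Finite.exists_min hH.eigenvalues
        exact ⟨hH.eigenvalues i0, hDp i0, h0⟩
    obtain ⟨t, ht, hle⟩ := hex
    refine ⟨t, ht, ?_⟩
    have h1 : (fun i => φ t (hH.eigenvalues i)) = fun _ => 1 := by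
      funext i
      simp [hφ, hle i]
    simp only [h1]
    exact dg_one hH
  · refine ⟨(∑ i, hH.eigenvalues i) + 1, fun t ht => ?_⟩
    have h1 : (fun i => φ t (hH.eigenvalues i)) = fun _ => 0 := by
      funext i
      have h2 : hH.eigenvalues i ≤ ∑ j, hH.eigenvalues j :=
        Finset.single_le_sum (f := hH.eigenvalues) (fun j _ => hD0 j) (Finset.mem_univ i)
      have h3 : ¬ t ≤ hH.eigenvalues i := by
        intro h4
        linarith
      simp [hφ, h3]
    simp only [h1]
    exact dg_zero hH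

end Helper418HL
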