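import Pool.Agent.Helper418_HL.Given
import Pool.Agent.Helper418_Sofic.Alg2
import Pool.Agent.Helper418_Sofic.Main3
import Pool.Agent.W661.RC.All

/-!
# The transvection group over a Leavitt pair of characteristic 101 is not hyperlinear
-/

set_option autoImplicit false

namespace Helper418HL

open Matrix Filter Topology Pool.Agent.W661.RC Pool.Agent.W683.RC
open scoped ComplexOrder

section
variable {G : Type} [Group G] {𝒰 : Ultrafilter ℕ}

/-- restriction of a model to a subgroup -/
def Mdl.res (M : Mdl G 𝒰) (K : Subgroup G) : Mdl K 𝒰 where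
  d := M.d
  pos := M.pos
  U g n := M.U (g : G) n
  un g n := M.un (g : G) n
  mul g h := M.mul (g : G) (h : G)

theorem un_contr (M : Mdl G 𝒰) (g : G) (n : ℕ) : Le ((M.U g n)ᴴ * M.U g n) 1 := by
  rw [M.un]; exact Le_refl _

theorem hs_comm_contr_le {d : ℕ} (y x : Mt d) (hx : Le (xᴴ * x) 1) : hs (y * x - x * y) ≤ 4 * hs y := by
  have h1 := hs_sub_le (y * x) (x * y)
  have h2 := hs_mul_le_right hx y
  have h3 := hs_mul_le hx y
  linarith

/-- eventual smallness of the defect of multiplicativity -/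
theorem mul_small (M : Mdl G 𝒰) (g h : G) {τ : ℝ} (hτ : 0 < τ) :
    ∀ᶠ n in (𝒰 : Filter ℕ), hs (M.U (g * h) n - M.U g n * M.U h n) ≤ τ * M.d n := by
  filter_upwards [(M.mul g h).eventually (gt_mem_nhds hτ)] with n hn
  have : (0:ℝ) < M.d n := by exact_mod_cast M.pos n
  rw [div_lt_iff₀ this] at hn
  exact hn.le

/-- commuting group elements give nearly commuting matrices -/
theorem comm_small (M : Mdl G 𝒰) {g h : G} (hgh : Commute g h) {τ : ℝ} (hτ : 0 < τ) :
    ∀ᶠ n in (𝒰 : Filter ℕ), hs (M.U g n * M.U h n - M.U h n * M.U g n) ≤ τ * M.d n := by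
  filter_upwards [mul_small M g h (show (0:ℝ) < τ / 4 by positivity),
    mul_small M h g (show (0:ℝ) < τ / 4 by positivity)] with n h1 h2
  have e : M.U g n * M.U h n - M.U h n * M.U g n =
      (M.U (h * g) n - M.U h n * M.U g n) - (M.U (g * h) n - M.U g n * M.U h n) := by
    rw [hgh.eq]; abel
  rw [e]
  have := hs_sub_le (M.U (h * g) n - M.U h n * M.U g n) (M.U (g * h) n - M.U g n * M.U h n)
  linarith

/-- The key contradiction, for abstract groups: Kazhdan groups `K ≤ G` such that the elements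
conjugating `K` into itself generate `G`. -/
theorem not_faithful (hU : (𝒰 : Filter ℕ) ≤ cofinite) [Countable G] (M : Mdl G 𝒰) {k l : ℕ}
    (γ : Fin k → G) (hγ : Subgroup.closure (Set.range γ) = ⊤) (hTG : HasT G)
    (κ : Fin l → G) (hTK : HasT (Subgroup.closure (Set.range κ)))
    (P : Set G) (hP : Subgroup.closure P = ⊤)
    (hPκ : ∀ v ∈ P, ∀ j, v * κ j * v⁻¹ ∈ Subgroup.closure (Set.range κ))
    (v : G) (hv : v ∈ P) (z w : G) (hz : ∀ j, Commute z (v * κ j * v⁻¹))
    (hw : w ∈ Subgroup.closure (Set.range κ)) {c0 : ℝ} (hc0 : 0 < c0)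
    (hx0 : ∀ᶠ n in (𝒰 : Filter ℕ), c0 * M.d n ≤ hs (M.U (z * w * z⁻¹ * w⁻¹) n - 1)) : False := by
  obtain ⟨A, K0, ε, hC⟩ := ctl_exists All.mid All.alg hU hTG M γ hγ
  obtain ⟨M', K0', ε', hE, hx1⟩ := corner_thm All.uni hU M γ hγ hC (z * w * z⁻¹ * w⁻¹) c0 hc0 hx0
  set K := Subgroup.closure (Set.range κ) with hK
  -- the model of `K`
  let κ' : Fin l → K := fun j => ⟨κ j, Subgroup.subset_closure ⟨j, rfl⟩⟩
  have hκ' : Subgroup.closure (Set.range κ') = ⊤ := by
    have hinj : Function.Injective (Subgroup.map K.subtype) := Subgroup.map_injective K.subtype_injective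
    apply hinj
    rw [MonoidHom.map_closure, ← Set.range_comp, ← MonoidHom.range_eq_map, Subgroup.range_subtype]
    rfl
  obtain ⟨B, K1, ε1, hB'⟩ := ctl_exists All.mid All.alg hU hTK (M'.res K) κ' hκ'
  have hB : Ctl M' κ B K1 ε1 := ⟨hB'.K0pos, hB'.lim, hB'.com, hB'.near⟩
  have hsz := size_thm M' γ κ hE hB P hP hPκ v hv (fun n => M'.U z n) (fun n => un_contr M' z n)
    (fun j τ hτ => comm_small M' (hz j).symm hτ)
  -- `z` nearly commutes with `w`
  obtain ⟨C, hC0, hC1⟩ := gen_lin M' (Set.range κ) w hw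
  have hzw : ∀ τ : ℝ, 0 < τ → ∀ᶠ n in (𝒰 : Filter ℕ),
      hs (M'.U w n * M'.U z n - M'.U z n * M'.U w n) ≤ τ * M'.d n := by
    intro τ hτ
    have ht : (0:ℝ) < τ / (C + 1) := by positivity
    have := hC1 (fun n => {M'.U z n}) (by
      rintro n x rfl
      exact un_contr M' z n) (τ / (C + 1)) ht (by
      rintro _ ⟨j, rfl⟩
      filter_upwards [hsz j (τ / (C + 1)) ht] with n hn
      rintro x rfl
      exact hn)
    filter_upwards [this] with n hn
    refine (hn _ rfl).trans ?_
    apply mul_le_mul_of_nonneg_right _ (Nat.cast_nonneg _)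
    rw [mul_div_assoc', div_le_iff₀ (by positivity)]
    nlinarith
  -- the commutator is nearly trivial
  set x0 := z * w * z⁻¹ * w⁻¹ with hx0def
  have hrel : x0 * (w * z) = z * w := by rw [hx0def]; group
  have h64 : (0:ℝ) < c0 / 1000 := by positivity
  have hfalse : ∀ᶠ n in (𝒰 : Filter ℕ), False := by
    filter_upwards [hx1, hzw _ h64, mul_small M' x0 (w * z) h64, mul_small M' w z h64,
      mul_small M' z w h64] with n h1 h2 h3 h4 h5
    have hd : (0:ℝ) < M'.d n := by exact_mod_cast M'.pos n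
    rw [hrel] at h3
    have e1 : hs (M'.U x0 n - 1) = hs ((M'.U x0 n - 1) * M'.U (w * z) n) := by
      rw [hs_mul_unit (M'.un (w * z) n)]
    have e2 : (M'.U x0 n - 1) * M'.U (w * z) n =
        (M'.U (z * w) n - M'.U z n * M'.U w n) - (M'.U (z * w) n - M'.U x0 n * M'.U (w * z) n) -
        (M'.U (w * z) n - M'.U w n * M'.U z n) -
        (M'.U w n * M'.U z n - M'.U z n * M'.U w n) := by
      rw [Matrix.sub_mul, Matrix.one_mul]; abel
    rw [e1, e2] at h1
    have i1 := hs_sub_le ((M'.U (z * w) n - M'.U z n * M'.U w n) -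
      (M'.U (z * w) n - M'.U x0 n * M'.U (w * z) n) - (M'.U (w * z) n - M'.U w n * M'.U z n))
      (M'.U w n * M'.U z n - M'.U z n * M'.U w n)
    have i2 := hs_sub_le ((M'.U (z * w) n - M'.U z n * M'.U w n) -
      (M'.U (z * w) n - M'.U x0 n * M'.U (w * z) n)) (M'.U (w * z) n - M'.U w n * M'.U z n)
    have i3 := hs_sub_le (M'.U (z * w) n - M'.U z n * M'.U w n)
      (M'.U (z * w) n - M'.U x0 n * M'.U (w * z) n)
    have : c0 / 8 * M'.d n ≤ 22 * (c0 / 1000 * M'.d n) := by linarith
    nlinarith [mul_pos hc0 hd]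
  exact hfalse.exists.elim fun _ h => h

end

/-- there is a free ultrafilter -/
theorem exists_free : ∃ 𝒰 : Ultrafilter ℕ, (𝒰 : Filter ℕ) ≤ cofinite :=
  ⟨hyperfilter ℕ, hyperfilter_le_cofinite⟩

/-- The transvection group over a Leavitt pair of characteristic 101 is not hyperlinear. -/
theorem not_hyperlinear {R : Type} [Ring R] {x y : Bool → R} (L : Helper418.Leav 101 x y) :
    ¬ IsHyperlinear (Helper418.Alg2.GG x y) := by
  intro h
  obtain ⟨s, k, P, a, Γ, hs, hk, hsgen, hPk, hP, haP, hΓK, hΓc, hh, t, z, w, hhh, ht, hz, h1, h2,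
    hw, h3⟩ := Helper418.Alg2.exists_data L
  obtain ⟨𝒰, hU⟩ := exists_free
  obtain ⟨M, hM⟩ := mdl_of_hyperlinear h hU
  have e : Fin 15 ≃ Fin 3 × Fin 5 := (Fintype.equivFinOfCardEq (by simp)).symm
  have hrs : Set.range (s ∘ e) = Set.range s := e.surjective.range_comp s
  have hrk : Set.range (k ∘ e) = Set.range k := e.surjective.range_comp k
  have hTG : HasT (Helper418.Alg2.GG x y) := hasT_of_tsystem hs hsgen
  have hTK : HasT (Subgroup.closure (Set.range (k ∘ e))) := by
    rw [hrk]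
    let k' : Fin 3 × Fin 5 → Subgroup.closure (Set.range k) := fun j =>
      ⟨k j, Subgroup.subset_closure ⟨j, rfl⟩⟩
    have hk' : Helper418.IsTSystem 101 10 k' :=
      Helper418.Alg2.tsystem_comap (Subgroup.subtype _) (Subgroup.subtype_injective _) hk
    have hk2 : Subgroup.closure (Set.range k') = ⊤ := by
      apply Subgroup.map_injective (Subgroup.subtype_injective (Subgroup.closure (Set.range k)))
      rw [MonoidHom.map_closure, ← Set.range_comp, ← MonoidHom.range_eq_map, Subgroup.range_subtype]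
      rfl
    exact hasT_of_tsystem hk' hk2
  have hΓw : w ∈ Γ := by
    have : Subgroup.closure (Set.range hh) ≤ Γ := by
      rw [Subgroup.closure_le]
      rintro _ ⟨i, rfl⟩
      exact hhh i
    exact this hw
  have hne : z * w * z⁻¹ * w⁻¹ ≠ 1 := by
    intro hc
    apply h3
    show z * w = w * z
    have : z * w = (z * w * z⁻¹ * w⁻¹) * (w * z) := by group
    rw [this, hc, one_mul]
  refine not_faithful hU M (s ∘ e) (by rw [hrs]; exact hsgen) hTG (k ∘ e) hTK P hP ?_ a haP z w
    (fun j => hΓc z hz _) (by rw [hrk]; exact hΓK hΓw) one_pos (by simpa using hM _ hne)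
  intro v hv j
  rw [hrk]
  exact hPk v hv _

end Helper418HL
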